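import Mathlib

/-!
Definitions for the approximation of homeomorphisms of Euclidean space by compositions of
homeomorphisms that change only one coordinate.
-/

set_option autoImplicit false

namespace Run7.h858.Coord

open scoped ContDiff

/-- Euclidean `n`-space. -/
abbrev E (n : ℕ) : Type := EuclideanSpace ℝ (Fin n)

/-- Type A generators: the homeomorphisms of `E n` that change only one coordinate. -/
def SA (n : ℕ) : Set (E n ≃ₜ E n) :=
  {g | ∃ (i : Fin n) (f : E n → ℝ), Continuous f ∧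
    ∀ x : E n, g x i = f x ∧ ∀ j, j ≠ i → g x j = x j}

/-- Type B generators: the homeomorphisms `(x,y,z) ↦ (f₁(y,z), f₂(x,z), f₃(x,y))` of `E 3`. -/
def SB : Set (E 3 ≃ₜ E 3) :=
  {g | ∃ f₁ f₂ f₃ : ℝ × ℝ → ℝ, Continuous f₁ ∧ Continuous f₂ ∧ Continuous f₃ ∧
    ∀ p : E 3, g p 0 = f₁ (p 1, p 2) ∧ g p 1 = f₂ (p 0, p 2) ∧ g p 2 = f₃ (p 0, p 1)}

/-- `h` is approximable by the group `G`: for every bounded set `B` and `ε > 0` there is
`g ∈ G` with `sup_{p ∈ B} |g(p) - h(p)| < ε`. -/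
def Approximable {n : ℕ} (G : Subgroup (E n ≃ₜ E n)) (h : E n ≃ₜ E n) : Prop :=
  ∀ B : Set (E n), Bornology.IsBounded B → ∀ ε : ℝ, 0 < ε →
    ∃ g ∈ G, ∃ δ < ε, ∀ p ∈ B, dist (g p) (h p) ≤ δ

/-- The group of `C^k` diffeomorphisms of `E n`. -/
def Diffeo (n : ℕ) (k : ℕ∞) : Subgroup (E n ≃ₜ E n) where
  carrier := {g | ContDiff ℝ k g ∧ ContDiff ℝ k g.symm}
  mul_mem' := fun {a b} ha hb => ⟨ha.1.comp hb.1, hb.2.comp ha.2⟩
  one_mem' := ⟨contDiff_id, contDiff_id⟩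
  inv_mem' := fun {a} ha => ⟨ha.2, ha.1⟩

end Run7.h858.Coord
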