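import Mathlib
import Pool.Agent.Run7.h858.CoordDefs

set_option autoImplicit false

namespace Run7.h858.Coord

open scoped NNReal

/-- Keep the first `j` coordinates, put `0` in the others. -/
noncomputable def trunc {n : ℕ} (j : ℕ) (x : E n) : E n :=
  WithLp.toLp 2 fun i => if i.val < j then x i else 0

@[simp] theorem trunc_apply {n : ℕ} (j : ℕ) (x : E n) (i : Fin n) :
    trunc j x i = if i.val < j then x i else 0 := rfl

theorem norm_trunc_le {n : ℕ} (j : ℕ) (x : E n) : ‖trunc j x‖ ≤ ‖x‖ := by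
  rw [EuclideanSpace.norm_eq, EuclideanSpace.norm_eq]
  refine Real.sqrt_le_sqrt (Finset.sum_le_sum fun i _ => ?_)
  rw [trunc_apply]
  split_ifs
  · exact le_rfl
  · simp only [norm_zero, ne_eq, OfNat.ofNat_ne_zero, not_false_eq_true, zero_pow]
    positivity

theorem trunc_sub {n : ℕ} (j : ℕ) (x y : E n) : trunc j x - trunc j y = trunc j (x - y) := by
  ext i
  simp only [PiLp.sub_apply, trunc_apply]
  split_ifs <;> simp

/-- The homeomorphism `x ↦ x + trunc j (u x)` for a Lipschitz map `u` with constant `< 1`. -/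
theorem exists_homeo {n : ℕ} {c : ℝ≥0} {u : E n → E n} (hu : LipschitzWith c u) (hc : c < 1)
    (j : ℕ) : ∃ Ψ : E n ≃ₜ E n, ∀ x, Ψ x = x + trunc j (u x) := by
  have hap : ApproximatesLinearOn (fun x => x + trunc j (u x))
      ((ContinuousLinearEquiv.refl ℝ (E n) : E n ≃L[ℝ] E n) : E n →L[ℝ] E n) Set.univ c := by
    intro x _ y _
    have h1 : x + trunc j (u x) - (y + trunc j (u y)) -
        ((ContinuousLinearEquiv.refl ℝ (E n) : E n ≃L[ℝ] E n) : E n →L[ℝ] E n) (x - y)
        = trunc j (u x - u y) := by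
      rw [← trunc_sub]
      simp only [ContinuousLinearEquiv.coe_refl, ContinuousLinearMap.coe_id', id_eq]
      abel
    rw [h1]
    refine (norm_trunc_le _ _).trans ?_
    simpa [dist_eq_norm] using hu.dist_le_mul x y
  have hN : Subsingleton (E n) ∨
      c < ‖((ContinuousLinearEquiv.refl ℝ (E n)).symm : E n →L[ℝ] E n)‖₊⁻¹ := by
    rcases subsingleton_or_nontrivial (E n) with h | h
    · exact Or.inl h
    · right
      have : ‖((ContinuousLinearEquiv.refl ℝ (E n)).symm : E n →L[ℝ] E n)‖₊ = 1 := by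
        rw [ContinuousLinearEquiv.refl_symm, ContinuousLinearEquiv.coe_refl]
        exact ContinuousLinearMap.nnnorm_id
      rw [this, inv_one]
      exact hc
  exact ⟨hap.toHomeomorph _ hN, fun x => rfl⟩

/-- A chain of homeomorphisms in which each differs from the previous one in one coordinate
only. -/
theorem mem_of_chain {n : ℕ} (Ψ : ℕ → E n ≃ₜ E n) (h0 : Ψ 0 ∈ Subgroup.closure (SA n))
    (hs : ∀ j, j < n → ∀ (x : E n) (i : Fin n), i.val ≠ j → Ψ (j + 1) x i = Ψ j x i) :
    Ψ n ∈ Subgroup.closure (SA n) := by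
  have key : ∀ j, j ≤ n → Ψ j ∈ Subgroup.closure (SA n) := by
    intro j
    induction j with
    | zero => exact fun _ => h0
    | succ j ih =>
      intro hj
      have h1 : Ψ (j + 1) = (Ψ (j + 1) * (Ψ j)⁻¹) * Ψ j := by group
      rw [h1]
      refine Subgroup.mul_mem _ (Subgroup.subset_closure ?_) (ih (by omega))
      refine ⟨⟨j, by omega⟩, fun y => (Ψ (j + 1) * (Ψ j)⁻¹) y ⟨j, by omega⟩, ?_, fun y =>
        ⟨rfl, fun i hi => ?_⟩⟩
      · exact (EuclideanSpace.proj (𝕜 := ℝ) (⟨j, by omega⟩ : Fin n)).continuous.comp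
          (Ψ (j + 1) * (Ψ j)⁻¹).continuous
      · obtain ⟨x, rfl⟩ : ∃ x, Ψ j x = y := (Ψ j).surjective y
        have hne : i.val ≠ j := fun h => hi (Fin.ext h)
        rw [Homeomorph.mul_apply, Homeomorph.inv_apply, Homeomorph.symm_apply_apply]
        exact hs j (by omega) x i hne
  exact key n le_rfl

/-- A map `id + u` with `u` Lipschitz of constant `< 1` is a finite composition of
homeomorphisms changing one coordinate only. -/
theorem mem_of_lipschitz {n : ℕ} {c : ℝ≥0} {u : E n → E n} (hu : LipschitzWith c u)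
    (hc : c < 1) : ∃ g ∈ Subgroup.closure (SA n), ∀ x, g x = x + u x := by
  choose Ψ hΨ using exists_homeo hu hc
  refine ⟨Ψ n, mem_of_chain Ψ ?_ fun j hj x i hne => ?_, fun x => ?_⟩
  · have : Ψ 0 = 1 := by
      ext x i
      rw [hΨ]
      simp
    rw [this]
    exact Subgroup.one_mem _
  · rw [hΨ, hΨ]
    simp only [PiLp.add_apply, trunc_apply]
    congr 1
    by_cases h : i.val < j
    · rw [if_pos h, if_pos (by omega)]
    · rw [if_neg h, if_neg (by omega)]
  · rw [hΨ]
    congr 1
    ext i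
    simp

/-- The same, for a map given on a subset only. -/
theorem mem_of_lipschitzOn {n : ℕ} : ∃ κ : ℝ≥0, 0 < κ ∧ ∀ (S : Set (E n)) (u : E n → E n)
    (c : ℝ≥0), c < κ → LipschitzOnWith c u S →
    ∃ g ∈ Subgroup.closure (SA n), ∀ x ∈ S, g x = x + u x := by
  refine ⟨(lipschitzExtensionConstant (E n))⁻¹, ?_, fun S u c hc hu => ?_⟩
  · exact inv_pos.2 (lipschitzExtensionConstant_pos _)
  · obtain ⟨v, hv, hE⟩ := hu.extend_finite_dimension
    have h1 : lipschitzExtensionConstant (E n) * c < 1 := by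
      have hp := lipschitzExtensionConstant_pos (E n)
      calc lipschitzExtensionConstant (E n) * c
          < lipschitzExtensionConstant (E n) * (lipschitzExtensionConstant (E n))⁻¹ :=
            mul_lt_mul_of_pos_left hc hp
        _ = 1 := mul_inv_cancel₀ hp.ne'
    obtain ⟨g, hg, hgx⟩ := mem_of_lipschitz hv h1
    exact ⟨g, hg, fun x hx => by rw [hgx, ← hE hx]⟩

end Run7.h858.Coord
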