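import Mathlib
import Pool.Agent.Run7.h858.CoordLip

set_option autoImplicit false

namespace Run7.h858.Coord

open scoped NNReal

theorem continuous_coord {n : ℕ} (i : Fin n) : Continuous fun x : E n => x i :=
  (EuclideanSpace.proj (𝕜 := ℝ) i).continuous

theorem continuous_of_coord {n : ℕ} {X : Type*} [TopologicalSpace X] {f : X → E n}
    (h : ∀ i, Continuous fun x => f x i) : Continuous f :=
  (PiLp.continuous_toLp 2 _).comp (continuous_pi h)

/-- Adding to coordinate `i` a continuous function of the other coordinates. -/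
noncomputable def addMap {n : ℕ} (i : Fin n) (φ : E n → ℝ) (hφ : Continuous φ)
    (hi : ∀ x t, φ (x + EuclideanSpace.single i t) = φ x) : E n ≃ₜ E n where
  toFun x := x + EuclideanSpace.single i (φ x)
  invFun x := x + EuclideanSpace.single i (-φ x)
  left_inv x := by
    simp only [hi]
    ext k
    by_cases hk : k = i
    · subst hk; simp
    · simp [hk]
  right_inv x := by
    simp only [hi]
    ext k
    by_cases hk : k = i
    · subst hk; simp
    · simp [hk]
  continuous_toFun := by
    refine continuous_id.add (continuous_of_coord fun k => ?_)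
    by_cases hk : k = i
    · subst hk; simpa using hφ
    · simpa [hk] using continuous_const
  continuous_invFun := by
    refine continuous_id.add (continuous_of_coord fun k => ?_)
    by_cases hk : k = i
    · subst hk
      simp only [PiLp.single_apply, if_true]
      exact hφ.neg
    · simpa [hk] using continuous_const

theorem addMap_apply {n : ℕ} (i : Fin n) (φ : E n → ℝ) (hφ : Continuous φ)
    (hi : ∀ x t, φ (x + EuclideanSpace.single i t) = φ x) (x : E n) (k : Fin n) :
    addMap i φ hφ hi x k = if k = i then x k + φ x else x k := by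
  show (x + EuclideanSpace.single i (φ x)) k = _
  by_cases hk : k = i
  · subst hk; simp
  · simp [hk]

theorem mem_SA_of {n : ℕ} (g : E n ≃ₜ E n) (i : Fin n) (h : ∀ x j, j ≠ i → g x j = x j) :
    g ∈ SA n :=
  ⟨i, fun x => g x i, (continuous_coord i).comp g.continuous, fun x => ⟨rfl, h x⟩⟩

/-- Coordinatewise scaling. -/
noncomputable def diagH {n : ℕ} (d : Fin n → ℝ) (hd : ∀ i, d i ≠ 0) : E n ≃ₜ E n where
  toFun x := WithLp.toLp 2 fun i => d i * x i
  invFun x := WithLp.toLp 2 fun i => (d i)⁻¹ * x i
  left_inv x := by
    ext k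
    simp [inv_mul_cancel_left₀ (hd k)]
  right_inv x := by
    ext k
    simp [mul_inv_cancel_left₀ (hd k)]
  continuous_toFun := continuous_of_coord fun i => continuous_const.mul (continuous_coord i)
  continuous_invFun := continuous_of_coord fun i => continuous_const.mul (continuous_coord i)

theorem diagH_apply {n : ℕ} (d : Fin n → ℝ) (hd : ∀ i, d i ≠ 0) (x : E n) (i : Fin n) :
    diagH d hd x i = d i * x i := rfl

theorem exists_matrix {n : ℕ} (M : Matrix (Fin n) (Fin n) ℝ) (hM : M.det ≠ 0) :
    ∃ g ∈ Subgroup.closure (SA n), ∀ x i, g x i = ∑ j, M i j * x j := by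
  refine Matrix.diagonal_transvection_induction_of_det_ne_zero
    (fun M => ∃ g ∈ Subgroup.closure (SA n), ∀ x i, g x i = ∑ j, M i j * x j) M hM ?_ ?_ ?_
  · intro D hD
    rw [Matrix.det_diagonal, Finset.prod_ne_zero_iff] at hD
    have hd : ∀ j : ℕ, ∀ i : Fin n, (if i.val < j then D i else 1) ≠ 0 := by
      intro j i
      split_ifs
      · exact hD i (Finset.mem_univ i)
      · exact one_ne_zero
    refine ⟨diagH (fun i => if i.val < n then D i else 1) (hd n),
      mem_of_chain (fun j => diagH _ (hd j)) ?_ fun j hj x i hne => ?_, fun x i => ?_⟩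
    · have : diagH _ (hd 0) = 1 := by
        ext x i
        rw [diagH_apply]
        simp
      rw [this]
      exact Subgroup.one_mem _
    · rw [diagH_apply, diagH_apply]
      congr 1
      by_cases h : i.val < j
      · rw [if_pos h, if_pos (by omega)]
      · rw [if_neg h, if_neg (by omega)]
    · rw [diagH_apply, if_pos i.isLt]
      simp [Matrix.diagonal_apply]
  · rintro ⟨i, j, hij, c⟩
    have hφ : Continuous fun x : E n => c * x j := continuous_const.mul (continuous_coord j)
    have hi : ∀ (x : E n) (t : ℝ), c * (x + EuclideanSpace.single i t) j = c * x j := by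
      intro x t
      simp [hij.symm]
    refine ⟨addMap i (fun x => c * x j) hφ hi, Subgroup.subset_closure
      (mem_SA_of _ i fun x k hk => ?_), fun x k => ?_⟩
    · rw [addMap_apply, if_neg hk]
    · rw [addMap_apply]
      simp only [Matrix.TransvectionStruct.toMatrix_mk, Matrix.transvection, Matrix.add_apply,
        Matrix.one_apply, Matrix.single_apply, add_mul, Finset.sum_add_distrib, ite_mul, one_mul,
        zero_mul, Finset.sum_ite_eq, Finset.mem_univ, if_true]
      by_cases hk : k = i
      · subst hk
        simp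
      · have hk' : ¬ (i = k) := fun h => hk h.symm
        simp [hk, hk']
  · rintro A B - - ⟨g, hg, hgx⟩ ⟨g', hg', hgx'⟩
    refine ⟨g * g', Subgroup.mul_mem _ hg hg', fun x i => ?_⟩
    rw [Homeomorph.mul_apply, hgx]
    simp only [hgx', Matrix.mul_apply, Finset.sum_mul, Finset.mul_sum, mul_assoc]
    exact Finset.sum_comm

/-- Linear isomorphisms are finite compositions of homeomorphisms changing one coordinate. -/
theorem exists_linear {n : ℕ} (A : E n ≃L[ℝ] E n) :
    ∃ g ∈ Subgroup.closure (SA n), ∀ x, g x = A x := by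
  set M : Matrix (Fin n) (Fin n) ℝ := LinearMap.toMatrix (EuclideanSpace.basisFun (Fin n) ℝ).toBasis
    (EuclideanSpace.basisFun (Fin n) ℝ).toBasis (A.toLinearEquiv : E n →ₗ[ℝ] E n) with hMdef
  have hM : M.det ≠ 0 := by
    rw [hMdef]
    have h1 := LinearEquiv.isUnit_det A.toLinearEquiv (EuclideanSpace.basisFun (Fin n) ℝ).toBasis
      (EuclideanSpace.basisFun (Fin n) ℝ).toBasis
    exact h1.ne_zero
  obtain ⟨g, hg, hgx⟩ := exists_matrix M hM
  refine ⟨g, hg, fun x => ?_⟩
  ext i
  rw [hgx]
  have h2 := congrFun (LinearMap.toMatrix_mulVec_repr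
    (EuclideanSpace.basisFun (Fin n) ℝ).toBasis (EuclideanSpace.basisFun (Fin n) ℝ).toBasis
    (A.toLinearEquiv : E n →ₗ[ℝ] E n) x) i
  simpa [Matrix.mulVec, dotProduct] using h2

end Run7.h858.Coord
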