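import Mathlib
import Pool.Agent.Run7.h858.CoordLin

set_option autoImplicit false

namespace Run7.h858.Coord

open scoped NNReal
open Metric

/-- The isotopy `H_t(x) = f(tx)/t`, `H_0 = Df(0)`. -/
noncomputable def Hiso {n : ℕ} (f : E n → E n) (t : ℝ) (x : E n) : E n :=
  if t = 0 then fderiv ℝ f 0 x else t⁻¹ • f (t • x)

theorem hasFDerivAt_Hiso {n : ℕ} {f : E n → E n} (hf : ContDiff ℝ 1 f) (t : ℝ) (x : E n) :
    HasFDerivAt (Hiso f t) (fderiv ℝ f (t • x)) x := by
  by_cases ht : t = 0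
  · subst ht
    have h1 : Hiso f 0 = fun x => fderiv ℝ f 0 x := by
      ext1 x; simp [Hiso]
    rw [h1, zero_smul]
    exact (fderiv ℝ f 0).hasFDerivAt
  · have h1 : Hiso f t = fun x => t⁻¹ • f (t • x) := by
      ext1 x; simp [Hiso, ht]
    rw [h1]
    have h2 : HasFDerivAt f (fderiv ℝ f (t • x)) (t • x) :=
      ((hf.differentiable (by norm_num)) _).hasFDerivAt
    have h3 : HasFDerivAt (fun x : E n => t • x) (t • ContinuousLinearMap.id ℝ (E n)) x :=
      (hasFDerivAt_id x).const_smul t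
    have h4 := (h2.comp x h3).const_smul t⁻¹
    have h5 : fderiv ℝ f (t • x) =
        t⁻¹ • (fderiv ℝ f (t • x)).comp (t • ContinuousLinearMap.id ℝ (E n)) := by
      ext1 v
      simp [smul_smul, inv_mul_cancel₀ ht]
    rw [h5]
    exact h4

theorem norm_fderiv_bound {n : ℕ} {f : E n → E n} (hf : ContDiff ℝ 1 f) (R : ℝ) :
    ∃ C : ℝ≥0, ∀ x ∈ closedBall (0 : E n) R, ‖fderiv ℝ f x‖ ≤ C := by
  have hc : Continuous fun x => fderiv ℝ f x := hf.continuous_fderiv (by norm_num)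
  obtain ⟨C, hC⟩ := (isCompact_closedBall (0 : E n) R).exists_bound_of_continuousOn hc.continuousOn
  exact ⟨⟨max C 0, le_max_right _ _⟩, fun x hx => (hC x hx).trans (le_max_left _ _)⟩

theorem core {n : ℕ} {f finv : E n → E n} (hf : ContDiff ℝ 1 f) (hfi : ContDiff ℝ 1 finv)
    (hinv : ∀ x, finv (f x) = x) (hf0 : f 0 = 0) {R : ℝ} (hR : 0 < R) :
    ∃ g ∈ Subgroup.closure (SA n), ∀ x ∈ closedBall (0 : E n) R, g x = f x := by
  set K := closedBall (0 : E n) R with hK
  -- lower bound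
  obtain ⟨ρ, hρ⟩ : ∃ ρ : ℝ, ∀ x ∈ K, f x ∈ closedBall (0 : E n) ρ := by
    obtain ⟨C, hC⟩ := (isCompact_closedBall (0 : E n) R).exists_bound_of_continuousOn
      hf.continuous.continuousOn
    exact ⟨C, fun x hx => by simpa using hC x hx⟩
  obtain ⟨L, hL⟩ := norm_fderiv_bound hfi ρ
  have h0K : (0 : E n) ∈ K := mem_closedBall_self hR.le
  have h0ρ : (0 : E n) ∈ closedBall (0 : E n) ρ := by
    have := hρ 0 h0K
    rwa [hf0] at this
  have hlow1 : ∀ x ∈ K, ∀ y ∈ K, ‖x - y‖ ≤ L * ‖f x - f y‖ := by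
    intro x hx y hy
    have h1 := (convex_closedBall (0 : E n) ρ).norm_image_sub_le_of_norm_fderiv_le (𝕜 := ℝ)
      (f := finv) (C := L) (fun z _ => (hfi.differentiable (by norm_num)) z) (fun z hz => hL z hz)
      (hρ y hy) (hρ x hx)
    rwa [hinv, hinv] at h1
  have hlow : ∀ s ∈ Set.Icc (0 : ℝ) 1, ∀ x ∈ K, ∀ y ∈ K,
      ‖x - y‖ ≤ L * ‖Hiso f s x - Hiso f s y‖ := by
    intro s hs x hx y hy
    by_cases hs0 : s = 0
    · subst hs0
      have h1 : ∀ v, fderiv ℝ finv 0 (fderiv ℝ f 0 v) = v := by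
        intro v
        have h2 : HasFDerivAt f (fderiv ℝ f 0) 0 :=
          ((hf.differentiable (by norm_num)) _).hasFDerivAt
        have h3 : HasFDerivAt finv (fderiv ℝ finv 0) (f 0) := by
          rw [hf0]; exact ((hfi.differentiable (by norm_num)) _).hasFDerivAt
        have h4 := h3.comp (0 : E n) h2
        have h5 : finv ∘ f = id := by ext1 x; simp [hinv]
        rw [h5] at h4
        have h6 := h4.unique (hasFDerivAt_id (0 : E n))
        exact congrArg (fun T => T v) h6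
      have h2 : Hiso f 0 x - Hiso f 0 y = fderiv ℝ f 0 (x - y) := by
        simp [Hiso]
      rw [h2]
      calc ‖x - y‖ = ‖fderiv ℝ finv 0 (fderiv ℝ f 0 (x - y))‖ := by rw [h1]
        _ ≤ ‖fderiv ℝ finv 0‖ * ‖fderiv ℝ f 0 (x - y)‖ := ContinuousLinearMap.le_opNorm _ _
        _ ≤ L * ‖fderiv ℝ f 0 (x - y)‖ := by
          gcongr
          exact hL 0 h0ρ
    · have hspos : 0 < s := lt_of_le_of_ne hs.1 (Ne.symm hs0)
      have hsK : ∀ z ∈ K, s • z ∈ K := by
        intro z hz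
        rw [hK, mem_closedBall_zero_iff] at hz ⊢
        rw [norm_smul, Real.norm_of_nonneg hs.1]
        calc s * ‖z‖ ≤ 1 * ‖z‖ := by gcongr; exact hs.2
          _ ≤ R := by rw [one_mul]; exact hz
      have h1 := hlow1 _ (hsK x hx) _ (hsK y hy)
      have h2 : Hiso f s x - Hiso f s y = s⁻¹ • (f (s • x) - f (s • y)) := by
        simp [Hiso, hs0, smul_sub]
      rw [h2, norm_smul, Real.norm_of_nonneg (inv_nonneg.2 hs.1)]
      rw [← smul_sub, norm_smul, Real.norm_of_nonneg hs.1] at h1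
      calc ‖x - y‖ = s⁻¹ * (s * ‖x - y‖) := by field_simp
        _ ≤ s⁻¹ * (L * ‖f (s • x) - f (s • y)‖) := by gcongr
        _ = L * (s⁻¹ * ‖f (s • x) - f (s • y)‖) := by ring
  -- the constant
  obtain ⟨κ, hκ, hstep⟩ := mem_of_lipschitzOn (n := n)
  obtain ⟨ω, hω, hωL⟩ : ∃ ω : ℝ≥0, 0 < ω ∧ ω * L < κ := by
    refine ⟨κ / (2 * (L + 1)), by positivity, ?_⟩
    have h1 : κ / (2 * (L + 1)) * L = κ * (L / (2 * (L + 1))) := by ring
    rw [h1]
    have h2 : L / (2 * (L + 1)) < 1 := by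
      rw [div_lt_one (by positivity)]
      have : L < L + 1 := lt_add_one L
      calc L < L + 1 := this
        _ ≤ 2 * (L + 1) := by
          rw [two_mul]; exact le_add_self
    calc κ * (L / (2 * (L + 1))) < κ * 1 := mul_lt_mul_of_pos_left h2 hκ
      _ = κ := mul_one κ
  -- uniform continuity
  obtain ⟨δ, hδ, hunif⟩ : ∃ δ > 0, ∀ t ∈ Set.Icc (0 : ℝ) 1, ∀ s ∈ Set.Icc (0 : ℝ) 1,
      |t - s| < δ → ∀ z ∈ K, ‖fderiv ℝ f (t • z) - fderiv ℝ f (s • z)‖ ≤ ω := by
    have hc : Continuous fun p : ℝ × E n => fderiv ℝ f (p.1 • p.2) :=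
      (hf.continuous_fderiv (by norm_num)).comp (continuous_fst.smul continuous_snd)
    have hcomp : IsCompact (Set.Icc (0 : ℝ) 1 ×ˢ K) :=
      isCompact_Icc.prod (isCompact_closedBall _ _)
    have hu := hcomp.uniformContinuousOn_of_continuous hc.continuousOn
    rw [Metric.uniformContinuousOn_iff] at hu
    obtain ⟨δ, hδ, h⟩ := hu ω (by exact_mod_cast hω)
    refine ⟨δ, hδ, fun t ht s hs hts z hz => ?_⟩
    have h1 := h (t, z) ⟨ht, hz⟩ (s, z) ⟨hs, hz⟩ (by
      rw [Prod.dist_eq, dist_self, Real.dist_eq]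
      exact max_lt hts hδ)
    rw [dist_eq_norm] at h1
    exact h1.le
  -- one step
  have step : ∀ s ∈ Set.Icc (0 : ℝ) 1, ∀ t ∈ Set.Icc (0 : ℝ) 1, |t - s| < δ →
      (∃ g ∈ Subgroup.closure (SA n), ∀ x ∈ K, g x = Hiso f s x) →
      (∃ g ∈ Subgroup.closure (SA n), ∀ x ∈ K, g x = Hiso f t x) := by
    rintro s hs t ht hts ⟨g, hg, hgx⟩
    have hinj : Set.InjOn (Hiso f s) K := by
      intro x hx y hy hxy
      have h1 := hlow s hs x hx y hy
      rw [hxy, sub_self, norm_zero, mul_zero] at h1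
      exact sub_eq_zero.1 (norm_le_zero_iff.1 h1)
    have hd : ∀ x ∈ K, ∀ y ∈ K,
        ‖(Hiso f t x - Hiso f s x) - (Hiso f t y - Hiso f s y)‖ ≤ ω * ‖x - y‖ := by
      intro x hx y hy
      have h1 := (convex_closedBall (0 : E n) R).norm_image_sub_le_of_norm_hasFDerivWithin_le
        (𝕜 := ℝ) (f := fun z => Hiso f t z - Hiso f s z) (C := ω)
        (f' := fun z => fderiv ℝ f (t • z) - fderiv ℝ f (s • z))
        (fun z _ => ((hasFDerivAt_Hiso hf t z).sub (hasFDerivAt_Hiso hf s z)).hasFDerivWithinAt)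
        (fun z hz => hunif t ht s hs hts z hz) hy hx
      exact h1
    set inv := Function.invFunOn (Hiso f s) K with hinvdef
    have hinv1 : ∀ x ∈ K, inv (Hiso f s x) = x := fun x hx =>
      hinj.leftInvOn_invFunOn hx
    obtain ⟨g', hg', hgx'⟩ := hstep (Hiso f s '' K) (fun y => Hiso f t (inv y) - y) (ω * L) hωL (by
      rw [lipschitzOnWith_iff_norm_sub_le]
      rintro _ ⟨x, hx, rfl⟩ _ ⟨y, hy, rfl⟩
      rw [hinv1 x hx, hinv1 y hy]
      calc ‖(Hiso f t x - Hiso f s x) - (Hiso f t y - Hiso f s y)‖ ≤ ω * ‖x - y‖ :=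
            hd x hx y hy
        _ ≤ ω * (L * ‖Hiso f s x - Hiso f s y‖) := by
          gcongr
          exact hlow s hs x hx y hy
        _ = ((ω * L : ℝ≥0) : ℝ) * ‖Hiso f s x - Hiso f s y‖ := by push_cast; ring)
    refine ⟨g' * g, Subgroup.mul_mem _ hg' hg, fun x hx => ?_⟩
    rw [Homeomorph.mul_apply, hgx x hx, hgx' _ (Set.mem_image_of_mem _ hx), hinv1 x hx]
    abel
  -- start at `0`
  have start : ∃ g ∈ Subgroup.closure (SA n), ∀ x ∈ K, g x = Hiso f 0 x := by
    have hinj : Function.Injective (fderiv ℝ f 0) := by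
      rw [injective_iff_map_eq_zero]
      intro v hv
      have h2 : HasFDerivAt f (fderiv ℝ f 0) 0 :=
        ((hf.differentiable (by norm_num)) _).hasFDerivAt
      have h3 : HasFDerivAt finv (fderiv ℝ finv 0) (f 0) := by
        rw [hf0]; exact ((hfi.differentiable (by norm_num)) _).hasFDerivAt
      have h4 := h3.comp (0 : E n) h2
      have h5 : finv ∘ f = id := by ext1 x; simp [hinv]
      rw [h5] at h4
      have h6 := h4.unique (hasFDerivAt_id (0 : E n))
      have h7 := congrArg (fun T => T v) h6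
      simp only [ContinuousLinearMap.comp_apply, hv, map_zero, ContinuousLinearMap.id_apply] at h7
      exact h7.symm
    let A : E n ≃L[ℝ] E n := (LinearEquiv.ofInjectiveEndo
      (fderiv ℝ f 0 : E n →ₗ[ℝ] E n) hinj).toContinuousLinearEquiv
    obtain ⟨g, hg, hgx⟩ := exists_linear A
    refine ⟨g, hg, fun x _ => ?_⟩
    rw [hgx]
    simp only [Hiso, if_true]
    rfl
  -- walk from `0` to `1`
  have walk : ∀ k : ℕ, ∃ g ∈ Subgroup.closure (SA n), ∀ x ∈ K,
      g x = Hiso f (min 1 (k * (δ / 2))) x := by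
    intro k
    induction k with
    | zero => simpa using start
    | succ k ih =>
      have hmem : ∀ j : ℕ, min 1 ((j : ℝ) * (δ / 2)) ∈ Set.Icc (0 : ℝ) 1 := fun j =>
        ⟨le_min zero_le_one (by positivity), min_le_left _ _⟩
      refine step _ (hmem k) _ (by exact_mod_cast hmem (k + 1)) ?_ ih
      have h1 : |min 1 (((k + 1 : ℕ) : ℝ) * (δ / 2)) - min 1 ((k : ℝ) * (δ / 2))| ≤
          |((k + 1 : ℕ) : ℝ) * (δ / 2) - (k : ℝ) * (δ / 2)| := by
        refine (abs_min_sub_min_le_max _ _ _ _).trans ?_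
        rw [sub_self, abs_zero]
        exact max_le (abs_nonneg _) le_rfl
      refine lt_of_le_of_lt h1 ?_
      have h2 : ((k + 1 : ℕ) : ℝ) * (δ / 2) - (k : ℝ) * (δ / 2) = δ / 2 := by
        push_cast; ring
      rw [h2, abs_of_pos (by positivity)]
      linarith
  obtain ⟨k, hk⟩ := exists_nat_gt (1 / (δ / 2))
  have hk1 : min 1 ((k : ℝ) * (δ / 2)) = 1 := by
    refine min_eq_left ?_
    rw [div_lt_iff₀ (by positivity)] at hk
    exact hk.le
  obtain ⟨g, hg, hgx⟩ := walk k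
  refine ⟨g, hg, fun x hx => ?_⟩
  rw [hgx x hx, hk1]
  simp [Hiso]

/-- On each bounded set a `C¹` diffeomorphism agrees with a finite composition of
homeomorphisms changing one coordinate only. -/
theorem exact_on_bounded {n : ℕ} (h : E n ≃ₜ E n) (h1 : ContDiff ℝ 1 h)
    (h2 : ContDiff ℝ 1 h.symm) (B : Set (E n)) (hB : Bornology.IsBounded B) :
    ∃ g ∈ Subgroup.closure (SA n), ∀ x ∈ B, g x = h x := by
  obtain ⟨R, hR⟩ := hB.subset_closedBall 0
  obtain ⟨g, hg, hgx⟩ := core (f := fun x => h x - h 0) (finv := fun y => h.symm (y + h 0))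
    (h1.sub contDiff_const) (h2.comp (contDiff_id.add contDiff_const)) (fun x => by simp)
    (by simp) (R := max R 1) (by positivity)
  obtain ⟨g', hg', hgx'⟩ := mem_of_lipschitz (n := n) (c := 0) (u := fun _ => h 0)
    (LipschitzWith.const _) zero_lt_one
  refine ⟨g' * g, Subgroup.mul_mem _ hg' hg, fun x hx => ?_⟩
  rw [Homeomorph.mul_apply, hgx', hgx x (closedBall_subset_closedBall (le_max_left _ _) (hR hx))]
  abel

end Run7.h858.Coord
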