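import Mathlib
import Pool.Agent.Run7.h858.CoordLin

set_option autoImplicit false

namespace Run7.h858.Coord

open Metric

/-- Simplified form of approximability. -/
theorem approx_iff {n : ℕ} {G : Subgroup (E n ≃ₜ E n)} {h : E n ≃ₜ E n} :
    Approximable G h ↔ ∀ R : ℝ, ∀ ε : ℝ, 0 < ε →
      ∃ g ∈ G, ∀ p ∈ closedBall (0 : E n) R, dist (g p) (h p) < ε := by
  constructor
  · intro H R ε hε
    obtain ⟨g, hg, δ, hδ, hp⟩ := H _ isBounded_closedBall ε hε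
    exact ⟨g, hg, fun p hpB => (hp p hpB).trans_lt hδ⟩
  · intro H B hB ε hε
    obtain ⟨R, hR⟩ := hB.subset_closedBall 0
    obtain ⟨g, hg, hp⟩ := H R (ε / 2) (by positivity)
    exact ⟨g, hg, ε / 2, by linarith, fun p hpB => (hp p (hR hpB)).le⟩

theorem approx_of_mem {n : ℕ} {G : Subgroup (E n ≃ₜ E n)} {h : E n ≃ₜ E n} (hh : h ∈ G) :
    Approximable G h := by
  rw [approx_iff]
  intro R ε hε
  exact ⟨h, hh, fun p _ => by rw [dist_self]; exact hε⟩

theorem approx_mul {n : ℕ} {G : Subgroup (E n ≃ₜ E n)} {h₁ h₂ : E n ≃ₜ E n}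
    (H₁ : Approximable G h₁) (H₂ : Approximable G h₂) : Approximable G (h₁ * h₂) := by
  rw [approx_iff] at *
  intro R ε hε
  obtain ⟨C, hC⟩ := (isCompact_closedBall (0 : E n) R).exists_bound_of_continuousOn
    h₂.continuous.continuousOn
  have huc := (isCompact_closedBall (0 : E n) (C + 1)).uniformContinuousOn_of_continuous
    h₁.continuous.continuousOn
  rw [Metric.uniformContinuousOn_iff] at huc
  obtain ⟨δ, hδ, hu⟩ := huc (ε / 2) (by positivity)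
  obtain ⟨g₁, hg₁, h1⟩ := H₁ (C + 1) (ε / 2) (by positivity)
  obtain ⟨g₂, hg₂, h2⟩ := H₂ R (min δ 1) (lt_min hδ one_pos)
  refine ⟨g₁ * g₂, G.mul_mem hg₁ hg₂, fun p hp => ?_⟩
  have hb : h₂ p ∈ closedBall (0 : E n) (C + 1) := by
    rw [mem_closedBall_zero_iff]
    linarith [hC p hp]
  have hd := h2 p hp
  have hb' : g₂ p ∈ closedBall (0 : E n) (C + 1) := by
    rw [mem_closedBall_zero_iff]
    have h3 : ‖g₂ p‖ ≤ ‖h₂ p‖ + dist (g₂ p) (h₂ p) := by
      rw [dist_eq_norm]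
      calc ‖g₂ p‖ = ‖h₂ p + (g₂ p - h₂ p)‖ := by congr 1; abel
        _ ≤ _ := norm_add_le _ _
    have h4 : dist (g₂ p) (h₂ p) < 1 := lt_of_lt_of_le hd (min_le_right _ _)
    linarith [hC p hp]
  calc dist ((g₁ * g₂) p) ((h₁ * h₂) p) ≤ dist (g₁ (g₂ p)) (h₁ (g₂ p)) +
        dist (h₁ (g₂ p)) (h₁ (h₂ p)) := dist_triangle _ _ _
    _ < ε / 2 + ε / 2 := by
      refine add_lt_add (h1 _ hb') (hu _ hb' _ hb (lt_of_lt_of_le hd (min_le_left _ _)))
    _ = ε := by ring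

theorem approx_closure {n : ℕ} {G : Subgroup (E n ≃ₜ E n)} {S : Set (E n ≃ₜ E n)}
    (hS : ∀ s ∈ S, Approximable G s) (hinv : ∀ s ∈ S, s⁻¹ ∈ S) {g : E n ≃ₜ E n}
    (hg : g ∈ Subgroup.closure S) : Approximable G g := by
  refine Subgroup.closure_induction'' (p := fun g _ => Approximable G g) ?_ ?_ ?_ ?_ hg
  · exact fun x hx => hS x hx
  · exact fun x hx => hS _ (hinv x hx)
  · exact approx_of_mem G.one_mem
  · exact fun x y _ _ hx hy => approx_mul hx hy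

theorem approx_trans {n : ℕ} {G₁ G₂ : Subgroup (E n ≃ₜ E n)}
    (H : ∀ g ∈ G₁, Approximable G₂ g) {h : E n ≃ₜ E n} (hh : Approximable G₁ h) :
    Approximable G₂ h := by
  rw [approx_iff] at *
  intro R ε hε
  obtain ⟨g, hg, h1⟩ := hh R (ε / 2) (by positivity)
  obtain ⟨g', hg', h2⟩ := approx_iff.1 (H g hg) R (ε / 2) (by positivity)
  refine ⟨g', hg', fun p hp => ?_⟩
  calc dist (g' p) (h p) ≤ dist (g' p) (g p) + dist (g p) (h p) := dist_triangle _ _ _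
    _ < ε / 2 + ε / 2 := add_lt_add (h2 p hp) (h1 p hp)
    _ = ε := by ring

theorem approx_mono {n : ℕ} {G₁ G₂ : Subgroup (E n ≃ₜ E n)} (H : G₁ ≤ G₂)
    {h : E n ≃ₜ E n} (hh : Approximable G₁ h) : Approximable G₂ h :=
  approx_trans (fun g hg => approx_of_mem (H hg)) hh

theorem inv_mem_SA {n : ℕ} : ∀ s ∈ SA n, s⁻¹ ∈ SA n := by
  rintro s ⟨i, f, hf, hs⟩
  refine mem_SA_of _ i fun y j hj => ?_
  obtain ⟨x, rfl⟩ := s.surjective y
  rw [Homeomorph.inv_apply, Homeomorph.symm_apply_apply, (hs x).2 j hj]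

end Run7.h858.Coord
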