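import Mathlib
import Pool.Agent.Run7.h858.CoordApprox

set_option autoImplicit false

namespace Run7.h858.Coord

open Metric MeasureTheory
open scoped ContDiff Convolution

/-- unit vector -/
noncomputable abbrev ei {n : ℕ} (i : Fin n) (t : ℝ) : E n := EuclideanSpace.single i t

theorem ei_add {n : ℕ} (i : Fin n) (s t : ℝ) : (ei i (s + t) : E n) = ei i s + ei i t := by
  ext k
  by_cases hk : k = i
  · subst hk; simp [ei]
  · simp [ei, hk]

theorem ei_smul {n : ℕ} (i : Fin n) (t : ℝ) : (ei i t : E n) = t • ei i 1 := by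
  ext k
  by_cases hk : k = i
  · subst hk; simp [ei]
  · simp [ei, hk]

theorem continuous_ei {n : ℕ} (i : Fin n) : Continuous fun t : ℝ => (ei i t : E n) := by
  have : (fun t : ℝ => (ei i t : E n)) = fun t : ℝ => t • (ei i 1 : E n) := by
    ext1 t; exact ei_smul i t
  rw [this]
  exact continuous_id.smul continuous_const

/-- A smooth approximation of a function that is monotone in coordinate `i`. -/
theorem exists_smooth_mono {n : ℕ} (i : Fin n) (F : E n → ℝ) (hF : Continuous F)
    (hmono : ∀ (x : E n) (t : ℝ), 0 ≤ t → F x ≤ F (x + ei i t)) {δ : ℝ} (hδ : 0 < δ) :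
    ∃ G : E n → ℝ, ContDiff ℝ ∞ G ∧
      (∀ (x : E n) (t : ℝ), 0 ≤ t → G x ≤ G (x + ei i t)) ∧
      ∀ (a : E n) (ε : ℝ), (∀ x ∈ ball a δ, dist (F x) (F a) ≤ ε) → dist (G a) (F a) ≤ ε := by
  set φ : ContDiffBump (0 : E n) := ⟨δ / 2, δ, half_pos hδ, half_lt_self hδ⟩ with hφ
  have hli : LocallyIntegrable F (volume : Measure (E n)) := hF.locallyIntegrable
  refine ⟨(φ.normed volume ⋆[ContinuousLinearMap.lsmul ℝ ℝ, volume] F),
    φ.hasCompactSupport_normed.contDiff_convolution_left _ φ.contDiff_normed hli,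
    fun x t ht => ?_, fun a ε => φ.dist_normed_convolution_le hF.aestronglyMeasurable⟩
  rw [convolution_def, convolution_def]
  have hint : ∀ y : E n, Integrable (fun z => (ContinuousLinearMap.lsmul ℝ ℝ)
      (φ.normed volume z) (F (y - z))) volume := by
    intro y
    refine Continuous.integrable_of_hasCompactSupport ?_ ?_
    · simp only [ContinuousLinearMap.lsmul_apply, smul_eq_mul]
      exact (φ.contDiff_normed (n := 0)).continuous.mul
        (hF.comp (continuous_const.sub continuous_id))
    · simp only [ContinuousLinearMap.lsmul_apply, smul_eq_mul]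
      exact φ.hasCompactSupport_normed.mul_right
  refine integral_mono (hint x) (hint _) fun z => ?_
  simp only [ContinuousLinearMap.lsmul_apply, smul_eq_mul]
  refine mul_le_mul_of_nonneg_left ?_ (φ.nonneg_normed z)
  have h1 : x + ei i t - z = (x - z) + ei i t := by abel
  rw [h1]
  exact hmono _ _ ht

/-- The homeomorphism replacing coordinate `i` by `G x`, a smooth function with positive
derivative in direction `i`. -/
theorem exists_diffeo {n : ℕ} (i : Fin n) (G₀ : E n → ℝ) (hG : ContDiff ℝ ∞ G₀)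
    (hmono : ∀ (x : E n) (t : ℝ), 0 ≤ t → G₀ x ≤ G₀ (x + ei i t)) {η : ℝ} (hη : 0 < η) :
    ∃ g ∈ Diffeo n ⊤, ∀ x, g x = x + ei i (G₀ x + η * x i - x i) := by
  classical
  set Γ : E n → E n := fun x => x + ei i (G₀ x + η * x i - x i) with hΓ
  have hcoord : ∀ k, ContDiff ℝ ∞ fun x : E n => x k := fun k =>
    (EuclideanSpace.proj (𝕜 := ℝ) k).contDiff
  have hφ : ContDiff ℝ ∞ fun x : E n => G₀ x + η * x i - x i :=
    (hG.add (contDiff_const.mul (hcoord i))).sub (hcoord i)
  have hΓs : ContDiff ℝ ∞ Γ := by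
    have h1 : Γ = fun x => x + (G₀ x + η * x i - x i) • (ei i 1 : E n) := by
      ext1 x
      rw [hΓ]
      simp only
      rw [ei_smul]
    rw [h1]
    exact contDiff_id.add (hφ.smul contDiff_const)
  have hΓi : ∀ x, Γ x i = G₀ x + η * x i := fun x => by simp [hΓ, ei]
  have hΓk : ∀ x k, k ≠ i → Γ x k = x k := fun x k hk => by simp [hΓ, ei, hk]
  have hstrict : ∀ (x : E n) (t : ℝ), 0 < t →
      G₀ x + η * x i < G₀ (x + ei i t) + η * (x + ei i t) i := by
    intro x t ht
    have h1 := hmono x t ht.le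
    have h2 : (x + ei i t) i = x i + t := by simp [ei]
    rw [h2]
    nlinarith
  have hline : ∀ x y : E n, (∀ k, k ≠ i → x k = y k) → y = x + ei i (y i - x i) := by
    intro x y h
    ext k
    by_cases hk : k = i
    · subst hk; simp [ei]
    · simp [ei, hk, h k hk]
  have hinj : Function.Injective Γ := by
    intro x y hxy
    have h1 : y = x + ei i (y i - x i) := hline x y fun k hk => by
      rw [← hΓk x k hk, ← hΓk y k hk, hxy]
    have h2 : G₀ x + η * x i = G₀ y + η * y i := by rw [← hΓi, ← hΓi, hxy]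
    rcases lt_trichotomy (x i) (y i) with h | h | h
    · have h3 := hstrict x (y i - x i) (by linarith)
      rw [← h1] at h3
      exact absurd h2 h3.ne
    · rw [h1, h]; simp [ei]
    · have h1' : x = y + ei i (x i - y i) := hline y x fun k hk => by
        rw [← hΓk x k hk, ← hΓk y k hk, hxy]
      have h3 := hstrict y (x i - y i) (by linarith)
      rw [← h1'] at h3
      exact absurd h2.symm h3.ne
  have hsurj : Function.Surjective Γ := by
    intro y
    -- intermediate value theorem on the line through `y`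
    set ψ : ℝ → ℝ := fun t => G₀ (y + ei i t) + η * (y i + t) with hψ
    have hψc : Continuous ψ := by
      have h1 : Continuous fun t : ℝ => y + (ei i t : E n) :=
        continuous_const.add (continuous_ei i)
      exact (hG.continuous.comp h1).add (continuous_const.mul (continuous_const.add continuous_id))
    have hψtop : Filter.Tendsto ψ Filter.atTop Filter.atTop := by
      refine Filter.tendsto_atTop_mono' _ (f₁ := fun t => G₀ y + η * (y i + t)) ?_ ?_
      · filter_upwards [Filter.eventually_ge_atTop 0] with t ht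
        have := hmono y t ht
        simp only [hψ]
        linarith
      · refine Filter.tendsto_atTop_add_const_left _ _ ?_
        refine Filter.Tendsto.const_mul_atTop hη ?_
        exact Filter.tendsto_atTop_add_const_left _ _ Filter.tendsto_id
    have hψbot : Filter.Tendsto ψ Filter.atBot Filter.atBot := by
      refine Filter.tendsto_atBot_mono' _ (f₁ := fun t => G₀ y + η * (y i + t)) ?_ ?_
      · filter_upwards [Filter.eventually_le_atBot 0] with t ht
        have h1 := hmono (y + ei i t) (-t) (by linarith)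
        have h2 : y + ei i t + ei i (-t) = y := by
          rw [add_assoc, ← ei_add]; simp [ei]
        rw [h2] at h1
        simp only [hψ]
        linarith
      · refine Filter.tendsto_atBot_add_const_left _ _ ?_
        refine Filter.Tendsto.const_mul_atBot hη ?_
        exact Filter.tendsto_atBot_add_const_left _ _ Filter.tendsto_id
    obtain ⟨t, ht⟩ := hψc.surjective hψtop hψbot (y i)
    refine ⟨y + ei i t, ?_⟩
    ext k
    by_cases hk : k = i
    · subst hk
      rw [hΓi]
      simpa [ei, hψ] using ht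
    · rw [hΓk _ _ hk]
      simp [ei, hk]
  have hdiff : ∀ x, HasFDerivAt G₀ (fderiv ℝ G₀ x) x := fun x =>
    ((hG.differentiable (by norm_num)) x).hasFDerivAt
  have hpos : ∀ x, 0 ≤ fderiv ℝ G₀ x (ei i 1) := by
    intro x
    have h1 : HasDerivAt (fun t : ℝ => x + t • (ei i 1 : E n)) (ei i 1 : E n) 0 := by
      simpa using ((hasDerivAt_id (0 : ℝ)).smul_const (ei i 1 : E n)).const_add x
    have h2 : HasDerivAt (fun t : ℝ => G₀ (x + t • (ei i 1 : E n))) (fderiv ℝ G₀ x (ei i 1)) 0 := by
      have h3 : HasFDerivAt G₀ (fderiv ℝ G₀ x) (x + (0 : ℝ) • (ei i 1 : E n)) := by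
        simpa using hdiff x
      exact h3.comp_hasDerivAt 0 h1
    have h4 : Monotone fun t : ℝ => G₀ (x + t • (ei i 1 : E n)) := by
      intro s t hst
      have h5 := hmono (x + s • (ei i 1 : E n)) (t - s) (by linarith)
      have h6 : x + s • (ei i 1 : E n) + ei i (t - s) = x + t • (ei i 1 : E n) := by
        rw [ei_smul i (t - s), add_assoc, ← add_smul]
        congr 2
        ring
      rw [h6] at h5
      exact h5
    have h7 := h4.deriv_nonneg (x := 0)
    rwa [h2.deriv] at h7
  -- derivative of `Γ`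
  set D : E n → E n →L[ℝ] E n := fun x => fderiv ℝ Γ x with hD
  have hDapp : ∀ x v, D x v = v + ei i (fderiv ℝ G₀ x v + η * v i - v i) := by
    intro x v
    have h1 : HasFDerivAt (fun x : E n => G₀ x + η * x i - x i)
        (fderiv ℝ G₀ x + η • (EuclideanSpace.proj (𝕜 := ℝ) i : E n →L[ℝ] ℝ) -
          (EuclideanSpace.proj (𝕜 := ℝ) i : E n →L[ℝ] ℝ)) x :=
      ((hdiff x).add ((EuclideanSpace.proj (𝕜 := ℝ) i : E n →L[ℝ] ℝ).hasFDerivAt.const_mul η)).sub
        (EuclideanSpace.proj (𝕜 := ℝ) i : E n →L[ℝ] ℝ).hasFDerivAt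
    have h2 : HasFDerivAt Γ (ContinuousLinearMap.id ℝ (E n) +
        (fderiv ℝ G₀ x + η • (EuclideanSpace.proj (𝕜 := ℝ) i : E n →L[ℝ] ℝ) -
          (EuclideanSpace.proj (𝕜 := ℝ) i : E n →L[ℝ] ℝ)).smulRight (ei i 1 : E n)) x := by
      have h3 : Γ = fun x => x + (G₀ x + η * x i - x i) • (ei i 1 : E n) := by
        ext1 x
        rw [hΓ]
        simp only
        rw [ei_smul]
      rw [h3]
      exact (hasFDerivAt_id x).add (h1.smul_const _)
    rw [hD]
    simp only
    rw [h2.fderiv, ei_smul i (fderiv ℝ G₀ x v + η * v i - v i)]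
    rfl
  have hDinj : ∀ x, Function.Injective (D x) := by
    intro x
    rw [injective_iff_map_eq_zero]
    intro v hv
    rw [hDapp] at hv
    have hk : ∀ k, k ≠ i → v k = 0 := by
      intro k hk
      have := congrArg (fun w : E n => w k) hv
      simpa [ei, hk] using this
    have hvi : v = v i • (ei i 1 : E n) := by
      ext k
      by_cases h : k = i
      · subst h; simp [ei]
      · simp [ei, h, hk k h]
    have h1 := congrArg (fun w : E n => w i) hv
    have h2 : fderiv ℝ G₀ x v + η * v i = 0 := by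
      have : v i + (fderiv ℝ G₀ x v + η * v i - v i) = 0 := by simpa [ei] using h1
      linarith
    have h3 : fderiv ℝ G₀ x v = v i * fderiv ℝ G₀ x (ei i 1) := by
      conv_lhs => rw [hvi]
      rw [map_smul, smul_eq_mul]
    have h4 : v i * (fderiv ℝ G₀ x (ei i 1) + η) = 0 := by
      rw [h3] at h2; linarith
    have h5 : v i = 0 := by
      rcases mul_eq_zero.1 h4 with h | h
      · exact h
      · exact absurd h (by have := hpos x; linarith)
    rw [hvi, h5, zero_smul]
  have hex : ∀ x, ∃ T : E n ≃L[ℝ] E n, (T : E n →L[ℝ] E n) = D x := by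
    intro x
    refine ⟨(LinearEquiv.ofInjectiveEndo (D x : E n →ₗ[ℝ] E n)
      (hDinj x)).toContinuousLinearEquiv, ?_⟩
    ext1 v
    rfl
  choose T hT using hex
  have hstr : ∀ x, HasStrictFDerivAt Γ (T x : E n →L[ℝ] E n) x := by
    intro x
    rw [hT x]
    exact hΓs.contDiffAt.hasStrictFDerivAt (by norm_num)
  have hopen : IsOpenMap Γ := isOpenMap_of_hasStrictFDerivAt_equiv hstr
  set g : E n ≃ₜ E n := (Equiv.ofBijective Γ ⟨hinj, hsurj⟩).toHomeomorphOfContinuousOpen
    hΓs.continuous hopen with hg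
  have hgΓ : ∀ x, g x = Γ x := fun x => rfl
  refine ⟨g, ⟨hΓs, ?_⟩, fun x => rfl⟩
  exact Homeomorph.contDiff_symm g (f₀' := T) (fun a => (hstr a).hasFDerivAt) hΓs

/-- A homeomorphism changing only coordinate `i`, increasingly, is approximable by smooth
diffeomorphisms. -/
theorem approx_of_mono {n : ℕ} (i : Fin n) (g : E n ≃ₜ E n) (hg : ∀ x j, j ≠ i → g x j = x j)
    (hmono : ∀ (x : E n) (t : ℝ), 0 ≤ t → g x i ≤ g (x + ei i t) i) :
    Approximable (Diffeo n ⊤) g := by
  rw [approx_iff]
  intro R ε hε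
  set F : E n → ℝ := fun x => g x i with hF
  have hFc : Continuous F := (continuous_coord i).comp g.continuous
  have huc := (isCompact_closedBall (0 : E n) (R + 1)).uniformContinuousOn_of_continuous
    hFc.continuousOn
  rw [Metric.uniformContinuousOn_iff] at huc
  obtain ⟨δ, hδ, hu⟩ := huc (ε / 4) (by positivity)
  obtain ⟨G, hG, hGm, hGa⟩ := exists_smooth_mono i F hFc hmono (δ := min δ 1)
    (lt_min hδ one_pos)
  obtain ⟨k, hk, hkx⟩ := exists_diffeo i G hG hGm (η := ε / (4 * (|R| + 1))) (by positivity)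
  refine ⟨k, hk, fun p hp => ?_⟩
  have h1 : dist (G p) (F p) ≤ ε / 4 := by
    refine hGa p (ε / 4) fun x hx => ?_
    have hxd : dist x p < 1 := lt_of_lt_of_le hx (min_le_right _ _)
    have hpR : ‖p‖ ≤ R := mem_closedBall_zero_iff.1 hp
    have hxR : ‖x‖ ≤ R + 1 := by
      calc ‖x‖ = ‖p + (x - p)‖ := by congr 1; abel
        _ ≤ ‖p‖ + ‖x - p‖ := norm_add_le _ _
        _ ≤ R + 1 := by rw [← dist_eq_norm]; linarith
    exact (hu x (mem_closedBall_zero_iff.2 hxR) p (mem_closedBall_zero_iff.2 (by linarith))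
      (lt_of_lt_of_le hx (min_le_left _ _))).le
  have h2 : k p - g p = ei i (G p + ε / (4 * (|R| + 1)) * p i - F p) := by
    ext j
    rw [hkx]
    by_cases hj : j = i
    · subst hj; simp [ei, hF]
    · simp [ei, hj, hg p j hj]
  rw [dist_eq_norm, h2]
  have h3 : ‖(ei i (G p + ε / (4 * (|R| + 1)) * p i - F p) : E n)‖ =
      |G p + ε / (4 * (|R| + 1)) * p i - F p| := by
    rw [ei, PiLp.norm_single, Real.norm_eq_abs]
  rw [h3]
  have h4 : |p i| ≤ |R| := by
    have h5 : ‖p i‖ ≤ ‖p‖ := PiLp.norm_apply_le p i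
    rw [Real.norm_eq_abs] at h5
    exact h5.trans ((mem_closedBall_zero_iff.1 hp).trans (le_abs_self R))
  have h6 : |ε / (4 * (|R| + 1)) * p i| ≤ ε / 4 := by
    rw [abs_mul, abs_of_pos (by positivity : 0 < ε / (4 * (|R| + 1)))]
    calc ε / (4 * (|R| + 1)) * |p i| ≤ ε / (4 * (|R| + 1)) * (|R| + 1) := by
          gcongr; linarith
      _ = ε / 4 := by field_simp
  rw [Real.dist_eq] at h1
  calc |G p + ε / (4 * (|R| + 1)) * p i - F p|
      = |(G p - F p) + ε / (4 * (|R| + 1)) * p i| := by congr 1; ring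
    _ ≤ |G p - F p| + |ε / (4 * (|R| + 1)) * p i| := abs_add_le _ _
    _ < ε := by linarith

/-- Each coordinate line is mapped strictly monotonically, in the same direction everywhere. -/
theorem mono_or_anti {n : ℕ} (i : Fin n) (g : E n ≃ₜ E n) (hg : ∀ x j, j ≠ i → g x j = x j) :
    (∀ (x : E n) (t : ℝ), 0 < t → g x i < g (x + ei i t) i) ∨
    (∀ (x : E n) (t : ℝ), 0 < t → g (x + ei i t) i < g x i) := by
  have hFc : Continuous fun x => g x i := (continuous_coord i).comp g.continuous
  have hinj : ∀ x : E n, Function.Injective fun t : ℝ => g (x + ei i t) i := by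
    intro x s t hst
    have h1 : g (x + ei i s) = g (x + ei i t) := by
      ext j
      by_cases hj : j = i
      · subst hj; exact hst
      · rw [hg _ _ hj, hg _ _ hj]; simp [ei, hj]
    have h2 := g.injective h1
    have h3 := congrArg (fun w : E n => w i) h2
    simpa [ei] using h3
  have hcont : ∀ x : E n, Continuous fun t : ℝ => g (x + ei i t) i := fun x =>
    hFc.comp (continuous_const.add (continuous_ei i))
  have hor : ∀ x : E n, (StrictMono fun t : ℝ => g (x + ei i t) i) ∨
      (StrictAnti fun t : ℝ => g (x + ei i t) i) := fun x =>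
    (hcont x).strictMono_of_inj (hinj x)
  -- the sign of `σ x = g (x + e_i) i - g x i`
  set σ : E n → ℝ := fun x => g (x + ei i 1) i - g x i with hσ
  have hσc : Continuous σ := (hFc.comp (continuous_id.add continuous_const)).sub hFc
  have hσ0 : ∀ x, σ x ≠ 0 := by
    intro x h
    have h1 : g (x + ei i 1) i = g (x + ei i 0) i := by
      have : x + (ei i 0 : E n) = x := by simp [ei]
      rw [this]
      simpa [hσ, sub_eq_zero] using h
    exact one_ne_zero (hinj x h1)
  have hx0 : ∀ x : E n, x + (ei i 0 : E n) = x := fun x => by simp [ei]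
  have hpos : ∀ x, 0 < σ x → ∀ t, 0 < t → g x i < g (x + ei i t) i := by
    intro x hx t ht
    rcases hor x with h | h
    · have := h ht
      simpa only [hx0] using this
    · have := h (zero_lt_one' ℝ)
      simp only [hx0] at this
      simp only [hσ] at hx
      linarith
  have hneg : ∀ x, σ x < 0 → ∀ t, 0 < t → g (x + ei i t) i < g x i := by
    intro x hx t ht
    rcases hor x with h | h
    · have := h (zero_lt_one' ℝ)
      simp only [hx0] at this
      simp only [hσ] at hx
      linarith
    · have := h ht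
      simpa only [hx0] using this
  by_cases hall : ∀ x, 0 < σ x
  · exact Or.inl fun x => hpos x (hall x)
  · right
    push Not at hall
    obtain ⟨a, ha⟩ := hall
    have ha' : σ a < 0 := lt_of_le_of_ne ha (hσ0 a)
    have hneg' : ∀ x, σ x < 0 := by
      intro x
      by_contra hx
      push Not at hx
      obtain ⟨y, hy⟩ := mem_range_of_exists_le_of_exists_ge hσc ⟨a, ha'.le⟩ ⟨x, hx⟩
      exact hσ0 y hy
    exact fun x => hneg x (hneg' x)

/-- reflection in coordinate `i` -/
theorem refl_ne {n : ℕ} (i : Fin n) : ∀ k : Fin n, (if k = i then (-1 : ℝ) else 1) ≠ 0 := by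
  intro k; split_ifs <;> norm_num

noncomputable def reflH {n : ℕ} (i : Fin n) : E n ≃ₜ E n :=
  diagH (fun k => if k = i then -1 else 1) (refl_ne i)

theorem reflH_apply {n : ℕ} (i : Fin n) (x : E n) (k : Fin n) :
    reflH i x k = (if k = i then -1 else 1) * x k := rfl

theorem contDiff_diag {n : ℕ} (d : Fin n → ℝ) : ContDiff ℝ ((⊤ : ℕ∞) : WithTop ℕ∞)
    (fun x : E n => (WithLp.toLp 2 fun i => d i * x i : E n)) := by
  have h1 : ContDiff ℝ ((⊤ : ℕ∞) : WithTop ℕ∞) (fun x : E n => fun i => d i * x i) :=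
    contDiff_pi.2 fun i => contDiff_const.mul (EuclideanSpace.proj (𝕜 := ℝ) i).contDiff
  exact (EuclideanSpace.equiv (Fin n) ℝ).symm.contDiff.comp h1

theorem diag_mem_Diffeo {n : ℕ} (d : Fin n → ℝ) (hd : ∀ i, d i ≠ 0) :
    diagH d hd ∈ Diffeo n ⊤ :=
  ⟨contDiff_diag d, contDiff_diag fun i => (d i)⁻¹⟩

theorem approx_SA {n : ℕ} : ∀ s ∈ SA n, Approximable (Diffeo n ⊤) s := by
  rintro s ⟨i, f, hf, hs⟩
  have hg : ∀ x j, j ≠ i → s x j = x j := fun x => (hs x).2
  rcases mono_or_anti i s hg with h | h
  · refine approx_of_mono i s hg fun x t ht => ?_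
    rcases ht.eq_or_lt with rfl | ht
    · have h0 : x + (ei i 0 : E n) = x := by simp [ei]
      rw [h0]
    · exact (h x t ht).le
  · have h1 : s = (reflH i)⁻¹ * (reflH i * s) := by group
    rw [h1]
    refine approx_mul (approx_of_mem ((Diffeo n ⊤).inv_mem (diag_mem_Diffeo _ _))) ?_
    refine approx_of_mono i _ (fun x j hj => ?_) fun x t ht => ?_
    · rw [Homeomorph.mul_apply, reflH_apply, if_neg hj, one_mul, hg x j hj]
    · rw [Homeomorph.mul_apply, Homeomorph.mul_apply, reflH_apply, reflH_apply, if_pos rfl]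
      rcases ht.eq_or_lt with rfl | ht
      · have h0 : x + (ei i 0 : E n) = x := by simp [ei]
        rw [h0]
      · have := h x t ht
        linarith

end Run7.h858.Coord
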