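import Mathlib
import Pool.Agent.Run7.h858.CoordApprox

set_option autoImplicit false

namespace Run7.h858.Coord

open Metric

theorem approx_inv {n : ℕ} {G : Subgroup (E n ≃ₜ E n)} {h : E n ≃ₜ E n}
    (H : Approximable G h) : Approximable G h⁻¹ := by
  rw [approx_iff] at *
  intro R₀ ε hε
  set R : ℝ := max R₀ 1 with hR
  have hR1 : 1 ≤ R := le_max_right _ _
  -- a large ball containing the preimage
  have hK : IsCompact (h.symm '' closedBall (0 : E n) (R + 1)) :=
    (isCompact_closedBall _ _).image h.symm.continuous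
  obtain ⟨R', hR'⟩ := hK.isBounded.subset_ball (0 : E n)
  have huc := (isCompact_closedBall (0 : E n) (R + 1)).uniformContinuousOn_of_continuous
    h.symm.continuous.continuousOn
  rw [Metric.uniformContinuousOn_iff] at huc
  obtain ⟨δ, hδ, hu⟩ := huc ε hε
  obtain ⟨g, hg, hgp⟩ := H R' (min δ 1) (lt_min hδ one_pos)
  have hsub : closedBall (0 : E n) R ⊆ g '' ball 0 R' := by
    refine (convex_closedBall (0 : E n) R).isPreconnected.subset_of_closure_inter_subset
      (g.isOpenMap _ isOpen_ball) ?_ ?_
    · refine ⟨g (h.symm 0), ?_, ?_⟩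
      · have h1 : h.symm 0 ∈ ball (0 : E n) R' := hR' ⟨0, by simp; linarith, rfl⟩
        have h2 := hgp _ (ball_subset_closedBall h1)
        rw [h.apply_symm_apply] at h2
        rw [mem_closedBall]
        exact (h2.trans_le (min_le_right _ _)).le.trans hR1
      · exact ⟨h.symm 0, hR' ⟨0, by simp; linarith, rfl⟩, rfl⟩
    · rintro y ⟨hy1, hy2⟩
      have h1 : y ∈ g '' closedBall (0 : E n) R' := by
        have hc : IsClosed (g '' closedBall (0 : E n) R') :=
          g.isClosedMap _ isClosed_closedBall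
        exact closure_minimal (Set.image_mono ball_subset_closedBall) hc hy1
      obtain ⟨x, hx, rfl⟩ := h1
      refine ⟨x, ?_, rfl⟩
      have h2 := hgp x hx
      have h3 : h x ∈ closedBall (0 : E n) (R + 1) := by
        rw [mem_closedBall] at hy2 ⊢
        have h4 := dist_triangle_left (h x) 0 (g x)
        have h5 := h2.trans_le (min_le_right _ _)
        linarith
      have h4 := hR' ⟨h x, h3, rfl⟩
      rwa [h.symm_apply_apply] at h4
  refine ⟨g⁻¹, G.inv_mem hg, fun y hy => ?_⟩
  have hyR : y ∈ closedBall (0 : E n) R := closedBall_subset_closedBall (le_max_left _ _) hy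
  obtain ⟨x, hx, rfl⟩ := hsub hyR
  have h2 := hgp x (ball_subset_closedBall hx)
  have h3 : h x ∈ closedBall (0 : E n) (R + 1) := by
    rw [mem_closedBall] at hyR ⊢
    have h4 := dist_triangle_left (h x) 0 (g x)
    have h5 := h2.trans_le (min_le_right _ _)
    linarith
  have h6 : g x ∈ closedBall (0 : E n) (R + 1) :=
    closedBall_subset_closedBall (by linarith) hyR
  have h7 := hu (h x) h3 (g x) h6 (by rw [dist_comm]; exact h2.trans_le (min_le_left _ _))
  rw [h.symm_apply_apply] at h7
  rw [Homeomorph.inv_apply, Homeomorph.inv_apply, g.symm_apply_apply]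
  exact h7

/-- The group of the homeomorphisms approximable by `G`. -/
def clos {n : ℕ} (G : Subgroup (E n ≃ₜ E n)) : Subgroup (E n ≃ₜ E n) where
  carrier := {h | Approximable G h}
  mul_mem' := fun h₁ h₂ => approx_mul h₁ h₂
  one_mem' := approx_of_mem G.one_mem
  inv_mem' := fun h => approx_inv h

theorem mem_clos {n : ℕ} {G : Subgroup (E n ≃ₜ E n)} {h : E n ≃ₜ E n} :
    h ∈ clos G ↔ Approximable G h := Iff.rfl

theorem le_clos {n : ℕ} {G : Subgroup (E n ≃ₜ E n)} : G ≤ clos G :=
  fun _ hg => approx_of_mem hg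

theorem mem_clos_of_approx {n : ℕ} {G : Subgroup (E n ≃ₜ E n)} {h : E n ≃ₜ E n}
    (H : Approximable (clos G) h) : h ∈ clos G :=
  approx_trans (fun _ hg => hg) H

/-- It suffices to find, for every radius, an element of `clos G` which agrees with `h` on the
ball. -/
theorem mem_clos_of_eq {n : ℕ} {G : Subgroup (E n ≃ₜ E n)} {h : E n ≃ₜ E n}
    (H : ∀ R : ℝ, ∃ g ∈ clos G, ∀ p ∈ closedBall (0 : E n) R, g p = h p) : h ∈ clos G := by
  refine mem_clos_of_approx (approx_iff.2 fun R ε hε => ?_)
  obtain ⟨g, hg, hp⟩ := H R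
  exact ⟨g, hg, fun p hpB => by rw [hp p hpB, dist_self]; exact hε⟩

end Run7.h858.Coord
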