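import Mathlib
import Pool.Agent.Run7.h858.CoordClos

set_option autoImplicit false

namespace Run7.h858.Coord

open Metric
open scoped NNReal Topology

/-- The homeomorphisms of `E n` approximable by the group generated by the type A maps. -/
noncomputable abbrev GA (n : ℕ) : Subgroup (E n ≃ₜ E n) := clos (Subgroup.closure (SA n))

theorem conj_eq {n : ℕ} (h H ρ : E n ≃ₜ E n) (S : Set (E n)) (hS : ∀ x, x ∉ S → ρ x = x)
    (hh : ∀ x ∈ S, h x = H x) : h * ρ * h⁻¹ = H * ρ * H⁻¹ := by
  have hρ : ∀ x ∈ S, ρ x ∈ S := by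
    intro x hx
    by_contra hcon
    have h1 := hS _ hcon
    exact hcon (by rw [ρ.injective h1]; exact hx)
  ext1 y
  obtain ⟨x, rfl⟩ := h.surjective y
  rw [Homeomorph.mul_apply, Homeomorph.mul_apply, Homeomorph.mul_apply, Homeomorph.mul_apply,
    Homeomorph.inv_apply, Homeomorph.inv_apply, h.symm_apply_apply]
  by_cases hx : x ∈ S
  · rw [hh x hx, H.symm_apply_apply, hh _ (hρ x hx)]
  · obtain ⟨x', hx'⟩ := H.surjective (h x)
    rw [← hx', H.symm_apply_apply, hS x hx]
    have h1 : x' ∉ S := by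
      intro h2
      have h3 : h x' = h x := by rw [hh x' h2, hx']
      exact hx (h.injective h3 ▸ h2)
    rw [hS x' h1, hx']

/-- conjugation of a group generated by small moves -/
theorem conj_mem {n : ℕ} {G : Subgroup (E n ≃ₜ E n)} {T : Set (E n ≃ₜ E n)} (h : E n ≃ₜ E n)
    (hT : ∀ ρ ∈ T, h * ρ * h⁻¹ ∈ G) {D : E n ≃ₜ E n} (hD : D ∈ Subgroup.closure T) :
    h * D * h⁻¹ ∈ G := by
  have h1 : Subgroup.closure T ≤ G.comap (MulAut.conj h).toMonoidHom := by
    rw [Subgroup.closure_le]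
    intro ρ hρ
    exact hT ρ hρ
  exact h1 hD

/-- A chain of homeomorphisms of the form `id + δ ∑ v_l`. -/
theorem exists_chain {n : ℕ} (M : ℕ) (v : ℕ → E n → E n) (K : ℝ≥0)
    (hv : ∀ l, LipschitzWith K (v l)) :
    ∃ δ : ℝ, 0 < δ ∧ δ * (M * K) < 1 ∧ ∃ g : ℕ → E n ≃ₜ E n, g 0 = 1 ∧ ∀ m ≤ M,
      g m ∈ Subgroup.closure (SA n) ∧ ∀ x, g m x = x + δ • ∑ l ∈ Finset.range m, v l x := by
  obtain ⟨δ, hδ, hδM⟩ : ∃ δ : ℝ≥0, 0 < δ ∧ δ * (M * K) < 1 := by
    refine ⟨(2 * (M * K + 1))⁻¹, by positivity, ?_⟩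
    rw [inv_mul_lt_iff₀ (by positivity), mul_one]
    calc (M : ℝ≥0) * K < M * K + 1 := lt_add_one _
      _ ≤ 2 * (M * K + 1) := le_mul_of_one_le_left (by positivity) (by norm_num)
  have hlip : ∀ m : ℕ, LipschitzWith (m * K) fun x => ∑ l ∈ Finset.range m, v l x := by
    intro m
    induction m with
    | zero => simpa using LipschitzWith.const (0 : E n)
    | succ m ih =>
      have h1 : (fun x => ∑ l ∈ Finset.range (m + 1), v l x) =
          fun x => (∑ l ∈ Finset.range m, v l x) + v m x := by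
        ext1 x
        rw [Finset.sum_range_succ]
      rw [h1]
      have h2 := ih.add (hv m)
      have h3 : ((m + 1 : ℕ) : ℝ≥0) * K = m * K + K := by push_cast; ring
      rw [h3]
      exact h2
  have hex : ∀ m, m ≤ M → ∃ g ∈ Subgroup.closure (SA n),
      ∀ x, g x = x + (δ : ℝ) • ∑ l ∈ Finset.range m, v l x := by
    intro m hm
    have h1 : LipschitzWith (δ * (m * K))
        fun x => (δ : ℝ) • ∑ l ∈ Finset.range m, v l x := by
      refine LipschitzWith.of_dist_le_mul fun x y => ?_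
      have h2 := (hlip m).dist_le_mul x y
      rw [dist_smul₀, Real.norm_eq_abs, abs_of_pos (by exact_mod_cast hδ)]
      push_cast at h2 ⊢
      rw [mul_assoc]
      exact mul_le_mul_of_nonneg_left h2 (by positivity)
    refine mem_of_lipschitz h1 (lt_of_le_of_lt ?_ hδM)
    gcongr
  choose! g hg using hex
  refine ⟨δ, by exact_mod_cast hδ, by exact_mod_cast hδM, g, ?_, fun m hm => hg m hm⟩
  ext1 x
  rw [(hg 0 (Nat.zero_le _)).2 x]
  simp

theorem chain_mem {n : ℕ} {M : ℕ} {T : Set (E n ≃ₜ E n)} {g : ℕ → E n ≃ₜ E n} (h0 : g 0 = 1)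
    (h : ∀ m, m < M → (g m)⁻¹ * g (m + 1) ∈ T) : ∀ m ≤ M, g m ∈ Subgroup.closure T := by
  intro m
  induction m with
  | zero =>
    intro _
    rw [h0]
    exact Subgroup.one_mem _
  | succ m ih =>
    intro hm
    have h1 : g (m + 1) = g m * ((g m)⁻¹ * g (m + 1)) := by group
    rw [h1]
    exact Subgroup.mul_mem _ (ih (by omega)) (Subgroup.subset_closure (h m (by omega)))

/-- Fragmentation of a contraction: a ball can be contracted into a small ball by a finite
composition of elements of `GA n` with small supports. -/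
theorem exists_contraction {n : ℕ} {R r lam : ℝ} (hR : 0 ≤ R) (hr : 0 < r) (hlam : 0 < lam) :
    ∃ D ∈ Subgroup.closure {ρ : E n ≃ₜ E n | ρ ∈ GA n ∧ ∃ c ∈ closedBall (0 : E n) R,
      ∀ x, x ∉ closedBall c lam → ρ x = x}, ∀ x ∈ closedBall (0 : E n) R, D x ∈ ball (0 : E n) r := by
  set T : Set (E n ≃ₜ E n) := {ρ : E n ≃ₜ E n | ρ ∈ GA n ∧ ∃ c ∈ closedBall (0 : E n) R,
      ∀ x, x ∉ closedBall c lam → ρ x = x} with hT
  -- a finite net
  obtain ⟨t, ht, hcov⟩ := (isCompact_closedBall (0 : E n) R).elim_nhds_subcover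
    (fun c => ball c (lam / 2)) fun c _ => ball_mem_nhds c (by positivity)
  obtain ⟨c, M, hc, hcov'⟩ : ∃ (c : ℕ → E n) (M : ℕ), (∀ l, c l ∈ closedBall (0 : E n) R) ∧
      ∀ x ∈ closedBall (0 : E n) R, ∃ l < M, x ∈ ball (c l) (lam / 2) := by
    have e := t.equivFin
    refine ⟨fun l => if h : l < t.card then (e.symm ⟨l, h⟩ : E n) else 0, t.card, fun l => ?_,
      fun x hx => ?_⟩
    · show (if h : l < t.card then (e.symm ⟨l, h⟩ : E n) else 0) ∈ closedBall (0 : E n) R
      split_ifs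
      · exact ht _ (Subtype.prop _)
      · simpa using hR
    · obtain ⟨y, hy, hxy⟩ := Set.mem_iUnion₂.1 (hcov hx)
      refine ⟨e ⟨y, hy⟩, (e ⟨y, hy⟩).2, ?_⟩
      simpa using hxy
  set w : ℕ → E n → ℝ := fun l x => max 0 (lam - dist x (c l)) with hw
  have hw0 : ∀ l x, 0 ≤ w l x := fun l x => le_max_left _ _
  have hwlam : ∀ l x, w l x ≤ lam := fun l x => max_le hlam.le (by linarith [dist_nonneg (x := x) (y := c l)])
  have hwl : ∀ l x y, |w l x - w l y| ≤ dist x y := by
    intro l x y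
    have h1 := abs_max_sub_max_le_abs (lam - dist x (c l)) (lam - dist y (c l)) 0
    simp only [hw]
    rw [max_comm 0, max_comm 0]
    refine h1.trans ?_
    rw [sub_sub_sub_cancel_left, abs_sub_comm]
    exact abs_dist_sub_le _ _ _
  have hwoff : ∀ l x, x ∉ closedBall (c l) lam → w l x = 0 := by
    intro l x hx
    rw [mem_closedBall, not_le] at hx
    exact max_eq_left (by linarith)
  set K : ℝ≥0 := ⟨R + 2 * lam, by positivity⟩ with hK
  have hvx : ∀ l x y, x ∈ closedBall (c l) lam →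
      dist (-(w l x • x)) (-(w l y • y)) ≤ (R + 2 * lam) * dist x y := by
    intro l x y hx
    rw [dist_neg_neg, dist_eq_norm]
    have h1 : w l x • x - w l y • y = (w l x - w l y) • x + w l y • (x - y) := by
      rw [sub_smul, smul_sub]
      abel
    rw [h1]
    have h2 : ‖x‖ ≤ R + lam := by
      have h3 : dist x 0 ≤ dist x (c l) + dist (c l) 0 := dist_triangle _ _ _
      rw [dist_zero_right] at h3
      have h4 := mem_closedBall.1 (hc l)
      have h5 := mem_closedBall.1 hx
      linarith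
    calc ‖(w l x - w l y) • x + w l y • (x - y)‖
        ≤ ‖(w l x - w l y) • x‖ + ‖w l y • (x - y)‖ := norm_add_le _ _
      _ = |w l x - w l y| * ‖x‖ + w l y * dist x y := by
          rw [norm_smul, norm_smul, Real.norm_eq_abs, Real.norm_eq_abs, abs_of_nonneg (hw0 l y),
            dist_eq_norm]
      _ ≤ dist x y * (R + lam) + lam * dist x y := by
          refine add_le_add (mul_le_mul (hwl l x y) h2 (norm_nonneg _) dist_nonneg)
            (mul_le_mul_of_nonneg_right (hwlam l y) dist_nonneg)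
      _ = (R + 2 * lam) * dist x y := by ring
  have hv : ∀ l, LipschitzWith K fun x => -(w l x • x) := by
    intro l
    refine LipschitzWith.of_dist_le_mul fun x y => ?_
    show _ ≤ (R + 2 * lam) * dist x y
    by_cases hx : x ∈ closedBall (c l) lam
    · exact hvx l x y hx
    · by_cases hy : y ∈ closedBall (c l) lam
      · rw [dist_comm, dist_comm x y]
        exact hvx l y x hy
      · rw [hwoff l x hx, hwoff l y hy]
        simp only [zero_smul, dist_self]
        positivity
  obtain ⟨δ, hδ, hδM, g, hg0, hg⟩ := exists_chain M (fun l x => -(w l x • x)) K hv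
  have hKval : (K : ℝ) = R + 2 * lam := rfl
  rw [hKval] at hδM
  -- the total weight
  set W : E n → ℝ := fun x => ∑ l ∈ Finset.range M, w l x with hW
  have hgM : ∀ x, g M x = (1 - δ * W x) • x := by
    intro x
    rw [(hg M le_rfl).2 x, Finset.sum_neg_distrib, ← Finset.sum_smul, smul_neg, smul_smul, sub_smul,
      one_smul]
    abel
  have hWle : ∀ x, W x ≤ M * lam := by
    intro x
    have h1 := Finset.sum_le_card_nsmul (Finset.range M) (fun l => w l x) lam fun l _ => hwlam l x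
    simpa using h1
  have hWge : ∀ x ∈ closedBall (0 : E n) R, lam / 2 ≤ W x := by
    intro x hx
    obtain ⟨l, hl, hxl⟩ := hcov' x hx
    have h1 : lam / 2 ≤ w l x := by
      rw [mem_ball] at hxl
      exact le_trans (by linarith) (le_max_right _ _)
    exact h1.trans (Finset.single_le_sum (f := fun l => w l x) (fun l _ => hw0 l x)
      (Finset.mem_range.2 hl))
  have hδW : ∀ x, δ * W x < 1 / 2 := by
    intro x
    have h1 : δ * W x ≤ δ * (M * lam) := mul_le_mul_of_nonneg_left (hWle x) hδ.le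
    have h2 : δ * (M * lam) * 2 ≤ δ * (M * (R + 2 * lam)) := by
      have h3 : 0 ≤ δ * M * R := by positivity
      nlinarith
    linarith
  set q : ℝ := 1 - δ * (lam / 2) with hq
  have hq0 : 0 ≤ q := by
    have h1 := hWge 0 (by simpa using hR)
    have h2 := hδW 0
    have h3 := mul_le_mul_of_nonneg_left h1 hδ.le
    linarith
  have hq1 : q < 1 := by
    have : 0 < δ * (lam / 2) := by positivity
    linarith
  have hstep : ∀ x ∈ closedBall (0 : E n) R, ‖g M x‖ ≤ q * ‖x‖ := by
    intro x hx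
    rw [hgM, norm_smul, Real.norm_eq_abs, abs_of_pos (by linarith [hδW x])]
    refine mul_le_mul_of_nonneg_right ?_ (norm_nonneg _)
    have := mul_le_mul_of_nonneg_left (hWge x hx) hδ.le
    linarith
  have hiter : ∀ k : ℕ, ∀ x ∈ closedBall (0 : E n) R, ‖((g M) ^ k : E n ≃ₜ E n) x‖ ≤ q ^ k * R := by
    intro k
    induction k with
    | zero =>
      intro x hx
      simpa using hx
    | succ k ih =>
      intro x hx
      rw [pow_succ', Homeomorph.mul_apply]
      have h1 := ih x hx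
      have h2 : ((g M) ^ k : E n ≃ₜ E n) x ∈ closedBall (0 : E n) R := by
        rw [mem_closedBall_zero_iff]
        exact h1.trans (mul_le_of_le_one_left hR (pow_le_one₀ hq0 hq1.le))
      calc _ ≤ q * ‖((g M) ^ k : E n ≃ₜ E n) x‖ := hstep _ h2
        _ ≤ q * (q ^ k * R) := mul_le_mul_of_nonneg_left h1 hq0
        _ = q ^ (k + 1) * R := by ring
  obtain ⟨k, hk⟩ : ∃ k : ℕ, q ^ k * R < r := by
    obtain ⟨k, hk⟩ := exists_pow_lt_of_lt_one (show 0 < r / (R + 1) by positivity) hq1
    refine ⟨k, ?_⟩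
    rw [lt_div_iff₀ (by positivity)] at hk
    have : 0 ≤ q ^ k := pow_nonneg hq0 k
    nlinarith
  refine ⟨(g M) ^ k, Subgroup.pow_mem _ (chain_mem hg0 (fun m hm => ?_) M le_rfl) k,
    fun x hx => ?_⟩
  · refine ⟨Subgroup.mul_mem _ (Subgroup.inv_mem _ (le_clos (hg m hm.le).1))
      (le_clos (hg (m + 1) hm).1), c m, hc m, fun x hx => ?_⟩
    have h1 : g (m + 1) x = g m x := by
      rw [(hg (m + 1) hm).2, (hg m hm.le).2, Finset.sum_range_succ, hwoff m x hx, zero_smul,
        neg_zero, add_zero]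
    rw [Homeomorph.mul_apply, h1, Homeomorph.inv_apply, Homeomorph.symm_apply_apply]
  · rw [mem_ball_zero_iff]
    exact (hiter k x hx).trans_lt hk

theorem closure_le_GA {n : ℕ} {T : Set (E n ≃ₜ E n)} (hT : ∀ ρ ∈ T, ρ ∈ GA n) :
    Subgroup.closure T ≤ GA n := (Subgroup.closure_le _).2 hT

/-- **Local-to-global principle.** A homeomorphism that agrees near each point with a
homeomorphism approximable by type A maps is itself approximable by type A maps. -/
theorem local_to_global {n : ℕ} (h : E n ≃ₜ E n)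
    (hloc : ∀ p, ∃ H ∈ GA n, ∀ᶠ x in 𝓝 p, h x = H x) : h ∈ GA n := by
  refine mem_clos_of_eq fun R₀ => ?_
  set R : ℝ := max R₀ 0 with hRdef
  have hR : 0 ≤ R := le_max_right _ _
  choose H hH hloc using hloc
  have hU : ∀ p, ∃ r > 0, ∀ x ∈ ball p r, h x = H p x := fun p =>
    Metric.eventually_nhds_iff_ball.1 (hloc p)
  choose r hr hU using hU
  obtain ⟨lam, hlam, hleb⟩ := lebesgue_number_lemma_of_metric (isCompact_closedBall (0 : E n) R)
    (c := fun p : E n => ball p (r p)) (fun p => isOpen_ball)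
    (fun x _ => Set.mem_iUnion.2 ⟨x, mem_ball_self (hr x)⟩)
  obtain ⟨D, hD, hDx⟩ := exists_contraction hR (hr 0) (half_pos hlam)
  have hDA : D ∈ GA n := closure_le_GA (fun ρ hρ => hρ.1) hD
  have hconj : h * D * h⁻¹ ∈ GA n := by
    refine conj_mem h (fun ρ hρ => ?_) hD
    obtain ⟨hρA, c, hc, hsupp⟩ := hρ
    obtain ⟨p, hp⟩ := hleb c hc
    rw [conj_eq h (H p) ρ (closedBall c (lam / 2)) hsupp fun x hx =>
      hU p x (hp (closedBall_subset_ball (half_lt_self hlam) hx))]
    exact Subgroup.mul_mem _ (Subgroup.mul_mem _ (hH p) hρA) (Subgroup.inv_mem _ (hH p))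
  refine ⟨(h * D * h⁻¹)⁻¹ * (H 0 * D), Subgroup.mul_mem _ (Subgroup.inv_mem _ hconj)
    (Subgroup.mul_mem _ (hH 0) hDA), fun x hx => ?_⟩
  have hxR : x ∈ closedBall (0 : E n) R := closedBall_subset_closedBall (le_max_left _ _) hx
  have h1 := hU 0 _ (hDx x hxR)
  have h2 : (h * D * h⁻¹)⁻¹ * (H 0 * D) = h * D⁻¹ * h⁻¹ * (H 0 * D) := by group
  rw [h2, Homeomorph.mul_apply, Homeomorph.mul_apply, Homeomorph.mul_apply, Homeomorph.mul_apply,
    ← h1, Homeomorph.inv_apply, Homeomorph.inv_apply, h.symm_apply_apply, D.symm_apply_apply]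

end Run7.h858.Coord
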