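import Mathlib
import Pool.Agent.Run7.h858.CoordDefs

/-!
Piecewise linear homeomorphisms of Euclidean space.
-/

set_option autoImplicit false

namespace Run7.h858.Coord

/-- `f` is piecewise linear: every bounded set is covered by finitely many polytopes (convex hulls
of finite sets, for instance simplices) on each of which `f` agrees with an affine map. -/
def IsPL {n : ℕ} (f : E n → E n) : Prop :=
  ∀ B : Set (E n), Bornology.IsBounded B → ∃ P : Finset (Finset (E n)),
    (∀ x ∈ B, ∃ s ∈ P, x ∈ convexHull ℝ (s : Set (E n))) ∧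
    ∀ s ∈ P, ∃ A : E n →ᵃ[ℝ] E n, ∀ x ∈ convexHull ℝ (s : Set (E n)), f x = A x

/-- `h` can be approximated, uniformly on bounded sets, by piecewise linear homeomorphisms. -/
def PLApproximable {n : ℕ} (h : E n ≃ₜ E n) : Prop :=
  ∀ B : Set (E n), Bornology.IsBounded B → ∀ ε : ℝ, 0 < ε →
    ∃ g : E n ≃ₜ E n, IsPL g ∧ ∃ δ < ε, ∀ p ∈ B, dist (g p) (h p) ≤ δ

end Run7.h858.Coord
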