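import Mathlib
import Pool.Agent.Run7.h858.CoordLG

set_option autoImplicit false

namespace Run7.h858.Coord

open Metric
open scoped NNReal Topology

/-- positively homogeneous homeomorphisms -/
def Hom {n : ℕ} (h : E n ≃ₜ E n) : Prop := ∀ t : ℝ, 0 < t → ∀ x, h (t • x) = t • h x

theorem Hom.mul {n : ℕ} {g h : E n ≃ₜ E n} (hg : Hom g) (hh : Hom h) : Hom (g * h) := by
  intro t ht x
  rw [Homeomorph.mul_apply, Homeomorph.mul_apply, hh t ht, hg t ht]

theorem Hom.inv {n : ℕ} {g : E n ≃ₜ E n} (hg : Hom g) : Hom g⁻¹ := by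
  intro t ht x
  obtain ⟨y, rfl⟩ := g.surjective x
  rw [Homeomorph.inv_apply, Homeomorph.inv_apply, ← hg t ht, g.symm_apply_apply,
    g.symm_apply_apply]

theorem Hom.one {n : ℕ} : Hom (1 : E n ≃ₜ E n) := fun _ _ _ => rfl

theorem Hom.zero {n : ℕ} {g : E n ≃ₜ E n} (hg : Hom g) : g 0 = 0 := by
  have h := hg 2 two_pos 0
  rw [smul_zero, two_smul] at h
  exact left_eq_add.1 h

theorem Hom.ne_zero {n : ℕ} {g : E n ≃ₜ E n} (hg : Hom g) {x : E n} (hx : x ≠ 0) : g x ≠ 0 := by
  intro h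
  rw [← hg.zero] at h
  exact hx (g.injective h)

/-- the direction of a vector -/
noncomputable def dir {n : ℕ} (x : E n) : E n := ‖x‖⁻¹ • x

theorem norm_dir {n : ℕ} {x : E n} (hx : x ≠ 0) : ‖dir x‖ = 1 := by
  rw [dir, norm_smul, norm_inv, norm_norm, inv_mul_cancel₀ (norm_ne_zero_iff.2 hx)]

theorem norm_dir_le {n : ℕ} (x : E n) : ‖dir x‖ ≤ 1 := by
  by_cases hx : x = 0
  · simp [dir, hx]
  · exact (norm_dir hx).le

theorem norm_smul_dir {n : ℕ} (x : E n) : ‖x‖ • dir x = x := by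
  by_cases hx : x = 0
  · simp [hx]
  · rw [dir, smul_smul, mul_inv_cancel₀ (norm_ne_zero_iff.2 hx), one_smul]

theorem dir_smul {n : ℕ} {t : ℝ} (ht : 0 < t) (x : E n) : dir (t • x) = dir x := by
  rw [dir, dir, norm_smul, Real.norm_eq_abs, abs_of_pos ht, mul_inv, smul_smul]
  congr 1
  field_simp

theorem dir_of_norm {n : ℕ} {x : E n} (hx : ‖x‖ = 1) : dir x = x := by
  rw [dir, hx, inv_one, one_smul]

theorem Hom.apply_dir {n : ℕ} {g : E n ≃ₜ E n} (hg : Hom g) (x : E n) :
    g x = ‖x‖ • g (dir x) := by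
  by_cases hx : x = 0
  · rw [hx, hg.zero, norm_zero, zero_smul]
  · rw [← hg _ (norm_pos_iff.2 hx), norm_smul_dir]

/-- Homogeneous Lipschitz maps. -/
theorem lipschitz_hom {n : ℕ} {U : E n → E n} {B L : ℝ≥0} (hB : ∀ x, ‖x‖ = 1 → ‖U x‖ ≤ B)
    (hL : ∀ x y, ‖x‖ = 1 → ‖y‖ = 1 → dist (U x) (U y) ≤ L * dist x y) :
    LipschitzWith (B + 2 * L) fun x => ‖x‖ • U (dir x) := by
  refine LipschitzWith.of_dist_le_mul fun x y => ?_
  have hzero : ∀ y : E n, dist ((0 : E n)) (‖y‖ • U (dir y)) ≤ (B + 2 * L) * dist 0 y := by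
    intro y
    by_cases hy : y = 0
    · simp [hy]
    · rw [dist_zero_left, dist_zero_left, norm_smul, norm_norm, mul_comm]
      refine mul_le_mul_of_nonneg_right ((hB _ (norm_dir hy)).trans ?_) (norm_nonneg _)
      have : (0 : ℝ) ≤ L := L.coe_nonneg
      linarith
  push_cast
  by_cases hx : x = 0
  · simp only [hx, norm_zero, zero_smul]
    exact hzero y
  by_cases hy : y = 0
  · simp only [hy, norm_zero, zero_smul]
    rw [dist_comm, dist_comm x 0]
    exact hzero x
  have h1 : ‖x‖ • U (dir x) - ‖y‖ • U (dir y) =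
      (‖x‖ - ‖y‖) • U (dir x) + ‖y‖ • (U (dir x) - U (dir y)) := by
    rw [sub_smul, smul_sub]
    abel
  have h2 : ‖y‖ * dist (dir x) (dir y) ≤ 2 * dist x y := by
    have h3 : ‖y‖ • (dir x - dir y) = (‖y‖ - ‖x‖) • dir x + (x - y) := by
      rw [smul_sub, norm_smul_dir, sub_smul, norm_smul_dir]
      abel
    have h4 : ‖y‖ * dist (dir x) (dir y) = ‖‖y‖ • (dir x - dir y)‖ := by
      rw [norm_smul, norm_norm, dist_eq_norm]
    rw [h4, h3]
    calc ‖(‖y‖ - ‖x‖) • dir x + (x - y)‖ ≤ ‖(‖y‖ - ‖x‖) • dir x‖ + ‖x - y‖ := norm_add_le _ _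
      _ = |‖y‖ - ‖x‖| + ‖x - y‖ := by
          rw [norm_smul, norm_dir hx, mul_one, Real.norm_eq_abs]
      _ ≤ ‖x - y‖ + ‖x - y‖ := by
          rw [abs_sub_comm]
          exact add_le_add_left (abs_norm_sub_norm_le x y) _
      _ = 2 * dist x y := by rw [dist_eq_norm]; ring
  rw [dist_eq_norm, h1]
  calc ‖(‖x‖ - ‖y‖) • U (dir x) + ‖y‖ • (U (dir x) - U (dir y))‖
      ≤ ‖(‖x‖ - ‖y‖) • U (dir x)‖ + ‖‖y‖ • (U (dir x) - U (dir y))‖ := norm_add_le _ _
    _ = |‖x‖ - ‖y‖| * ‖U (dir x)‖ + ‖y‖ * dist (U (dir x)) (U (dir y)) := by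
        rw [norm_smul, norm_smul, norm_norm, Real.norm_eq_abs, ← dist_eq_norm (U (dir x))]
    _ ≤ dist x y * B + ‖y‖ * (L * dist (dir x) (dir y)) := by
        refine add_le_add (mul_le_mul ?_ (hB _ (norm_dir hx)) (norm_nonneg _) dist_nonneg)
          (mul_le_mul_of_nonneg_left (hL _ _ (norm_dir hx) (norm_dir hy)) (norm_nonneg _))
        rw [dist_eq_norm]
        exact abs_norm_sub_norm_le x y
    _ = dist x y * B + L * (‖y‖ * dist (dir x) (dir y)) := by ring
    _ ≤ dist x y * B + L * (2 * dist x y) := by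
        have := mul_le_mul_of_nonneg_left h2 L.coe_nonneg
        linarith
    _ = (B + 2 * L) * dist x y := by ring

/-- the small moves along the sphere -/
def Tset (n : ℕ) (lam : ℝ) : Set (E n ≃ₜ E n) :=
  {ρ | ρ ∈ GA n ∧ Hom ρ ∧ ∃ c : E n, ‖c‖ = 1 ∧ ∀ x, x ≠ 0 → lam < dist (dir x) c → ρ x = x}

theorem exists_cone_contraction {n : ℕ} {e : E n} (he : ‖e‖ = 1) {η r lam : ℝ} (hη : 0 < η)
    (hr : 0 < r) (hlam : 0 < lam) : ∃ D ∈ Subgroup.closure (Tset n lam),
    ∀ x : E n, ‖x‖ = 1 → η ≤ dist x (-e) → D x ≠ 0 ∧ dist (dir (D x)) e < r := by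
  -- a finite net
  obtain ⟨t, ht, hcov⟩ := (isCompact_sphere (0 : E n) 1).elim_nhds_subcover
    (fun c => ball c (lam / 2)) fun c _ => ball_mem_nhds c (by positivity)
  obtain ⟨c, M, hc, hcov'⟩ : ∃ (c : ℕ → E n) (M : ℕ), (∀ l, ‖c l‖ = 1) ∧
      ∀ x : E n, ‖x‖ = 1 → ∃ l < M, x ∈ ball (c l) (lam / 2) := by
    have eq := t.equivFin
    refine ⟨fun l => if h : l < t.card then (eq.symm ⟨l, h⟩ : E n) else e, t.card, fun l => ?_,
      fun x hx => ?_⟩
    · show ‖(if h : l < t.card then (eq.symm ⟨l, h⟩ : E n) else e)‖ = 1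
      split_ifs
      · exact mem_sphere_zero_iff_norm.1 (ht _ (Subtype.prop _))
      · exact he
    · obtain ⟨y, hy, hxy⟩ := Set.mem_iUnion₂.1 (hcov (mem_sphere_zero_iff_norm.2 hx))
      refine ⟨eq ⟨y, hy⟩, (eq ⟨y, hy⟩).2, ?_⟩
      simpa using hxy
  set w : ℕ → E n → ℝ := fun l x => max 0 (lam - dist x (c l)) with hw
  have hw0 : ∀ l x, 0 ≤ w l x := fun l x => le_max_left _ _
  have hwlam : ∀ l x, w l x ≤ lam := fun l x =>
    max_le hlam.le (by linarith [dist_nonneg (x := x) (y := c l)])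
  have hwl : ∀ l x y, |w l x - w l y| ≤ dist x y := by
    intro l x y
    have h1 := abs_max_sub_max_le_abs (lam - dist x (c l)) (lam - dist y (c l)) 0
    simp only [hw]
    rw [max_comm 0, max_comm 0]
    refine h1.trans ?_
    rw [sub_sub_sub_cancel_left, abs_sub_comm]
    exact abs_dist_sub_le _ _ _
  have hwoff : ∀ l x, lam < dist x (c l) → w l x = 0 := by
    intro l x hx
    exact max_eq_left (by linarith)
  obtain ⟨Lam, hLam⟩ : ∃ Lam : ℝ≥0, (Lam : ℝ) = lam := ⟨⟨lam, hlam.le⟩, rfl⟩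
  obtain ⟨δ, hδ, -, g, hg0, hg⟩ := exists_chain M (fun l x => ‖x‖ • (w l (dir x) • e))
    (Lam + 2 * 1) fun l => by
      refine lipschitz_hom (U := fun x => w l x • e) (fun x _ => ?_) fun x y _ _ => ?_
      · rw [norm_smul, he, mul_one, Real.norm_eq_abs, abs_of_nonneg (hw0 l x), hLam]
        exact hwlam l x
      · rw [dist_eq_norm, ← sub_smul, norm_smul, he, mul_one, Real.norm_eq_abs]
        simpa using hwl l x y
  set W : E n → ℝ := fun x => ∑ l ∈ Finset.range M, w l x with hW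
  have hW0 : ∀ x, 0 ≤ W x := fun x => Finset.sum_nonneg fun l _ => hw0 l x
  have hWge : ∀ x : E n, ‖x‖ = 1 → lam / 2 ≤ W x := by
    intro x hx
    obtain ⟨l, hl, hxl⟩ := hcov' x hx
    have h1 : lam / 2 ≤ w l x := by
      rw [mem_ball] at hxl
      exact le_trans (by linarith) (le_max_right _ _)
    exact h1.trans (Finset.single_le_sum (f := fun l => w l x) (fun l _ => hw0 l x)
      (Finset.mem_range.2 hl))
  have hgM : ∀ x, g M x = x + (δ * (‖x‖ * W (dir x))) • e := by
    intro x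
    rw [(hg M le_rfl).2 x, ← Finset.smul_sum, ← Finset.sum_smul, smul_smul, smul_smul, mul_assoc]
  have hhom : ∀ m ≤ M, Hom (g m) := by
    intro m hm t ht x
    rw [(hg m hm).2, (hg m hm).2, dir_smul ht, norm_smul, Real.norm_eq_abs, abs_of_pos ht, smul_add,
      Finset.smul_sum, Finset.smul_sum, Finset.smul_sum]
    congr 1
    refine Finset.sum_congr rfl fun l _ => ?_
    simp only [smul_smul]
    congr 1
    ring
  have hiter : ∀ (k : ℕ) (x : E n), ‖x‖ = 1 → η ≤ dist x (-e) →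
      ∃ a : ℝ, 0 ≤ a ∧ k * (δ * (η / 2 * (lam / 2))) ≤ a ∧
      ((g M) ^ k : E n ≃ₜ E n) x = x + a • e := by
    intro k x hx hxe
    induction k with
    | zero => exact ⟨0, le_rfl, by simp, by simp⟩
    | succ k ih =>
      obtain ⟨a, ha, hka, hxa⟩ := ih
      have hlow : η / 2 ≤ ‖x + a • e‖ := by
        by_contra hcon
        push Not at hcon
        have h1 : |a - 1| ≤ ‖x + a • e‖ := by
          have h2 := abs_norm_sub_norm_le (a • e) (-x)
          rw [norm_neg, norm_smul, he, hx, mul_one, Real.norm_eq_abs, abs_of_nonneg ha,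
            sub_neg_eq_add, add_comm (a • e) x] at h2
          exact h2
        have h3 : dist x (-e) ≤ ‖x + a • e‖ + |a - 1| := by
          rw [dist_eq_norm]
          have h4 : x - -e = (x + a • e) + (-(a - 1)) • e := by
            rw [neg_smul, sub_smul, one_smul]
            abel
          rw [h4]
          refine (norm_add_le _ _).trans ?_
          rw [norm_smul (-(a - 1)), he, mul_one, Real.norm_eq_abs, abs_neg]
        linarith
      have hne : x + a • e ≠ 0 := by
        intro h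
        rw [h, norm_zero] at hlow
        linarith
      have hinc : δ * (η / 2 * (lam / 2)) ≤ δ * (‖x + a • e‖ * W (dir (x + a • e))) := by
        refine mul_le_mul_of_nonneg_left ?_ hδ.le
        exact mul_le_mul hlow (hWge _ (norm_dir hne)) (by positivity) (norm_nonneg _)
      refine ⟨a + δ * (‖x + a • e‖ * W (dir (x + a • e))), ?_, ?_, ?_⟩
      · have h5 : 0 ≤ δ * (η / 2 * (lam / 2)) := by positivity
        linarith
      · push_cast
        linarith
      · rw [pow_succ', Homeomorph.mul_apply, hxa, hgM, add_smul]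
        abel
  obtain ⟨k, hk⟩ := exists_nat_gt ((2 / r + 1) / (δ * (η / 2 * (lam / 2))))
  have hpos : 0 < δ * (η / 2 * (lam / 2)) := by positivity
  rw [div_lt_iff₀ hpos] at hk
  refine ⟨(g M) ^ k, Subgroup.pow_mem _ (chain_mem hg0 (fun m hm => ?_) M le_rfl) k,
    fun x hx hxe => ?_⟩
  · refine ⟨Subgroup.mul_mem _ (Subgroup.inv_mem _ (le_clos (hg m hm.le).1))
      (le_clos (hg (m + 1) hm).1), (hhom m hm.le).inv.mul (hhom (m + 1) hm), c m, hc m,
      fun x _ hx => ?_⟩
    have h1 : g (m + 1) x = g m x := by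
      rw [(hg (m + 1) hm).2, (hg m hm.le).2, Finset.sum_range_succ, hwoff m _ hx, zero_smul,
        smul_zero, add_zero]
    rw [Homeomorph.mul_apply, h1, Homeomorph.inv_apply, Homeomorph.symm_apply_apply]
  · obtain ⟨a, -, hka, hxa⟩ := hiter k x hx hxe
    have ha : 2 / r + 1 < a := hk.trans_le hka
    have ha1 : 1 < a := by
      have : 0 < 2 / r := by positivity
      linarith
    rw [hxa]
    have hne : x + a • e ≠ 0 := by
      intro h
      have h2 : x = -(a • e) := eq_neg_of_add_eq_zero_left h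
      have h3 : ‖x‖ = a := by rw [h2, norm_neg, norm_smul, he, mul_one, Real.norm_eq_abs,
        abs_of_pos (by linarith)]
      linarith
    refine ⟨hne, ?_⟩
    set y := x + a • e with hy
    have h4 : a • (dir y - e) = (a - ‖y‖) • dir y + x := by
      rw [smul_sub, sub_smul, norm_smul_dir, hy]
      abel
    have h5 : a * dist (dir y) e ≤ 2 := by
      have h6 : a * dist (dir y) e = ‖a • (dir y - e)‖ := by
        rw [norm_smul, Real.norm_eq_abs, abs_of_pos (by linarith), dist_eq_norm]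
      rw [h6, h4]
      refine (norm_add_le _ _).trans ?_
      rw [norm_smul, norm_dir hne, mul_one, Real.norm_eq_abs, hx]
      have h7 : |a - ‖y‖| ≤ 1 := by
        have h8 := abs_norm_sub_norm_le (a • e) y
        rw [norm_smul, he, mul_one, Real.norm_eq_abs, abs_of_pos (show 0 < a by linarith)] at h8
        refine h8.trans ?_
        have h9 : a • e - y = -x := by rw [hy]; abel
        rw [h9, norm_neg, hx]
      linarith
    have h10 : 2 < r * a := by
      have h11 : 2 / r < a := by linarith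
      rw [div_lt_iff₀ hr] at h11
      linarith
    by_contra hcon
    push Not at hcon
    have : r * a ≤ a * dist (dir y) e := by
      rw [mul_comm]
      exact mul_le_mul_of_nonneg_left hcon (by linarith)
    linarith

end Run7.h858.Coord
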