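import Mathlib
import Pool.Agent.Run7.h858.CoordHom

set_option autoImplicit false

namespace Run7.h858.Coord

open Metric
open scoped NNReal Topology

theorem dir_exp_smul {n : ℕ} (s : ℝ) (x : E n) : dir (Real.exp s • x) = dir x :=
  dir_smul (Real.exp_pos s) x

theorem continuousAt_dir {n : ℕ} {x : E n} (hx : x ≠ 0) : ContinuousAt (dir : E n → E n) x :=
  (continuous_norm.continuousAt.inv₀ (norm_ne_zero_iff.2 hx)).smul continuousAt_id

theorem continuous_rad {n : ℕ} {μ : E n → ℝ} (hμ : Continuous μ) :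
    Continuous fun x : E n => Real.exp (μ (dir x)) • x := by
  rw [continuous_iff_continuousAt]
  intro x
  by_cases hx : x = 0
  · subst hx
    obtain ⟨C, hC⟩ := (isCompact_closedBall (0 : E n) 1).exists_bound_of_continuousOn
      (Real.continuous_exp.comp hμ).continuousOn
    rw [ContinuousAt, smul_zero]
    refine squeeze_zero_norm (a := fun x => C * ‖x‖) (fun x => ?_) ?_
    · rw [norm_smul]
      exact mul_le_mul_of_nonneg_right (hC _ (mem_closedBall_zero_iff.2 (norm_dir_le x)))
        (norm_nonneg _)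
    · have : Filter.Tendsto (fun x : E n => C * ‖x‖) (𝓝 0) (𝓝 (C * ‖(0 : E n)‖)) :=
        (continuous_const.mul continuous_norm).tendsto 0
      simpa using this
  · exact (Real.continuous_exp.continuousAt.comp
      (hμ.continuousAt.comp (continuousAt_dir hx))).smul continuousAt_id

/-- radial scaling by `exp (μ (dir x))` -/
noncomputable def radH {n : ℕ} (μ : E n → ℝ) (hμ : Continuous μ) : E n ≃ₜ E n where
  toFun x := Real.exp (μ (dir x)) • x
  invFun x := Real.exp (-μ (dir x)) • x
  left_inv x := by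
    show Real.exp (-μ (dir (Real.exp (μ (dir x)) • x))) • Real.exp (μ (dir x)) • x = x
    rw [dir_exp_smul, smul_smul, ← Real.exp_add, neg_add_cancel, Real.exp_zero, one_smul]
  right_inv x := by
    show Real.exp (μ (dir (Real.exp (-μ (dir x)) • x))) • Real.exp (-μ (dir x)) • x = x
    rw [dir_exp_smul, smul_smul, ← Real.exp_add, add_neg_cancel, Real.exp_zero, one_smul]
  continuous_toFun := continuous_rad hμ
  continuous_invFun := continuous_rad hμ.neg

theorem radH_apply {n : ℕ} (μ : E n → ℝ) (hμ : Continuous μ) (x : E n) :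
    radH μ hμ x = Real.exp (μ (dir x)) • x := rfl

theorem radH_hom {n : ℕ} (μ : E n → ℝ) (hμ : Continuous μ) : Hom (radH μ hμ) := by
  intro t ht x
  rw [radH_apply, radH_apply, dir_smul ht, smul_comm]

theorem radH_pow {n : ℕ} (μ : E n → ℝ) (hμ : Continuous μ) (k : ℕ) :
    ((radH μ hμ) ^ k : E n ≃ₜ E n) = radH (fun x => k * μ x) (continuous_const.mul hμ) := by
  induction k with
  | zero =>
    ext1 x
    rw [radH_apply]
    simp
  | succ k ih =>
    ext1 x
    rw [pow_succ', Homeomorph.mul_apply, ih, radH_apply, radH_apply, dir_exp_smul, smul_smul,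
      ← Real.exp_add, radH_apply]
    push_cast
    congr 2
    ring

/-- radial scalings with a Lipschitz exponent -/
theorem radH_mem_of_lipschitz {n : ℕ} {μ : E n → ℝ} {L : ℝ≥0} (hL : LipschitzWith L μ) :
    radH μ hL.continuous ∈ Subgroup.closure (SA n) := by
  obtain ⟨B, hB⟩ := (isCompact_closedBall (0 : E n) 1).exists_bound_of_continuousOn
    hL.continuous.continuousOn
  obtain ⟨B', hBB'⟩ : ∃ B' : ℝ≥0, B ≤ B' := ⟨B.toNNReal, Real.le_coe_toNNReal B⟩
  obtain ⟨k, hk⟩ := exists_nat_gt ((2 * B' + 2 * (12 * L + 2 * B') + 1 : ℝ≥0) : ℝ≥0)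
  have hk0 : (0 : ℝ≥0) < k := lt_of_le_of_lt (by positivity) hk
  have hk0' : (0 : ℝ) < k := by exact_mod_cast hk0
  have hkR : (2 * B' + 2 * (12 * L + 2 * B') + 1 : ℝ) < k := by exact_mod_cast hk
  have hBn : (0 : ℝ) ≤ B' := B'.coe_nonneg
  have hLn : (0 : ℝ) ≤ L := L.coe_nonneg
  set ν : E n → ℝ := fun x => (k : ℝ)⁻¹ * μ x with hν
  have hνc : Continuous ν := continuous_const.mul hL.continuous
  have hνb : ∀ x : E n, ‖x‖ = 1 → |ν x| ≤ (k : ℝ)⁻¹ * B' := by
    intro x hx
    rw [hν]
    simp only []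
    rw [abs_mul, abs_of_pos (inv_pos.2 hk0')]
    exact mul_le_mul_of_nonneg_left ((hB x (by simp [hx])).trans hBB') (inv_pos.2 hk0').le
  have hkB : (k : ℝ)⁻¹ * B' ≤ 1 / 2 := by
    rw [inv_mul_le_iff₀ hk0']
    linarith
  have hνl : ∀ x y : E n, |ν x - ν y| ≤ (k : ℝ)⁻¹ * (L * dist x y) := by
    intro x y
    rw [hν]
    simp only []
    rw [← mul_sub, abs_mul, abs_of_pos (inv_pos.2 hk0')]
    exact mul_le_mul_of_nonneg_left (by simpa [Real.dist_eq] using hL.dist_le_mul x y)
      (inv_pos.2 hk0').le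
  have hlip : LipschitzWith ((k : ℝ≥0)⁻¹ * (2 * B') + 2 * ((k : ℝ≥0)⁻¹ * (12 * L + 2 * B')))
      fun x : E n => ‖x‖ • ((Real.exp (ν (dir x)) - 1) • dir x) := by
    refine lipschitz_hom (U := fun x => (Real.exp (ν x) - 1) • x) (fun x hx => ?_)
      fun x y hx hy => ?_
    · rw [norm_smul, hx, mul_one, Real.norm_eq_abs]
      have h1 := hνb x hx
      refine (Real.abs_exp_sub_one_le (h1.trans (by linarith))).trans ?_
      push_cast
      linarith
    · have hx1 := hνb x hx
      have hy1 := hνb y hy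
      have h1 : (Real.exp (ν x) - 1) • x - (Real.exp (ν y) - 1) • y =
          (Real.exp (ν x) - Real.exp (ν y)) • x + (Real.exp (ν y) - 1) • (x - y) := by
        module
      have h2 : |Real.exp (ν x) - Real.exp (ν y)| ≤ (k : ℝ)⁻¹ * (12 * L) * dist x y := by
        have h3 : Real.exp (ν x) - Real.exp (ν y) =
            Real.exp (ν y) * (Real.exp (ν x - ν y) - 1) := by
          rw [mul_sub, ← Real.exp_add]
          congr 2
          · ring
          · ring
        have h4 : |ν x - ν y| ≤ 1 := by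
          refine (abs_sub _ _).trans ?_
          linarith
        have h5 : Real.exp (ν y) ≤ 3 := by
          have h6 : ν y ≤ 1 := (le_abs_self _).trans (by linarith)
          exact (Real.exp_le_exp.2 h6).trans (by linarith [Real.exp_one_lt_d9])
        rw [h3, abs_mul, Real.abs_exp]
        calc Real.exp (ν y) * |Real.exp (ν x - ν y) - 1|
            ≤ 3 * (2 * |ν x - ν y|) :=
              mul_le_mul h5 (Real.abs_exp_sub_one_le h4) (abs_nonneg _) (by norm_num)
          _ ≤ 3 * (2 * ((k : ℝ)⁻¹ * (L * dist x y))) := by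
              have := hνl x y
              linarith
          _ ≤ (k : ℝ)⁻¹ * (12 * L) * dist x y := by
              have : 0 ≤ (k : ℝ)⁻¹ * (L * dist x y) := by positivity
              nlinarith
      rw [dist_eq_norm, h1]
      refine (norm_add_le _ _).trans ?_
      rw [norm_smul, norm_smul, hx, mul_one, Real.norm_eq_abs, Real.norm_eq_abs,
        ← dist_eq_norm]
      have h7 : |Real.exp (ν y) - 1| ≤ 2 * ((k : ℝ)⁻¹ * B') :=
        (Real.abs_exp_sub_one_le (hy1.trans (by linarith))).trans (by linarith)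
      have h8 : |Real.exp (ν y) - 1| * dist x y ≤ 2 * ((k : ℝ)⁻¹ * B') * dist x y :=
        mul_le_mul_of_nonneg_right h7 dist_nonneg
      push_cast
      linarith
  have hlt : (k : ℝ≥0)⁻¹ * (2 * B') + 2 * ((k : ℝ≥0)⁻¹ * (12 * L + 2 * B')) < 1 := by
    have h1 : (k : ℝ≥0)⁻¹ * (2 * B') + 2 * ((k : ℝ≥0)⁻¹ * (12 * L + 2 * B')) =
        (k : ℝ≥0)⁻¹ * (2 * B' + 2 * (12 * L + 2 * B')) := by ring
    rw [h1, inv_mul_lt_iff₀ hk0, mul_one]
    exact lt_of_le_of_lt (le_add_of_nonneg_right zero_le_one) hk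
  obtain ⟨g, hg, hgx⟩ := mem_of_lipschitz hlip hlt
  have hgr : g = radH ν hνc := by
    ext1 x
    rw [hgx, radH_apply, smul_comm, norm_smul_dir, sub_smul, one_smul]
    abel
  have hpow : radH μ hL.continuous = (radH ν hνc) ^ k := by
    rw [radH_pow]
    ext1 x
    rw [radH_apply, radH_apply, hν]
    simp only []
    rw [← mul_assoc, mul_inv_cancel₀ hk0'.ne', one_mul]
  rw [hpow, ← hgr]
  exact Subgroup.pow_mem _ hg k

/-- Continuous functions are limits of Lipschitz functions on the unit ball. -/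
theorem exists_lipschitz_approx {n : ℕ} {μ : E n → ℝ} (hμ : Continuous μ) {ε : ℝ} (hε : 0 < ε) :
    ∃ (ν : E n → ℝ) (L : ℝ≥0), LipschitzWith L ν ∧
      ∀ x ∈ closedBall (0 : E n) 1, |ν x - μ x| < ε := by
  classical
  set K : Set (E n) := closedBall (0 : E n) 1 with hK
  have : CompactSpace K := isCompact_iff_compactSpace.1 (isCompact_closedBall _ _)
  let A : Subalgebra ℝ C(K, ℝ) :=
    { carrier := {f | ∃ L : ℝ≥0, LipschitzWith L f}
      mul_mem' := by
        rintro f g ⟨L₁, h₁⟩ ⟨L₂, h₂⟩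
        refine ⟨‖f‖₊ * L₂ + ‖g‖₊ * L₁, LipschitzWith.of_dist_le_mul fun x y => ?_⟩
        rw [ContinuousMap.mul_apply, ContinuousMap.mul_apply, Real.dist_eq]
        have e1 : f x * g x - f y * g y = f x * (g x - g y) + (f x - f y) * g y := by ring
        rw [e1]
        refine (abs_add_le _ _).trans ?_
        rw [abs_mul, abs_mul]
        have e2 := h₁.dist_le_mul x y
        have e3 := h₂.dist_le_mul x y
        rw [Real.dist_eq] at e2 e3
        have e4 : |f x| ≤ ‖f‖ := f.norm_coe_le_norm x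
        have e5 : |g y| ≤ ‖g‖ := g.norm_coe_le_norm y
        have e6 := mul_le_mul e4 e3 (abs_nonneg _) (norm_nonneg _)
        have e7 := mul_le_mul e2 e5 (abs_nonneg _) (by positivity)
        push_cast
        linarith
      add_mem' := by
        rintro f g ⟨L₁, h₁⟩ ⟨L₂, h₂⟩
        exact ⟨L₁ + L₂, h₁.add h₂⟩
      algebraMap_mem' := fun r => ⟨0, LipschitzWith.const r⟩ }
  have hsep : A.SeparatesPoints := by
    intro x y hxy
    refine ⟨_, ⟨⟨fun z => dist z x, by fun_prop⟩, ⟨1, LipschitzWith.dist_left x⟩, rfl⟩, ?_⟩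
    simp only [ContinuousMap.coe_mk, dist_self]
    exact fun h => hxy (dist_eq_zero.1 h.symm).symm
  let Ψ : C(K, ℝ) := ⟨fun q => μ q, hμ.comp continuous_subtype_val⟩
  obtain ⟨f, hf⟩ := ContinuousMap.exists_mem_subalgebra_near_continuousMap_of_separatesPoints
    A hsep Ψ ε hε
  obtain ⟨⟨f, L, hL⟩, hf⟩ : ∃ f : A, ‖(f : C(K, ℝ)) - Ψ‖ < ε := ⟨f, hf⟩
  obtain ⟨ν, hν, hνf⟩ := LipschitzOnWith.extend_real
    (f := fun x : E n => if h : x ∈ K then f ⟨x, h⟩ else 0) (s := K) (K := L) (by
      refine LipschitzOnWith.of_dist_le_mul fun x hx y hy => ?_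
      simp only [dif_pos hx, dif_pos hy]
      exact hL.dist_le_mul ⟨x, hx⟩ ⟨y, hy⟩)
  refine ⟨ν, L, hν, fun x hx => ?_⟩
  have h1 := (ContinuousMap.norm_lt_iff _ hε).1 hf ⟨x, hx⟩
  rw [ContinuousMap.sub_apply, Real.norm_eq_abs] at h1
  have h2 := hνf hx
  simp only [dif_pos hx] at h2
  rw [← h2]
  exact h1

theorem radH_mem {n : ℕ} {μ : E n → ℝ} (hμ : Continuous μ) : radH μ hμ ∈ GA n := by
  refine mem_clos_of_approx (approx_iff.2 fun R₀ ε hε => ?_)
  set R : ℝ := max R₀ 1 with hR
  have hR1 : 1 ≤ R := le_max_right _ _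
  obtain ⟨C, hC⟩ := (isCompact_closedBall (0 : E n) 1).exists_bound_of_continuousOn
    (Real.continuous_exp.comp hμ).continuousOn
  set C' : ℝ := max C 1
  have hC' : 0 < C' := lt_of_lt_of_le one_pos (le_max_right _ _)
  obtain ⟨ν, L, hL, hν⟩ := exists_lipschitz_approx hμ
    (lt_min (show 0 < ε / (2 * C' * R) by positivity) one_pos)
  refine ⟨radH ν hL.continuous, le_clos (radH_mem_of_lipschitz hL), fun x hx => ?_⟩
  rw [radH_apply, radH_apply, dist_eq_norm, ← sub_smul, norm_smul, Real.norm_eq_abs]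
  rw [mem_closedBall_zero_iff] at hx
  have hxR : ‖x‖ ≤ R := hx.trans (le_max_left _ _)
  have hd : dir x ∈ closedBall (0 : E n) 1 := mem_closedBall_zero_iff.2 (norm_dir_le x)
  have h1 := hν _ hd
  have h2 := hC _ hd
  set u := ν (dir x)
  set v := μ (dir x) with hv
  have h3 : Real.exp v ≤ C' := by
    simp only [Function.comp_apply, Real.norm_eq_abs, Real.abs_exp] at h2
    exact h2.trans (le_max_left _ _)
  have h4 : |Real.exp u - Real.exp v| < C' * (2 * (ε / (2 * C' * R))) := by
    have h5 : Real.exp u - Real.exp v = Real.exp v * (Real.exp (u - v) - 1) := by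
      rw [mul_sub, ← Real.exp_add]
      congr 2
      · ring
      · ring
    rw [h5, abs_mul, Real.abs_exp]
    have h6 := Real.abs_exp_sub_one_le (x := u - v) (h1.le.trans (min_le_right _ _))
    calc Real.exp v * |Real.exp (u - v) - 1| ≤ C' * (2 * |u - v|) :=
          mul_le_mul h3 h6 (abs_nonneg _) hC'.le
      _ < C' * (2 * (ε / (2 * C' * R))) := by
          have := h1.trans_le (min_le_left _ _)
          nlinarith
  calc |Real.exp u - Real.exp v| * ‖x‖
      ≤ |Real.exp u - Real.exp v| * R := mul_le_mul_of_nonneg_left hxR (abs_nonneg _)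
    _ < C' * (2 * (ε / (2 * C' * R))) * R := mul_lt_mul_of_pos_right h4 (by positivity)
    _ = ε := by field_simp

/-- Normalisation: every homogeneous homeomorphism becomes norm preserving after composition
with a radial scaling. -/
theorem exists_normalize {n : ℕ} (g : E n ≃ₜ E n) (hg : Hom g) :
    ∃ M ∈ GA n, Hom M ∧ ∀ x, M (g x) = (‖x‖ / ‖g x‖) • g x := by
  have hc : Continuous fun y : E n => Real.log (‖g.symm y‖ + |1 - ‖y‖|) := by
    refine Continuous.log ?_ fun y => ?_
    · exact (g.symm.continuous.norm).add (continuous_const.sub continuous_norm).abs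
    · by_cases hy : y = 0
      · subst hy
        have : g.symm 0 = 0 := hg.inv.zero
        rw [this]
        simp
      · have h1 : 0 < ‖g.symm y‖ := norm_pos_iff.2 (hg.inv.ne_zero hy)
        have h2 := abs_nonneg (1 - ‖y‖)
        linarith
  refine ⟨radH _ hc, radH_mem hc, radH_hom _ _, fun x => ?_⟩
  rw [radH_apply]
  by_cases hx : x = 0
  · subst hx
    rw [hg.zero]
    simp
  · have hgx := hg.ne_zero hx
    have h1 : ‖g.symm (dir (g x))‖ = ‖x‖ / ‖g x‖ := by
      have h2 : g.symm (dir (g x)) = ‖g x‖⁻¹ • x := by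
        have h3 := hg.inv _ (inv_pos.2 (norm_pos_iff.2 hgx)) (g x)
        rw [Homeomorph.inv_apply, Homeomorph.inv_apply, g.symm_apply_apply] at h3
        exact h3
      rw [h2, norm_smul, norm_inv, norm_norm, div_eq_inv_mul]
    rw [norm_dir hgx, sub_self, abs_zero, add_zero, h1, Real.exp_log]
    exact div_pos (norm_pos_iff.2 hx) (norm_pos_iff.2 hgx)

end Run7.h858.Coord
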