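import Mathlib
import Pool.Agent.Run7.h858.CoordRad

set_option autoImplicit false

namespace Run7.h858.Coord

open Metric
open scoped NNReal Topology

/-- Norm preserving case of the homogeneous local-to-global principle. -/
theorem hom_ltg_norm {n : ℕ} (C : E n ≃ₜ E n) (hC : Hom C) (hnorm : ∀ x, ‖C x‖ = ‖x‖)
    (hloc : ∀ p : E n, ‖p‖ = 1 → ∃ H ∈ GA n, Hom H ∧ ∀ᶠ x in 𝓝 p, C x = H x) : C ∈ GA n := by
  by_cases hex : ∃ e : E n, ‖e‖ = 1
  swap
  · have h0 : ∀ x : E n, x = 0 := by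
      intro x
      by_contra hx
      exact hex ⟨dir x, norm_dir hx⟩
    have h1 : C = 1 := by
      ext1 x
      rw [h0 (C x), h0 ((1 : E n ≃ₜ E n) x)]
    rw [h1]
    exact Subgroup.one_mem _
  obtain ⟨e, he⟩ := hex
  have hU : ∀ p : E n, ∃ H : E n ≃ₜ E n, ∃ r > 0, ‖p‖ = 1 → (H ∈ GA n ∧ Hom H ∧
      ∀ x ∈ ball p r, C x = H x) := by
    intro p
    by_cases hp : ‖p‖ = 1
    · obtain ⟨H, hH, hHom, hev⟩ := hloc p hp
      obtain ⟨r, hr, hx⟩ := Metric.eventually_nhds_iff_ball.1 hev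
      exact ⟨H, r, hr, fun _ => ⟨hH, hHom, hx⟩⟩
    · exact ⟨1, 1, one_pos, fun h => absurd h hp⟩
  choose H r hr hH using hU
  have hcone : ∀ p : E n, ‖p‖ = 1 → ∀ x : E n, x ≠ 0 → dist (dir x) p < r p → C x = H p x := by
    intro p hp x hx hd
    rw [hC.apply_dir, (hH p hp).2.1.apply_dir, (hH p hp).2.2 _ (mem_ball.2 hd)]
  obtain ⟨lam, hlam, hleb⟩ := lebesgue_number_lemma_of_metric (isCompact_sphere (0 : E n) 1)
    (c := fun p : sphere (0 : E n) 1 => ball (p : E n) (r p)) (fun p => isOpen_ball)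
    (fun x hx => Set.mem_iUnion.2 ⟨⟨x, hx⟩, mem_ball_self (hr x)⟩)
  have hconj : ∀ D ∈ Subgroup.closure (Tset n (lam / 2)), C * D * C⁻¹ ∈ GA n := by
    intro D hD
    refine conj_mem C (fun ρ hρ => ?_) hD
    obtain ⟨hρA, hρH, c, hc, hsupp⟩ := hρ
    obtain ⟨⟨p, hp⟩, hpc⟩ := hleb c (mem_sphere_zero_iff_norm.2 hc)
    have hp1 : ‖p‖ = 1 := mem_sphere_zero_iff_norm.1 hp
    rw [conj_eq C (H p) ρ {x | x ≠ 0 ∧ dist (dir x) c ≤ lam / 2} (fun x hx => ?_) fun x hx => ?_]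
    · exact Subgroup.mul_mem _ (Subgroup.mul_mem _ (hH p hp1).1 hρA)
        (Subgroup.inv_mem _ (hH p hp1).1)
    · by_cases hx0 : x = 0
      · rw [hx0, hρH.zero]
      · refine hsupp x hx0 ?_
        by_contra hcon
        exact hx ⟨hx0, not_lt.1 hcon⟩
    · refine hcone p hp1 x hx.1 ?_
      exact mem_ball.1 (hpc (mem_ball.2 (hx.2.trans_lt (half_lt_self hlam))))
  have hDHom : ∀ D ∈ Subgroup.closure (Tset n (lam / 2)), D ∈ GA n ∧ Hom D := by
    intro D hD
    let HH : Subgroup (E n ≃ₜ E n) :=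
      { carrier := {g | g ∈ GA n ∧ Hom g}
        mul_mem' := fun h₁ h₂ => ⟨Subgroup.mul_mem _ h₁.1 h₂.1, h₁.2.mul h₂.2⟩
        one_mem' := ⟨Subgroup.one_mem _, Hom.one⟩
        inv_mem' := fun h => ⟨Subgroup.inv_mem _ h.1, h.2.inv⟩ }
    have h1 : Subgroup.closure (Tset n (lam / 2)) ≤ HH := by
      rw [Subgroup.closure_le]
      exact fun ρ hρ => ⟨hρ.1, hρ.2.1⟩
    exact h1 hD
  refine mem_clos_of_approx (approx_iff.2 fun R₀ ε hε => ?_)
  set R : ℝ := max R₀ 0 with hRdef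
  have hR : 0 ≤ R := le_max_right _ _
  have huc := (isCompact_closedBall (0 : E n) R).uniformContinuousOn_of_continuous
    C.continuous.continuousOn
  rw [Metric.uniformContinuousOn_iff] at huc
  obtain ⟨δ, hδ, hu⟩ := huc ε hε
  set η : ℝ := δ / (2 * (R + 1)) with hη
  have hη0 : 0 < η := by positivity
  obtain ⟨D, hD, hDx⟩ := exists_cone_contraction he hη0 (hr e) (half_pos hlam)
  obtain ⟨hDA, hDH⟩ := hDHom D hD
  have hCD := hconj D hD
  set g₁ : E n ≃ₜ E n := (C * D * C⁻¹)⁻¹ * (H e * D) with hg₁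
  have hg₁A : g₁ ∈ GA n := Subgroup.mul_mem _ (Subgroup.inv_mem _ hCD)
    (Subgroup.mul_mem _ (hH e he).1 hDA)
  have hg₁H : Hom g₁ := ((hC.mul hDH).mul hC.inv).inv.mul ((hH e he).2.1.mul hDH)
  have hoff : ∀ x : E n, x ≠ 0 → η ≤ dist (dir x) (-e) → g₁ x = C x := by
    intro x hx hxe
    rw [hg₁H.apply_dir, hC.apply_dir x]
    congr 1
    obtain ⟨h1, h2⟩ := hDx _ (norm_dir hx) hxe
    have h3 := hcone e he _ h1 h2
    have h4 : g₁ = C * D⁻¹ * C⁻¹ * (H e * D) := by rw [hg₁]; group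
    rw [h4, Homeomorph.mul_apply, Homeomorph.mul_apply, Homeomorph.mul_apply,
      Homeomorph.mul_apply, ← h3, Homeomorph.inv_apply, Homeomorph.inv_apply, C.symm_apply_apply,
      D.symm_apply_apply]
  obtain ⟨M, hMA, hMH, hM⟩ := exists_normalize g₁ hg₁H
  set g : E n ≃ₜ E n := M * g₁ with hg
  have hgx : ∀ x, g x = (‖x‖ / ‖g₁ x‖) • g₁ x := fun x => by
    rw [hg, Homeomorph.mul_apply, hM]
  have hgH : Hom g := hMH.mul hg₁H
  have hgn : ∀ x, ‖g x‖ = ‖x‖ := by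
    intro x
    by_cases hx : x = 0
    · rw [hx, hgH.zero]
    · rw [hgx, norm_smul, norm_div, norm_norm, norm_norm, div_mul_cancel₀]
      exact norm_ne_zero_iff.2 (hg₁H.ne_zero hx)
  have hgoff : ∀ x : E n, x ≠ 0 → η ≤ dist (dir x) (-e) → g x = C x := by
    intro x hx hxe
    rw [hgx, hoff x hx hxe, hnorm, div_self (norm_ne_zero_iff.2 hx), one_smul]
  refine ⟨g, Subgroup.mul_mem _ hMA hg₁A, fun x hx => ?_⟩
  by_cases hx0 : x = 0
  · rw [hx0, hgH.zero, hC.zero, dist_self]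
    exact hε
  rcases le_or_gt η (dist (dir x) (-e)) with h1 | h1
  · rw [hgoff x hx0 h1, dist_self]
    exact hε
  · obtain ⟨x', hx'⟩ := C.surjective (g x)
    have hnx : ‖x'‖ = ‖x‖ := by rw [← hnorm x', hx', hgn]
    have hx'0 : x' ≠ 0 := by
      intro h
      rw [h, norm_zero] at hnx
      exact hx0 (norm_eq_zero.1 hnx.symm)
    have h2 : dist (dir x') (-e) < η := by
      by_contra hcon
      push Not at hcon
      have h3 := hgoff x' hx'0 hcon
      rw [hx'] at h3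
      rw [g.injective h3] at hcon
      linarith
    have hxR : ‖x‖ ≤ R := (mem_closedBall_zero_iff.1 hx).trans (le_max_left _ _)
    rw [← hx']
    refine hu x' (by rw [mem_closedBall_zero_iff, hnx]; exact hxR) x
      (mem_closedBall_zero_iff.2 hxR) ?_
    have h4 : dist x' x = ‖x‖ * dist (dir x') (dir x) := by
      rw [dist_eq_norm, dist_eq_norm]
      conv_lhs => rw [← norm_smul_dir x', ← norm_smul_dir x, hnx, ← smul_sub, norm_smul, norm_norm]
    have h5 : dist (dir x') (dir x) ≤ 2 * η := by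
      refine (dist_triangle_right _ _ (-e)).trans ?_
      linarith
    rw [h4]
    calc ‖x‖ * dist (dir x') (dir x) ≤ R * (2 * η) :=
          mul_le_mul hxR h5 dist_nonneg hR
      _ < (R + 1) * (2 * η) := by nlinarith
      _ = δ := by rw [hη]; field_simp

/-- **Homogeneous local-to-global principle.** -/
theorem hom_local_to_global {n : ℕ} (C : E n ≃ₜ E n) (hC : Hom C)
    (hloc : ∀ p : E n, p ≠ 0 → ∃ H ∈ GA n, Hom H ∧ ∀ᶠ x in 𝓝 p, C x = H x) : C ∈ GA n := by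
  obtain ⟨M, hMA, hMH, hM⟩ := exists_normalize C hC
  have h1 : M * C ∈ GA n := by
    refine hom_ltg_norm (M * C) (hMH.mul hC) (fun x => ?_) fun p hp => ?_
    · by_cases hx : x = 0
      · rw [hx, (hMH.mul hC).zero]
      · rw [Homeomorph.mul_apply, hM, norm_smul, norm_div, norm_norm, norm_norm, div_mul_cancel₀]
        exact norm_ne_zero_iff.2 (hC.ne_zero hx)
    · have hp0 : p ≠ 0 := by
        intro h
        rw [h, norm_zero] at hp
        exact zero_ne_one hp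
      obtain ⟨H, hHA, hHH, hev⟩ := hloc p hp0
      refine ⟨M * H, Subgroup.mul_mem _ hMA hHA, hMH.mul hHH, hev.mono fun x hx => ?_⟩
      rw [Homeomorph.mul_apply, Homeomorph.mul_apply, hx]
  have h2 : C = M⁻¹ * (M * C) := by group
  rw [h2]
  exact Subgroup.mul_mem _ (Subgroup.inv_mem _ hMA) h1

end Run7.h858.Coord
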