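import Mathlib
import Pool.Agent.Run7.h858.CoordSph

set_option autoImplicit false

namespace Run7.h858.Coord

open Metric
open scoped NNReal Topology

/-- `h` is conical at `p`: near `p` it is positively homogeneous relative to `p`. -/
def Con {n m : ℕ} (h : E n → E m) (p : E n) : Prop :=
  ∃ r : ℝ, 0 < r ∧ ∀ v : E n, ‖v‖ < r → ∀ t : ℝ, 0 ≤ t → t ≤ 1 →
    h (p + t • v) = h p + t • (h (p + v) - h p)

theorem Con.comp {n m l : ℕ} {g : E n → E m} {f : E m → E l} {p : E n} (hg : Con g p)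
    (hf : Con f (g p)) (hgc : ContinuousAt g p) : Con (fun x => f (g x)) p := by
  obtain ⟨r, hr, hg⟩ := hg
  obtain ⟨r', hr', hf⟩ := hf
  obtain ⟨δ, hδ, hc⟩ := Metric.continuousAt_iff.1 hgc r' hr'
  refine ⟨min r δ, lt_min hr hδ, fun v hv t ht0 ht1 => ?_⟩
  have h1 : ‖g (p + v) - g p‖ < r' := by
    rw [← dist_eq_norm]
    refine hc ?_
    rw [dist_eq_norm, add_sub_cancel_left]
    exact hv.trans_le (min_le_right _ _)
  show f (g (p + t • v)) = f (g p) + t • (f (g (p + v)) - f (g p))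
  rw [hg v (hv.trans_le (min_le_left _ _)) t ht0 ht1, hf _ h1 t ht0 ht1, add_sub_cancel]

theorem Con.symm {n : ℕ} {h : E n ≃ₜ E n} {p : E n} (hp : Con h p) : Con h.symm (h p) := by
  obtain ⟨r, hr, hc⟩ := hp
  obtain ⟨δ, hδ, hcont⟩ := Metric.continuousAt_iff.1 (h.symm.continuous.continuousAt (x := h p)) r hr
  refine ⟨δ, hδ, fun w hw t ht0 ht1 => ?_⟩
  have h1 : dist (h.symm (h p + w)) (h.symm (h p)) < r := by
    refine hcont ?_
    rwa [dist_eq_norm, add_sub_cancel_left]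
  rw [h.symm_apply_apply, dist_eq_norm] at h1
  have h2 := hc _ h1 t ht0 ht1
  rw [add_sub_cancel, h.apply_symm_apply, add_sub_cancel_left] at h2
  rw [← h2, h.symm_apply_apply, h.symm_apply_apply]

theorem con_of_linear {n m : ℕ} (L : E n →L[ℝ] E m) (p : E n) : Con L p := by
  refine ⟨1, one_pos, fun v _ t _ _ => ?_⟩
  rw [map_add, map_add, map_smul, add_sub_cancel_left]

/-- the rescaled values stabilise -/
theorem cone_stable {n m : ℕ} {h : E n → E m} {p : E n} {r : ℝ}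
    (hc : ∀ v : E n, ‖v‖ < r → ∀ t : ℝ, 0 ≤ t → t ≤ 1 →
      h (p + t • v) = h p + t • (h (p + v) - h p)) (v : E n) {s s' : ℝ} (hs : 0 < s)
    (hs' : 0 < s') (hsr : s * ‖v‖ < r) (hsr' : s' * ‖v‖ < r) :
    s⁻¹ • (h (p + s • v) - h p) = s'⁻¹ • (h (p + s' • v) - h p) := by
  wlog hle : s ≤ s' generalizing s s'
  · exact (this hs' hs hsr' hsr (le_of_not_ge hle)).symm
  have h1 := hc (s' • v) (by rwa [norm_smul, Real.norm_eq_abs, abs_of_pos hs']) (s / s')
    (by positivity) ((div_le_one hs').2 hle)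
  rw [smul_smul, div_mul_cancel₀ _ hs'.ne'] at h1
  rw [h1, add_sub_cancel_left, smul_smul]
  congr 1
  field_simp

/-- The cone of a locally conical homeomorphism at a point. -/
theorem exists_cone {n : ℕ} {h : E n ≃ₜ E n} {p : E n} (hp : Con h p) :
    ∃ (C : E n ≃ₜ E n) (r : ℝ), 0 < r ∧
      ∀ (v : E n) (s : ℝ), 0 < s → s * ‖v‖ < r → h (p + s • v) = h p + s • C v := by
  obtain ⟨r, hr, hc⟩ := hp
  obtain ⟨r', hr', hc'⟩ := Con.symm ⟨r, hr, hc⟩
  -- general construction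
  have hone : ∀ v : E n, 0 < 1 + ‖v‖ := fun v => by positivity
  have hsm : ∀ (a : ℝ), 0 < a → ∀ v : E n, a / (1 + ‖v‖) * ‖v‖ < a := by
    intro a ha v
    rw [div_mul_eq_mul_div, div_lt_iff₀ (hone v)]
    nlinarith
  have hcont : ∀ (g : E n ≃ₜ E n) (q : E n) (a : ℝ), Continuous fun v : E n =>
      (a / (1 + ‖v‖))⁻¹ • (g (q + (a / (1 + ‖v‖)) • v) - g q) := by
    intro g q a
    have h1 : Continuous fun v : E n => a / (1 + ‖v‖) :=
      continuous_const.div (continuous_const.add continuous_norm) fun v => (hone v).ne'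
    have h2 : Continuous fun v : E n => (a / (1 + ‖v‖))⁻¹ := by
      simp only [inv_div]
      exact (continuous_const.add continuous_norm).div_const _
    exact h2.smul ((g.continuous.comp (continuous_const.add (h1.smul continuous_id))).sub
      continuous_const)
  set F : E n → E n := fun v => (r / (1 + ‖v‖))⁻¹ • (h (p + (r / (1 + ‖v‖)) • v) - h p) with hF
  set F' : E n → E n := fun v => (r' / (1 + ‖v‖))⁻¹ •
    (h.symm (h p + (r' / (1 + ‖v‖)) • v) - h.symm (h p)) with hF'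
  have key : ∀ (v : E n) (s : ℝ), 0 < s → s * ‖v‖ < r → h (p + s • v) = h p + s • F v := by
    intro v s hs hsr
    have h1 := cone_stable hc v hs (div_pos hr (hone v)) hsr (hsm r hr v)
    have h2 : F v = s⁻¹ • (h (p + s • v) - h p) := h1.symm
    rw [h2, smul_smul, mul_inv_cancel₀ hs.ne', one_smul, add_sub_cancel]
  have key' : ∀ (v : E n) (s : ℝ), 0 < s → s * ‖v‖ < r' →
      h.symm (h p + s • v) = p + s • F' v := by
    intro v s hs hsr
    have h1 := cone_stable hc' v hs (div_pos hr' (hone v)) hsr (hsm r' hr' v)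
    have h2 : F' v = s⁻¹ • (h.symm (h p + s • v) - h.symm (h p)) := h1.symm
    rw [h2, smul_smul, mul_inv_cancel₀ hs.ne', one_smul, h.symm_apply_apply, add_sub_cancel]
  have hsmall : ∀ (a b : ℝ) (v w : E n), 0 < a → 0 < b →
      ∃ s : ℝ, 0 < s ∧ s * ‖v‖ < a ∧ s * ‖w‖ < b := by
    intro a b v w ha hb
    have hle : min (a / (1 + ‖v‖)) (b / (1 + ‖w‖)) * ‖v‖ ≤ a / (1 + ‖v‖) * ‖v‖ :=
      mul_le_mul_of_nonneg_right (min_le_left _ _) (norm_nonneg _)
    have hle' : min (a / (1 + ‖v‖)) (b / (1 + ‖w‖)) * ‖w‖ ≤ b / (1 + ‖w‖) * ‖w‖ :=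
      mul_le_mul_of_nonneg_right (min_le_right _ _) (norm_nonneg _)
    exact ⟨min (a / (1 + ‖v‖)) (b / (1 + ‖w‖)), lt_min (div_pos ha (hone v)) (div_pos hb (hone w)),
      hle.trans_lt (hsm a ha v), hle'.trans_lt (hsm b hb w)⟩
  refine ⟨⟨⟨F, F', fun v => ?_, fun w => ?_⟩, hcont h p r, hcont h.symm (h p) r'⟩, r, hr, key⟩
  · obtain ⟨s, hs, h1, h2⟩ := hsmall r r' v (F v) hr hr'
    have h3 := key v s hs h1
    have h4 := key' (F v) s hs h2
    rw [← h3, h.symm_apply_apply] at h4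
    exact (smul_right_injective _ hs.ne' (add_left_cancel h4)).symm
  · obtain ⟨s, hs, h1, h2⟩ := hsmall r r' (F' w) w hr hr'
    have h3 := key' w s hs h2
    have h4 := key (F' w) s hs h1
    rw [← h3, h.apply_symm_apply] at h4
    exact (smul_right_injective _ hs.ne' (add_left_cancel h4)).symm

/-- locally conical homeomorphisms -/
def LC {n : ℕ} (h : E n ≃ₜ E n) : Prop := ∀ p, Con h p

theorem cone_hom {n : ℕ} {h C : E n ≃ₜ E n} {p : E n} {r : ℝ} (hr : 0 < r)
    (hC : ∀ (v : E n) (s : ℝ), 0 < s → s * ‖v‖ < r → h (p + s • v) = h p + s • C v) : Hom C := by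
  intro t ht v
  have hs : 0 < r / (t * ‖v‖ + 1) := by positivity
  have h1 : r / (t * ‖v‖ + 1) * (t * ‖v‖) < r := by
    rw [div_mul_eq_mul_div, div_lt_iff₀ (by positivity)]
    nlinarith
  set s := r / (t * ‖v‖ + 1)
  have h2 := hC (t • v) s hs (by rwa [norm_smul, Real.norm_eq_abs, abs_of_pos ht])
  have h3 := hC v (s * t) (by positivity) (by rwa [mul_assoc])
  rw [smul_smul, h3, ← smul_smul] at h2
  exact (smul_right_injective _ hs.ne' (add_left_cancel h2)).symm

theorem cone_lc {n : ℕ} {h C : E n ≃ₜ E n} {p : E n} {r : ℝ} (hh : LC h) (hr : 0 < r)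
    (hC : ∀ (v : E n) (s : ℝ), 0 < s → s * ‖v‖ < r → h (p + s • v) = h p + s • C v) : LC C := by
  intro v₀
  have hs : 0 < r / (‖v₀‖ + 2) := by positivity
  have h1 : r / (‖v₀‖ + 2) * (‖v₀‖ + 1) < r := by
    rw [div_mul_eq_mul_div, div_lt_iff₀ (by positivity)]
    nlinarith [norm_nonneg v₀]
  set s := r / (‖v₀‖ + 2)
  have hCs : ∀ u : E n, ‖u‖ < 1 → C (v₀ + u) = s⁻¹ • (h (p + s • v₀ + s • u) - h p) := by
    intro u hu
    have h2 : s * ‖v₀ + u‖ < r := by
      refine lt_of_le_of_lt (mul_le_mul_of_nonneg_left ?_ hs.le) h1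
      refine (norm_add_le _ _).trans ?_
      linarith
    have h3 := hC (v₀ + u) s hs h2
    rw [smul_add, ← add_assoc] at h3
    rw [h3, add_sub_cancel_left, smul_smul, inv_mul_cancel₀ hs.ne', one_smul]
  obtain ⟨ρ, hρ, hcon⟩ := hh (p + s • v₀)
  refine ⟨min 1 (ρ / s), lt_min one_pos (by positivity), fun u hu t ht0 ht1 => ?_⟩
  have hu1 : ‖u‖ < 1 := hu.trans_le (min_le_left _ _)
  have hu2 : ‖s • u‖ < ρ := by
    rw [norm_smul, Real.norm_eq_abs, abs_of_pos hs]
    have := hu.trans_le (min_le_right _ _)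
    rw [lt_div_iff₀ hs] at this
    linarith
  have htu : ‖t • u‖ < 1 := by
    rw [norm_smul, Real.norm_eq_abs, abs_of_nonneg ht0]
    exact lt_of_le_of_lt (mul_le_of_le_one_left (norm_nonneg _) ht1) hu1
  have h0 := hCs 0 (by simp)
  rw [add_zero, smul_zero, add_zero] at h0
  rw [hCs _ htu, hCs u hu1, h0, smul_comm s t, hcon _ hu2 t ht0 ht1]
  module

/-- A homogeneous conical map commutes, infinitesimally at `p`, with the translations along
`p`. -/
theorem cone_translate {n : ℕ} {C D : E n ≃ₜ E n} (hC : Hom C) {p : E n} {r : ℝ} (hr : 0 < r)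
    (hD : ∀ (v : E n) (s : ℝ), 0 < s → s * ‖v‖ < r → C (p + s • v) = C p + s • D v) (v : E n)
    (τ : ℝ) : D (v + τ • p) = D v + τ • C p := by
  obtain ⟨s, hs, h1, h2, h3⟩ : ∃ s : ℝ, 0 < s ∧ s * ‖v + τ • p‖ < r ∧ s * |τ| ≤ 1 / 2 ∧
      2 * s * ‖v‖ < r := by
    refine ⟨min (min (r / (‖v + τ • p‖ + 1)) (1 / (2 * (|τ| + 1)))) (r / (2 * ‖v‖ + 1)),
      by positivity, ?_, ?_, ?_⟩
    · have h4 : r / (‖v + τ • p‖ + 1) * ‖v + τ • p‖ < r := by
        rw [div_mul_eq_mul_div, div_lt_iff₀ (by positivity)]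
        nlinarith
      exact lt_of_le_of_lt (mul_le_mul_of_nonneg_right
        ((min_le_left _ _).trans (min_le_left _ _)) (norm_nonneg _)) h4
    · have h4 : 1 / (2 * (|τ| + 1)) * |τ| ≤ 1 / 2 := by
        rw [div_mul_eq_mul_div, div_le_div_iff₀ (by positivity) two_pos]
        nlinarith [abs_nonneg τ]
      exact le_trans (mul_le_mul_of_nonneg_right
        ((min_le_left _ _).trans (min_le_right _ _)) (abs_nonneg _)) h4
    · have h4 : 2 * (r / (2 * ‖v‖ + 1)) * ‖v‖ < r := by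
        rw [show 2 * (r / (2 * ‖v‖ + 1)) * ‖v‖ = r * (2 * ‖v‖) / (2 * ‖v‖ + 1) by ring,
          div_lt_iff₀ (by positivity)]
        nlinarith
      refine lt_of_le_of_lt ?_ h4
      refine mul_le_mul_of_nonneg_right ?_ (norm_nonneg _)
      exact mul_le_mul_of_nonneg_left (min_le_right _ _) two_pos.le
  have hst : |s * τ| ≤ 1 / 2 := by rwa [abs_mul, abs_of_pos hs]
  have h4 : 1 / 2 ≤ 1 + s * τ := by
    have := neg_abs_le (s * τ)
    linarith
  have h5 : 0 < 1 + s * τ := by linarith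
  have h6 : s / (1 + s * τ) * ‖v‖ < r := by
    refine lt_of_le_of_lt (mul_le_mul_of_nonneg_right ?_ (norm_nonneg _)) h3
    rw [div_le_iff₀ h5]
    nlinarith
  have h7 := hD (v + τ • p) s hs h1
  have h8 := hD v (s / (1 + s * τ)) (by positivity) h6
  have h9 : p + s • (v + τ • p) = (1 + s * τ) • (p + (s / (1 + s * τ)) • v) := by
    rw [smul_add, smul_add, add_smul, smul_smul (1 + s * τ), mul_div_cancel₀ _ h5.ne', one_smul,
      smul_smul]
    abel
  rw [h9, hC _ h5, h8, smul_add, smul_smul, mul_div_cancel₀ _ h5.ne', add_smul, one_smul] at h7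
  have h10 : s • (D v + τ • C p) = s • D (v + τ • p) := by
    have h11 : C p + s • (D v + τ • C p) = C p + s • D (v + τ • p) := by
      rw [← h7, smul_add, smul_smul]
      abel
    exact add_left_cancel h11
  exact (smul_right_injective _ hs.ne' h10).symm

end Run7.h858.Coord
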