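import Mathlib
import Pool.Agent.Run7.h858.CoordCone

set_option autoImplicit false

namespace Run7.h858.Coord

open Metric
open scoped NNReal Topology

/-- inclusion of `E n` in `E (n+1)` -/
noncomputable def inc (n : ℕ) : E n →L[ℝ] E (n + 1) :=
  LinearMap.toContinuousLinearMap
    { toFun := fun x => WithLp.toLp 2 (Fin.snoc (α := fun _ => ℝ) (fun i => x i) 0)
      map_add' := fun x y => by
        ext i
        refine Fin.lastCases ?_ (fun j => ?_) i <;> simp
      map_smul' := fun c x => by
        ext i
        refine Fin.lastCases ?_ (fun j => ?_) i <;> simp }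

theorem inc_castSucc {n : ℕ} (x : E n) (i : Fin n) : inc n x i.castSucc = x i :=
  Fin.snoc_castSucc (α := fun _ => ℝ) _ _ _

theorem inc_last {n : ℕ} (x : E n) : inc n x (Fin.last n) = 0 :=
  Fin.snoc_last (α := fun _ => ℝ) _ _

/-- projection of `E (n+1)` to `E n` -/
noncomputable def prj (n : ℕ) : E (n + 1) →L[ℝ] E n :=
  LinearMap.toContinuousLinearMap
    { toFun := fun x => WithLp.toLp 2 (fun i => x (Fin.castSucc i))
      map_add' := fun x y => by
        ext i
        simp
      map_smul' := fun c x => by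
        ext i
        simp }

theorem prj_apply {n : ℕ} (x : E (n + 1)) (i : Fin n) : prj n x i = x i.castSucc := rfl

/-- last unit vector -/
noncomputable def el (n : ℕ) : E (n + 1) := EuclideanSpace.single (Fin.last n) 1

theorem el_last (n : ℕ) : el n (Fin.last n) = 1 := by simp [el]

theorem el_castSucc {n : ℕ} (i : Fin n) : el n i.castSucc = 0 := by
  simp [el, (Fin.castSucc_lt_last i).ne]

theorem inc_prj {n : ℕ} (x : E (n + 1)) : inc n (prj n x) + x (Fin.last n) • el n = x := by
  ext i
  refine Fin.lastCases ?_ (fun j => ?_) i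
  · rw [PiLp.add_apply, inc_last, PiLp.smul_apply, el_last]
    simp
  · rw [PiLp.add_apply, inc_castSucc, PiLp.smul_apply, el_castSucc, prj_apply]
    simp

theorem prj_inc {n : ℕ} (x : E n) : prj n (inc n x) = x := by
  ext i
  rw [prj_apply, inc_castSucc]

theorem prj_el (n : ℕ) : prj n (el n) = 0 := by
  ext i
  rw [prj_apply, el_castSucc]
  rfl

theorem ext_last {n : ℕ} {x y : E (n + 1)} (h1 : prj n x = prj n y)
    (h2 : x (Fin.last n) = y (Fin.last n)) : x = y := by
  rw [← inc_prj x, ← inc_prj y, h1, h2]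

/-- The product `g × id`. -/
noncomputable def prodH {n : ℕ} (g : E n ≃ₜ E n) : E (n + 1) ≃ₜ E (n + 1) where
  toFun x := inc n (g (prj n x)) + x (Fin.last n) • el n
  invFun x := inc n (g.symm (prj n x)) + x (Fin.last n) • el n
  left_inv x := by
    refine ext_last ?_ ?_
    · simp only [map_add, map_smul, prj_inc, prj_el, smul_zero, add_zero, g.symm_apply_apply]
    · simp only [PiLp.add_apply, PiLp.smul_apply, inc_last, el_last, zero_add, smul_eq_mul, mul_one]
  right_inv x := by
    refine ext_last ?_ ?_
    · simp only [map_add, map_smul, prj_inc, prj_el, smul_zero, add_zero, g.apply_symm_apply]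
    · simp only [PiLp.add_apply, PiLp.smul_apply, inc_last, el_last, zero_add, smul_eq_mul, mul_one]
  continuous_toFun := by
    refine ((inc n).continuous.comp (g.continuous.comp (prj n).continuous)).add ?_
    exact (continuous_coord (Fin.last n)).smul continuous_const
  continuous_invFun := by
    refine ((inc n).continuous.comp (g.symm.continuous.comp (prj n).continuous)).add ?_
    exact (continuous_coord (Fin.last n)).smul continuous_const

theorem prodH_prj {n : ℕ} (g : E n ≃ₜ E n) (x : E (n + 1)) :
    prj n (prodH g x) = g (prj n x) := by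
  show prj n (inc n (g (prj n x)) + x (Fin.last n) • el n) = _
  simp only [map_add, map_smul, prj_inc, prj_el, smul_zero, add_zero]

theorem prodH_last {n : ℕ} (g : E n ≃ₜ E n) (x : E (n + 1)) :
    prodH g x (Fin.last n) = x (Fin.last n) := by
  show (inc n (g (prj n x)) + x (Fin.last n) • el n) (Fin.last n) = _
  simp only [PiLp.add_apply, PiLp.smul_apply, inc_last, el_last, zero_add, smul_eq_mul, mul_one]

noncomputable def prodHom (n : ℕ) : (E n ≃ₜ E n) →* (E (n + 1) ≃ₜ E (n + 1)) where
  toFun := prodH
  map_one' := by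
    ext1 x
    refine ext_last ?_ ?_
    · rw [prodH_prj]
      rfl
    · rw [prodH_last]
      rfl
  map_mul' g h := by
    ext1 x
    refine ext_last ?_ ?_
    · rw [Homeomorph.mul_apply, prodH_prj, prodH_prj, prodH_prj, Homeomorph.mul_apply]
    · rw [Homeomorph.mul_apply, prodH_last, prodH_last, prodH_last]

theorem prodH_mem_closure {n : ℕ} {g : E n ≃ₜ E n} (hg : g ∈ Subgroup.closure (SA n)) :
    prodH g ∈ Subgroup.closure (SA (n + 1)) := by
  have h1 : Subgroup.closure (SA n) ≤ (Subgroup.closure (SA (n + 1))).comap (prodHom n) := by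
    rw [Subgroup.closure_le]
    rintro s ⟨i, f, hf, hs⟩
    refine Subgroup.subset_closure (mem_SA_of _ i.castSucc fun x j hj => ?_)
    show prodH s x j = x j
    revert hj
    refine Fin.lastCases ?_ (fun l => ?_) j
    · intro _
      exact prodH_last s x
    · intro hl
      have h2 := prodH_prj s x
      have h3 := congrArg (fun y : E n => y l) h2
      simp only [prj_apply] at h3
      rw [h3, (hs _).2 l (fun h => hl (by rw [h])), prj_apply]
  exact h1 hg

theorem dist_prodH {n : ℕ} (g h : E n ≃ₜ E n) (x : E (n + 1)) :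
    dist (prodH g x) (prodH h x) = dist (g (prj n x)) (h (prj n x)) := by
  show dist (inc n (g (prj n x)) + x (Fin.last n) • el n)
    (inc n (h (prj n x)) + x (Fin.last n) • el n) = _
  rw [dist_add_right, EuclideanSpace.dist_eq, EuclideanSpace.dist_eq, Fin.sum_univ_castSucc]
  simp only [inc_castSucc, inc_last, dist_self]
  norm_num

theorem norm_prj_le {n : ℕ} (x : E (n + 1)) : ‖prj n x‖ ≤ ‖x‖ := by
  rw [EuclideanSpace.norm_eq, EuclideanSpace.norm_eq, Fin.sum_univ_castSucc]
  refine Real.sqrt_le_sqrt ?_
  simp only [prj_apply]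
  have := sq_nonneg ‖x (Fin.last n)‖
  linarith

theorem norm_inc {n : ℕ} (x : E n) : ‖inc n x‖ = ‖x‖ := by
  rw [EuclideanSpace.norm_eq, EuclideanSpace.norm_eq, Fin.sum_univ_castSucc]
  simp only [inc_castSucc, inc_last]
  norm_num

theorem prodH_mem {n : ℕ} {g : E n ≃ₜ E n} (hg : g ∈ GA n) : prodH g ∈ GA (n + 1) := by
  rw [mem_clos, approx_iff] at *
  intro R ε hε
  obtain ⟨s, hs, hp⟩ := hg R ε hε
  refine ⟨prodH s, prodH_mem_closure hs, fun p hpB => ?_⟩
  rw [dist_prodH]
  refine hp _ ?_
  rw [mem_closedBall_zero_iff] at *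
  exact (norm_prj_le p).trans hpB

/-- reduction of the dimension -/
theorem reduce {n : ℕ} (ih : ∀ C : E n ≃ₜ E n, Hom C → LC C → C ∈ GA n)
    (F : E (n + 1) ≃ₜ E (n + 1)) (hF : Hom F) (hL : LC F)
    (hT : ∀ (v : E (n + 1)) (τ : ℝ), F (v + τ • el n) = F v + τ • el n) : F ∈ GA (n + 1) := by
  have hT' : ∀ (v : E (n + 1)) (τ : ℝ), F.symm (v + τ • el n) = F.symm v + τ • el n := by
    intro v τ
    obtain ⟨w, rfl⟩ := F.surjective v
    rw [← hT, F.symm_apply_apply, F.symm_apply_apply]
  have hdec : ∀ x : E (n + 1), inc n (prj n x) = x + (-x (Fin.last n)) • el n := by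
    intro x
    conv_rhs => rw [← inc_prj x]
    rw [neg_smul]
    have h1 : (inc n (prj n x) + x (Fin.last n) • el n) (Fin.last n) = x (Fin.last n) := by
      rw [inc_prj]
    rw [h1]
    abel
  let A : E n ≃ₜ E n :=
    { toFun := fun x => prj n (F (inc n x))
      invFun := fun x => prj n (F.symm (inc n x))
      left_inv := fun x => by
        show prj n (F.symm (inc n (prj n (F (inc n x))))) = x
        rw [hdec, hT', F.symm_apply_apply, map_add, map_smul, prj_inc, prj_el, smul_zero, add_zero]
      right_inv := fun x => by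
        show prj n (F (inc n (prj n (F.symm (inc n x))))) = x
        rw [hdec, hT, F.apply_symm_apply, map_add, map_smul, prj_inc, prj_el, smul_zero, add_zero]
      continuous_toFun := (prj n).continuous.comp (F.continuous.comp (inc n).continuous)
      continuous_invFun := (prj n).continuous.comp (F.symm.continuous.comp (inc n).continuous) }
  have hA : ∀ x, A x = prj n (F (inc n x)) := fun _ => rfl
  have hAH : Hom A := by
    intro t ht x
    rw [hA, hA, map_smul, hF t ht, map_smul]
  have hAL : LC A := by
    intro p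
    obtain ⟨r, hr, hc⟩ := hL (inc n p)
    refine ⟨r, hr, fun v hv t ht0 ht1 => ?_⟩
    have h1 := hc (inc n v) (by rwa [norm_inc]) t ht0 ht1
    rw [hA, hA, hA, map_add (inc n) p (t • v), map_smul (inc n), h1, map_add (prj n),
      map_smul (prj n), map_sub (prj n), map_add (inc n) p v]
  have hAm := prodH_mem (ih A hAH hAL)
  have hS : F * (prodH A)⁻¹ ∈ SA (n + 1) := by
    refine mem_SA_of _ (Fin.last n) fun x j hj => ?_
    obtain ⟨y, rfl⟩ := (prodH A).surjective x
    rw [Homeomorph.mul_apply, Homeomorph.inv_apply, Homeomorph.symm_apply_apply]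
    have h1 : prj n (F y) = prj n (prodH A y) := by
      rw [prodH_prj, hA]
      conv_lhs => rw [← inc_prj y]
      rw [hT, map_add, map_smul, prj_el, smul_zero, add_zero]
    revert hj
    refine Fin.lastCases ?_ (fun l => ?_) j
    · intro h
      exact absurd rfl h
    · intro _
      exact congrArg (fun z : E n => z l) h1
  have h2 : F = (F * (prodH A)⁻¹) * prodH A := by group
  rw [h2]
  exact Subgroup.mul_mem _ (le_clos (Subgroup.subset_closure hS)) hAm

theorem linear_mem {n : ℕ} (A : E n ≃L[ℝ] E n) : A.toHomeomorph ∈ GA n := by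
  obtain ⟨g, hg, hgx⟩ := exists_linear A
  have : A.toHomeomorph = g := by
    ext1 x
    rw [hgx]
    rfl
  rw [this]
  exact le_clos hg

/-- Homogeneous locally conical homeomorphisms are approximable. -/
theorem hom_lc_mem (n : ℕ) : ∀ C : E n ≃ₜ E n, Hom C → LC C → C ∈ GA n := by
  induction n with
  | zero =>
    intro C _ _
    have h1 : C = 1 := by
      ext1 x
      exact Subsingleton.elim _ _
    rw [h1]
    exact Subgroup.one_mem _
  | succ n ih =>
    intro C hC hL
    refine hom_local_to_global C hC fun p hp => ?_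
    obtain ⟨D, r, hr, hD⟩ := exists_cone (hL p)
    have hDH := cone_hom hr hD
    have hDL := cone_lc hL hr hD
    have hDT := cone_translate hC hr hD
    refine ⟨D, ?_, hDH, ?_⟩
    · have hCp : C p ≠ 0 := hC.ne_zero hp
      have hel : el n ≠ 0 := by
        intro h
        have h1 := el_last n
        rw [h] at h1
        simp at h1
      obtain ⟨L₁, hL₁⟩ := SeparatingDual.exists_continuousLinearEquiv_apply_eq (R := ℝ) hel hp
      obtain ⟨L₂, hL₂⟩ := SeparatingDual.exists_continuousLinearEquiv_apply_eq (R := ℝ) hCp hel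
      have h1 : L₂.toHomeomorph * D * L₁.toHomeomorph ∈ GA (n + 1) := by
        refine reduce ih _ ?_ ?_ ?_
        · intro t ht x
          show L₂ (D (L₁ (t • x))) = t • L₂ (D (L₁ x))
          rw [map_smul, hDH t ht, map_smul]
        · intro q
          have h2 : Con (fun x => D (L₁ x)) q :=
            Con.comp (g := L₁) (con_of_linear (L₁ : E (n + 1) →L[ℝ] E (n + 1)) q) (hDL _)
              L₁.continuous.continuousAt
          exact Con.comp (f := L₂) h2 (con_of_linear (L₂ : E (n + 1) →L[ℝ] E (n + 1)) _)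
            (D.continuous.comp L₁.continuous).continuousAt
        · intro v τ
          show L₂ (D (L₁ (v + τ • el n))) = L₂ (D (L₁ v)) + τ • el n
          rw [map_add, map_smul, hL₁, hDT, map_add, map_smul, hL₂]
      have h3 : D = (L₂.toHomeomorph)⁻¹ * (L₂.toHomeomorph * D * L₁.toHomeomorph) *
          (L₁.toHomeomorph)⁻¹ := by group
      rw [h3]
      exact Subgroup.mul_mem _ (Subgroup.mul_mem _ (Subgroup.inv_mem _ (linear_mem L₂)) h1)
        (Subgroup.inv_mem _ (linear_mem L₁))
    · filter_upwards [ball_mem_nhds p hr] with x hx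
      have h1 := hD (x - p) 1 one_pos (by rw [one_mul, ← dist_eq_norm]; exact mem_ball.1 hx)
      rw [one_smul, one_smul, add_sub_cancel] at h1
      have h2 := hDT (x - p) 1
      rw [one_smul, one_smul, sub_add_cancel] at h2
      rw [h1, h2]
      abel

theorem translation_mem {n : ℕ} (a : E n) : ∃ g ∈ GA n, ∀ x, g x = x + a := by
  obtain ⟨g, hg, hgx⟩ := mem_of_lipschitz (n := n) (c := 0) (u := fun _ => a)
    (LipschitzWith.const _) zero_lt_one
  exact ⟨g, le_clos hg, hgx⟩

/-- **Locally conical homeomorphisms are approximable by type A maps.** -/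
theorem lc_mem {n : ℕ} (h : E n ≃ₜ E n) (hL : LC h) : h ∈ GA n := by
  refine local_to_global h fun p => ?_
  obtain ⟨D, r, hr, hD⟩ := exists_cone (hL p)
  have hDm := hom_lc_mem n D (cone_hom hr hD) (cone_lc hL hr hD)
  obtain ⟨t₁, ht₁, h1⟩ := translation_mem (-p)
  obtain ⟨t₂, ht₂, h2⟩ := translation_mem (h p)
  refine ⟨t₂ * D * t₁, Subgroup.mul_mem _ (Subgroup.mul_mem _ ht₂ hDm) ht₁, ?_⟩
  filter_upwards [ball_mem_nhds p hr] with x hx
  have h3 := hD (x - p) 1 one_pos (by rw [one_mul, ← dist_eq_norm]; exact mem_ball.1 hx)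
  rw [one_smul, one_smul, add_sub_cancel] at h3
  rw [Homeomorph.mul_apply, Homeomorph.mul_apply, h1, h2, h3, ← sub_eq_add_neg]
  abel

end Run7.h858.Coord
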