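import Mathlib
import Pool.Agent.Run7.h858.CoordPL
import Pool.Agent.Run7.h858.CoordDim

set_option autoImplicit false

namespace Run7.h858.Coord

open Metric
open scoped Topology

theorem lc_of_isPL {n : ℕ} (h : E n ≃ₜ E n) (hPL : IsPL h) : LC h := by
  intro p
  obtain ⟨P, hcov, haff⟩ := hPL (closedBall p 1) isBounded_closedBall
  have hev : ∀ᶠ x in 𝓝 p, ∀ s ∈ P, p ∉ convexHull ℝ (s : Set (E n)) →
      x ∉ convexHull ℝ (s : Set (E n)) := by
    rw [Filter.eventually_all_finset]
    intro s _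
    by_cases hp : p ∈ convexHull ℝ (s : Set (E n))
    · exact Filter.Eventually.of_forall fun x hx => absurd hp hx
    · have hc : IsClosed (convexHull ℝ (s : Set (E n))) :=
        (s.finite_toSet.isCompact_convexHull ℝ).isClosed
      filter_upwards [hc.isOpen_compl.mem_nhds hp] with x hx _
      exact hx
  obtain ⟨r, hr, hrx⟩ := Metric.eventually_nhds_iff_ball.1 hev
  refine ⟨min r 1, lt_min hr one_pos, fun v hv t ht0 ht1 => ?_⟩
  have hv1 : p + v ∈ closedBall p 1 := by
    rw [mem_closedBall, dist_eq_norm, add_sub_cancel_left]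
    exact (hv.trans_le (min_le_right _ _)).le
  have hv2 : p + v ∈ ball p r := by
    rw [mem_ball, dist_eq_norm, add_sub_cancel_left]
    exact hv.trans_le (min_le_left _ _)
  obtain ⟨s, hs, hx⟩ := hcov _ hv1
  have hps : p ∈ convexHull ℝ (s : Set (E n)) := by
    by_contra hcon
    exact hrx _ hv2 s hs hcon hx
  obtain ⟨A, hA⟩ := haff s hs
  have hpt : p + t • v ∈ convexHull ℝ (s : Set (E n)) := by
    have h1 := (convex_convexHull ℝ (s : Set (E n))).add_smul_sub_mem hps hx ⟨ht0, ht1⟩
    rwa [add_sub_cancel_left] at h1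
  rw [hA _ hpt, hA _ hps, hA _ hx]
  have h1 : ∀ w : E n, A (p + w) = A p + A.linear w := by
    intro w
    rw [add_comm p w, ← vadd_eq_add, A.map_vadd, vadd_eq_add, add_comm]
  rw [h1, h1, map_smul, add_sub_cancel_left]

theorem mem_GA_of_PLApproximable {n : ℕ} {h : E n ≃ₜ E n} (H : PLApproximable h) :
    h ∈ GA n := by
  refine mem_clos_of_approx fun B hB ε hε => ?_
  obtain ⟨g, hg, δ, hδ, hp⟩ := H B hB ε hε
  exact ⟨g, lc_mem g (lc_of_isPL g hg), δ, hδ, hp⟩

end Run7.h858.Coord
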