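import Mathlib
import Pool.Agent.Run7.h858.CoordClos

set_option autoImplicit false

namespace Run7.h858.Coord

open Metric

/-! ### changing one coordinate -/

/-- The point `x` with the coordinate `i` replaced by `t`. -/
noncomputable def upd {n : ℕ} (i : Fin n) (x : E n) (t : ℝ) : E n :=
  WithLp.toLp 2 fun k => if k = i then t else x k

theorem upd_apply {n : ℕ} (i : Fin n) (x : E n) (t : ℝ) (k : Fin n) :
    upd i x t k = if k = i then t else x k := rfl

@[simp] theorem upd_same {n : ℕ} (i : Fin n) (x : E n) (t : ℝ) : upd i x t i = t := by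
  rw [upd_apply, if_pos rfl]

theorem upd_ne {n : ℕ} {i k : Fin n} (h : k ≠ i) (x : E n) (t : ℝ) : upd i x t k = x k := by
  rw [upd_apply, if_neg h]

@[simp] theorem upd_upd {n : ℕ} (i : Fin n) (x : E n) (s t : ℝ) :
    upd i (upd i x s) t = upd i x t := by
  ext k
  by_cases h : k = i
  · simp [upd_apply, h]
  · simp [upd_apply, h]

@[simp] theorem upd_self {n : ℕ} (i : Fin n) (x : E n) : upd i x (x i) = x := by
  ext k
  by_cases h : k = i
  · simp [upd_apply, h]
  · simp [upd_apply, h]

theorem eq_upd {n : ℕ} {i : Fin n} {x y : E n} (h : ∀ l, l ≠ i → y l = x l) :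
    y = upd i x (y i) := by
  ext k
  by_cases hk : k = i
  · simp [upd_apply, hk]
  · simp [upd_apply, hk, h k hk]

theorem continuous_upd {n : ℕ} (i : Fin n) {X : Type*} [TopologicalSpace X] {f : X → E n}
    {t : X → ℝ} (hf : Continuous f) (ht : Continuous t) :
    Continuous fun x => upd i (f x) (t x) := by
  refine continuous_of_coord fun k => ?_
  by_cases hk : k = i
  · simpa [upd_apply, hk] using ht
  · simpa [upd_apply, hk, Function.comp_def] using (continuous_coord k).comp hf

/-- A homeomorphism changing the coordinate `i` only, given by `F`, with inverse given by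
`F'`. -/
noncomputable def coordH {n : ℕ} (i : Fin n) (F F' : E n → ℝ) (hF : Continuous F)
    (hF' : Continuous F') (h1 : ∀ x, F' (upd i x (F x)) = x i)
    (h2 : ∀ x, F (upd i x (F' x)) = x i) : E n ≃ₜ E n where
  toFun x := upd i x (F x)
  invFun x := upd i x (F' x)
  left_inv x := by
    show upd i (upd i x (F x)) (F' (upd i x (F x))) = x
    rw [h1, upd_upd, upd_self]
  right_inv x := by
    show upd i (upd i x (F' x)) (F (upd i x (F' x))) = x
    rw [h2, upd_upd, upd_self]
  continuous_toFun := continuous_upd i continuous_id hF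
  continuous_invFun := continuous_upd i continuous_id hF'

theorem coordH_apply {n : ℕ} (i : Fin n) (F F' : E n → ℝ) (hF : Continuous F)
    (hF' : Continuous F') (h1 : ∀ x, F' (upd i x (F x)) = x i)
    (h2 : ∀ x, F (upd i x (F' x)) = x i) (x : E n) :
    coordH i F F' hF hF' h1 h2 x = upd i x (F x) := rfl

theorem dist_coord {n : ℕ} {i : Fin n} {p q : E n} (h : ∀ l, l ≠ i → p l = q l) :
    dist p q = |p i - q i| := by
  rw [EuclideanSpace.dist_eq, Finset.sum_eq_single i]
  · rw [Real.dist_eq, sq_abs, Real.sqrt_sq_eq_abs]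
  · intro l _ hl
    rw [h l hl, dist_self]
    norm_num
  · intro h
    exact absurd (Finset.mem_univ i) h

theorem abs_coord_le {n : ℕ} (p : E n) (i : Fin n) : |p i| ≤ ‖p‖ := by
  have := EuclideanSpace.norm_eq p
  rw [this, ← Real.sqrt_sq_eq_abs]
  refine Real.sqrt_le_sqrt ?_
  rw [← sq_abs, ← Real.norm_eq_abs]
  exact Finset.single_le_sum (f := fun i => ‖p i‖ ^ 2) (fun _ _ => sq_nonneg _)
    (Finset.mem_univ i)

/-! ### the group generated by type B maps -/

theorem mem_SB_of (g : E 3 ≃ₜ E 3)
    (h : ∀ (k : Fin 3) (p q : E 3), (∀ l, l ≠ k → p l = q l) → g p k = g q k) : g ∈ SB := by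
  have hc : ∀ v : ℝ × ℝ → Fin 3 → ℝ, Continuous v →
      Continuous fun a => g (WithLp.toLp 2 (v a)) := fun v hv =>
    g.continuous.comp ((PiLp.continuous_toLp 2 _).comp hv)
  refine ⟨fun a => g (WithLp.toLp 2 ![0, a.1, a.2]) 0, fun a => g (WithLp.toLp 2 ![a.1, 0, a.2]) 1,
    fun a => g (WithLp.toLp 2 ![a.1, a.2, 0]) 2, (continuous_coord 0).comp (hc _ ?_),
    (continuous_coord 1).comp (hc _ ?_), (continuous_coord 2).comp (hc _ ?_),
    fun p => ⟨h 0 _ _ ?_, h 1 _ _ ?_, h 2 _ _ ?_⟩⟩
  · refine continuous_pi fun l => ?_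
    fin_cases l
    · exact continuous_const
    · exact continuous_fst
    · exact continuous_snd
  · refine continuous_pi fun l => ?_
    fin_cases l
    · exact continuous_fst
    · exact continuous_const
    · exact continuous_snd
  · refine continuous_pi fun l => ?_
    fin_cases l
    · exact continuous_fst
    · exact continuous_snd
    · exact continuous_const
  · intro l hl
    fin_cases l
    · exact absurd rfl hl
    · rfl
    · rfl
  · intro l hl
    fin_cases l
    · rfl
    · exact absurd rfl hl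
    · rfl
  · intro l hl
    fin_cases l
    · rfl
    · rfl
    · exact absurd rfl hl

/-- Permutation of the coordinates. -/
noncomputable def permH {n : ℕ} (σ : Equiv.Perm (Fin n)) : E n ≃ₜ E n where
  toFun x := WithLp.toLp 2 fun k => x (σ k)
  invFun x := WithLp.toLp 2 fun k => x (σ.symm k)
  left_inv x := by
    ext k
    simp
  right_inv x := by
    ext k
    simp
  continuous_toFun := continuous_of_coord fun k => continuous_coord (σ k)
  continuous_invFun := continuous_of_coord fun k => continuous_coord (σ.symm k)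

theorem permH_apply {n : ℕ} (σ : Equiv.Perm (Fin n)) (x : E n) (k : Fin n) :
    permH σ x k = x (σ k) := rfl

/-- A homeomorphism changing the coordinate `i` only, by a function of the coordinates `i` and
`j` only, is a composition of type B maps. -/
theorem two_mem (i j : Fin 3) (hij : i ≠ j) (g : E 3 ≃ₜ E 3) (hg : ∀ p l, l ≠ i → g p l = p l)
    (h2 : ∀ p q : E 3, p i = q i → p j = q j → g p i = g q i) :
    g ∈ Subgroup.closure SB := by
  obtain ⟨σ, hσ, hσi⟩ : ∃ σ : Equiv.Perm (Fin 3), (∀ m, σ m ≠ m) ∧ σ j ≠ i := by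
    clear h2 hg
    revert i j
    decide
  have h1 : permH σ ∈ SB := mem_SB_of _ fun k p q hpq => hpq _ (hσ k)
  have h3 : permH σ * g ∈ SB := by
    refine mem_SB_of _ fun k p q hpq => ?_
    rw [Homeomorph.mul_apply, Homeomorph.mul_apply, permH_apply, permH_apply]
    by_cases hk : σ k = i
    · rw [hk]
      refine h2 p q (hpq _ ?_) (hpq _ ?_)
      · rw [← hk]
        exact hσ k
      · rintro rfl
        exact hσi hk
    · rw [hg p _ hk, hg q _ hk]
      exact hpq _ (hσ k)
  have h4 : g = (permH σ)⁻¹ * (permH σ * g) := by group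
  rw [h4]
  exact Subgroup.mul_mem _ (Subgroup.inv_mem _ (Subgroup.subset_closure h1))
    (Subgroup.subset_closure h3)

/-- `p_j ↦ α p_j + β p_k` -/
noncomputable def linH (j k : Fin 3) (hjk : k ≠ j) (α β : ℝ) (hα : α ≠ 0) : E 3 ≃ₜ E 3 :=
  coordH j (fun p => α * p j + β * p k) (fun p => α⁻¹ * (p j - β * p k))
    ((continuous_const.mul (continuous_coord j)).add (continuous_const.mul (continuous_coord k)))
    (continuous_const.mul
      ((continuous_coord j).sub (continuous_const.mul (continuous_coord k))))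
    (fun x => by
      rw [upd_same, upd_ne hjk]
      field_simp
      ring)
    (fun x => by
      rw [upd_same, upd_ne hjk]
      field_simp
      ring)

theorem linH_mem (j k : Fin 3) (hjk : k ≠ j) (α β : ℝ) (hα : α ≠ 0) :
    linH j k hjk α β hα ∈ Subgroup.closure SB := by
  refine two_mem j k hjk.symm _ (fun p l hl => ?_) fun p q h1 h2 => ?_
  · rw [linH, coordH_apply, upd_ne hl]
  · rw [linH, coordH_apply, coordH_apply, upd_same, upd_same, h1, h2]

theorem linH_same (j k : Fin 3) (hjk : k ≠ j) (α β : ℝ) (hα : α ≠ 0) (p : E 3) :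
    linH j k hjk α β hα p j = α * p j + β * p k := by
  rw [linH, coordH_apply, upd_same]

theorem linH_ne (j k : Fin 3) (hjk : k ≠ j) (α β : ℝ) (hα : α ≠ 0) (p : E 3) {l : Fin 3}
    (hl : l ≠ j) : linH j k hjk α β hα p l = p l := by
  rw [linH, coordH_apply, upd_ne hl]

/-- ridge functions -/
theorem ridge_mem (i j k : Fin 3) (hij : i ≠ j) (hik : i ≠ k) (hjk : k ≠ j) (α β : ℝ)
    (F : ℝ → ℝ → ℝ) (g : E 3 ≃ₜ E 3) (hg : ∀ p l, l ≠ i → g p l = p l)
    (h2 : ∀ p, g p i = F (p i) (α * p j + β * p k)) : g ∈ Subgroup.closure SB := by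
  by_cases hα : α = 0
  · refine two_mem i k hik g hg fun p q h3 h4 => ?_
    rw [h2, h2, hα, h3, h4]
    simp
  · have hL := linH_mem j k hjk α β hα
    set L := linH j k hjk α β hα with hLdef
    have h3 : L * g * L⁻¹ ∈ Subgroup.closure SB := by
      have hLi : ∀ p, (L * g * L⁻¹) p i = F (p i) (p j) := by
        intro p
        obtain ⟨x, rfl⟩ := L.surjective p
        rw [Homeomorph.mul_apply, Homeomorph.mul_apply, Homeomorph.inv_apply,
          L.symm_apply_apply, hLdef, linH_ne _ _ _ _ _ _ _ hij, h2, linH_ne _ _ _ _ _ _ _ hij,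
          linH_same]
      refine two_mem i j hij _ (fun p l hl => ?_) fun p q h4 h5 => ?_
      · obtain ⟨x, rfl⟩ := L.surjective p
        rw [Homeomorph.mul_apply, Homeomorph.mul_apply, Homeomorph.inv_apply, L.symm_apply_apply]
        by_cases hlj : l = j
        · subst hlj
          rw [hLdef, linH_same, linH_same, hg _ _ hij.symm, hg _ _ hik.symm]
        · rw [hLdef, linH_ne _ _ _ _ _ _ _ hlj, linH_ne _ _ _ _ _ _ _ hlj, hg _ _ hl]
      · rw [hLi, hLi, h4, h5]
    have h5 : g = L⁻¹ * (L * g * L⁻¹) * L := by group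
    rw [h5]
    exact Subgroup.mul_mem _ (Subgroup.mul_mem _ (Subgroup.inv_mem _ hL) h3) hL

end Run7.h858.Coord
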