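import Mathlib
import Pool.Agent.Run7.h858.CoordB

set_option autoImplicit false

namespace Run7.h858.Coord

open Metric

/-- The maps `z ↦ z + ψ(x,y)` and the maps which multiply `z - a`, for `z > a`, by
`exp (ψ(x,y))`, are limits of compositions of type B maps. -/
def Good (i j k : Fin 3) (ψ : ℝ × ℝ → ℝ) : Prop :=
  (∀ g : E 3 ≃ₜ E 3, (∀ p l, l ≠ i → g p l = p l) → (∀ p, g p i = p i + ψ (p j, p k)) →
    g ∈ clos (Subgroup.closure SB)) ∧
  ∀ (a : ℝ) (g : E 3 ≃ₜ E 3), (∀ p l, l ≠ i → g p l = p l) →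
    (∀ p, g p i = p i + (Real.exp (ψ (p j, p k)) - 1) * max (p i - a) 0) →
    g ∈ clos (Subgroup.closure SB)

theorem exists_addH {i j k : Fin 3} (hij : j ≠ i) (hik : k ≠ i) {ψ : ℝ × ℝ → ℝ}
    (hψ : Continuous ψ) : ∃ g : E 3 ≃ₜ E 3, (∀ p l, l ≠ i → g p l = p l) ∧
      (∀ p, g p i = p i + ψ (p j, p k)) := by
  have hc : Continuous fun p : E 3 => ψ (p j, p k) :=
    hψ.comp ((continuous_coord j).prodMk (continuous_coord k))
  refine ⟨coordH i (fun p => p i + ψ (p j, p k)) (fun p => p i - ψ (p j, p k))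
    ((continuous_coord i).add hc) ((continuous_coord i).sub hc) (fun x => ?_) (fun x => ?_),
    fun p l hl => ?_, fun p => ?_⟩
  · rw [upd_same, upd_ne hij, upd_ne hik]
    ring
  · rw [upd_same, upd_ne hij, upd_ne hik]
    ring
  · rw [coordH_apply, upd_ne hl]
  · rw [coordH_apply, upd_same]

theorem exists_scaleH {i j k : Fin 3} (hij : j ≠ i) (hik : k ≠ i) {ψ : ℝ × ℝ → ℝ}
    (hψ : Continuous ψ) (a : ℝ) : ∃ g : E 3 ≃ₜ E 3, (∀ p l, l ≠ i → g p l = p l) ∧
      (∀ p, g p i = p i + (Real.exp (ψ (p j, p k)) - 1) * max (p i - a) 0) := by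
  have hc : Continuous fun p : E 3 => ψ (p j, p k) :=
    hψ.comp ((continuous_coord j).prodMk (continuous_coord k))
  have key : ∀ s t : ℝ, t + (Real.exp s - 1) * max (t - a) 0 +
      (Real.exp (-s) - 1) * max (t + (Real.exp s - 1) * max (t - a) 0 - a) 0 = t := by
    intro s t
    have h1 : Real.exp (-s) * Real.exp s = 1 := by rw [← Real.exp_add]; simp
    rcases le_or_gt t a with h | h
    · rw [max_eq_right (by linarith : t - a ≤ 0), mul_zero, add_zero,
        max_eq_right (by linarith : t - a ≤ 0), mul_zero, add_zero]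
    · rw [max_eq_left (by linarith : 0 ≤ t - a)]
      have h2 : t + (Real.exp s - 1) * (t - a) - a = Real.exp s * (t - a) := by ring
      rw [h2, max_eq_left (mul_nonneg (Real.exp_pos _).le (by linarith))]
      have h3 : (Real.exp (-s) - 1) * (Real.exp s * (t - a)) =
          (Real.exp (-s) * Real.exp s) * (t - a) - Real.exp s * (t - a) := by ring
      rw [h3, h1]
      ring
  refine ⟨coordH i (fun p => p i + (Real.exp (ψ (p j, p k)) - 1) * max (p i - a) 0)
    (fun p => p i + (Real.exp (-ψ (p j, p k)) - 1) * max (p i - a) 0) ?_ ?_ (fun x => ?_)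
    (fun x => ?_), fun p l hl => ?_, fun p => ?_⟩
  · exact (continuous_coord i).add (((Real.continuous_exp.comp hc).sub continuous_const).mul
      (((continuous_coord i).sub continuous_const).max continuous_const))
  · exact (continuous_coord i).add (((Real.continuous_exp.comp hc.neg).sub continuous_const).mul
      (((continuous_coord i).sub continuous_const).max continuous_const))
  · rw [upd_same, upd_ne hij, upd_ne hik]
    exact key _ _
  · rw [upd_same, upd_ne hij, upd_ne hik]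
    have := key (-ψ (x j, x k)) (x i)
    rwa [neg_neg] at this
  · rw [coordH_apply, upd_ne hl]
  · rw [coordH_apply, upd_same]

theorem eq_of_coord {i : Fin 3} {g g' : E 3 ≃ₜ E 3} (h : ∀ p l, l ≠ i → g p l = p l)
    (h' : ∀ p l, l ≠ i → g' p l = p l) (hi : ∀ p, g p i = g' p i) : g = g' := by
  ext p l
  by_cases hl : l = i
  · subst hl
    exact hi p
  · rw [h p l hl, h' p l hl]

theorem good_ridge {i j k : Fin 3} (hij : j ≠ i) (hik : k ≠ i) (hjk : k ≠ j) (α β : ℝ)
    (φ : ℝ → ℝ) : Good i j k fun q => φ (α * q.1 + β * q.2) := by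
  refine ⟨fun g hg h => le_clos ?_, fun a g hg h => le_clos ?_⟩
  · exact ridge_mem i j k hij.symm hik.symm hjk α β (fun t s => t + φ s) g hg h
  · exact ridge_mem i j k hij.symm hik.symm hjk α β
      (fun t s => t + (Real.exp (φ s) - 1) * max (t - a) 0) g hg h

theorem good_add {i j k : Fin 3} (hij : j ≠ i) (hik : k ≠ i) {ψ₁ ψ₂ : ℝ × ℝ → ℝ}
    (h₁ : Continuous ψ₁) (h₂ : Continuous ψ₂) (H₁ : Good i j k ψ₁) (H₂ : Good i j k ψ₂) :
    Good i j k fun q => ψ₁ q + ψ₂ q := by
  constructor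
  · intro g hg h
    obtain ⟨g₁, hg₁, h1⟩ := exists_addH hij hik h₁
    obtain ⟨g₂, hg₂, h2⟩ := exists_addH hij hik h₂
    have : g = g₁ * g₂ := by
      refine eq_of_coord hg (fun p l hl => ?_) fun p => ?_
      · rw [Homeomorph.mul_apply, hg₁ _ _ hl, hg₂ _ _ hl]
      · rw [Homeomorph.mul_apply, h1, h2, hg₂ _ _ hij, hg₂ _ _ hik, h]
        ring
    rw [this]
    exact Subgroup.mul_mem _ (H₁.1 g₁ hg₁ h1) (H₂.1 g₂ hg₂ h2)
  · intro a g hg h
    obtain ⟨g₁, hg₁, h1⟩ := exists_scaleH hij hik h₁ a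
    obtain ⟨g₂, hg₂, h2⟩ := exists_scaleH hij hik h₂ a
    have : g = g₁ * g₂ := by
      refine eq_of_coord hg (fun p l hl => ?_) fun p => ?_
      · rw [Homeomorph.mul_apply, hg₁ _ _ hl, hg₂ _ _ hl]
      · rw [Homeomorph.mul_apply, h1, hg₂ _ _ hij, hg₂ _ _ hik, h, h2]
        rcases le_or_gt (p i) a with h3 | h3
        · rw [max_eq_right (by linarith : p i - a ≤ 0), mul_zero, mul_zero, add_zero,
            max_eq_right (by linarith : p i - a ≤ 0), mul_zero, add_zero]
        · rw [max_eq_left (by linarith : 0 ≤ p i - a)]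
          have h4 : p i + (Real.exp (ψ₂ (p j, p k)) - 1) * (p i - a) - a =
            Real.exp (ψ₂ (p j, p k)) * (p i - a) := by ring
          rw [h4, max_eq_left (mul_nonneg (Real.exp_pos _).le (by linarith)), Real.exp_add]
          ring
    rw [this]
    exact Subgroup.mul_mem _ (H₁.2 a g₁ hg₁ h1) (H₂.2 a g₂ hg₂ h2)

/-- Continuous functions of two variables are limits of good ones. -/
theorem good_dense {i j k : Fin 3} (hij : j ≠ i) (hik : k ≠ i) (hjk : k ≠ j)
    {ψ : ℝ × ℝ → ℝ} (hψ : Continuous ψ) (R : ℝ) {ε : ℝ} (hε : 0 < ε) :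
    ∃ ψ' : ℝ × ℝ → ℝ, Continuous ψ' ∧ Good i j k ψ' ∧
      ∀ q ∈ closedBall (0 : ℝ × ℝ) R, |ψ' q - ψ q| < ε := by
  set K : Set (ℝ × ℝ) := closedBall (0 : ℝ × ℝ) R with hK
  have : CompactSpace K := isCompact_iff_compactSpace.1 (isCompact_closedBall _ _)
  -- exponentials
  let ex : ℝ × ℝ → C(K, ℝ) := fun c =>
    ⟨fun q => Real.exp (c.1 * q.1.1 + c.2 * q.1.2), by fun_prop⟩
  let M : Submonoid C(K, ℝ) :=
    { carrier := Set.range ex
      one_mem' := ⟨0, by ext q; simp [ex]⟩
      mul_mem' := by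
        rintro _ _ ⟨c, rfl⟩ ⟨d, rfl⟩
        refine ⟨c + d, ?_⟩
        ext q
        simp only [ex, ContinuousMap.coe_mk, ContinuousMap.mul_apply, Prod.fst_add, Prod.snd_add]
        rw [← Real.exp_add]
        congr 1
        ring }
  have hM : (Submonoid.closure (Set.range ex) : Submonoid C(K, ℝ)) = M :=
    Submonoid.closure_eq M
  have hsep : (Algebra.adjoin ℝ (Set.range ex)).SeparatesPoints := by
    intro x y hxy
    have h1 : x.1 ≠ y.1 := fun h => hxy (Subtype.ext h)
    by_cases h2 : x.1.1 = y.1.1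
    · have h3 : x.1.2 ≠ y.1.2 := fun h => h1 (Prod.ext h2 h)
      refine ⟨_, ⟨ex (0, 1), Algebra.subset_adjoin ⟨_, rfl⟩, rfl⟩, ?_⟩
      simpa [ex] using h3
    · refine ⟨_, ⟨ex (1, 0), Algebra.subset_adjoin ⟨_, rfl⟩, rfl⟩, ?_⟩
      simpa [ex] using h2
  have hgood : ∀ f ∈ Algebra.adjoin ℝ (Set.range ex), ∀ c : ℝ, ∃ ψ' : ℝ × ℝ → ℝ,
      Continuous ψ' ∧ Good i j k ψ' ∧ ∀ q : K, ψ' q = c * f q := by
    intro f hf
    have hf' : f ∈ Submodule.span ℝ (Set.range ex) := by
      have h1 : f ∈ Subalgebra.toSubmodule (Algebra.adjoin ℝ (Set.range ex)) := hf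
      rw [Algebra.adjoin_eq_span, hM] at h1
      exact h1
    refine Submodule.span_induction (p := fun f _ => ∀ c : ℝ, ∃ ψ' : ℝ × ℝ → ℝ,
      Continuous ψ' ∧ Good i j k ψ' ∧ ∀ q : K, ψ' q = c * f q) ?_ ?_ ?_ ?_ hf'
    · rintro _ ⟨d, rfl⟩ c
      refine ⟨fun q => c * Real.exp (d.1 * q.1 + d.2 * q.2), by fun_prop, ?_, fun q => rfl⟩
      exact good_ridge hij hik hjk d.1 d.2 fun s => c * Real.exp s
    · intro c
      refine ⟨fun _ => 0, continuous_const, ?_, fun q => by simp⟩
      exact good_ridge hij hik hjk 0 0 fun _ => 0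
    · intro f₁ f₂ _ _ h1 h2 c
      obtain ⟨ψ₁, hc1, hg1, he1⟩ := h1 c
      obtain ⟨ψ₂, hc2, hg2, he2⟩ := h2 c
      refine ⟨fun q => ψ₁ q + ψ₂ q, hc1.add hc2, good_add hij hik hc1 hc2 hg1 hg2, fun q => ?_⟩
      show ψ₁ q + ψ₂ q = _
      rw [he1, he2, ContinuousMap.add_apply]
      ring
    · intro b f _ h1 c
      obtain ⟨ψ₁, hc1, hg1, he1⟩ := h1 (c * b)
      refine ⟨ψ₁, hc1, hg1, fun q => ?_⟩
      rw [he1, ContinuousMap.smul_apply, smul_eq_mul]
      ring
  let Ψ : C(K, ℝ) := ⟨fun q => ψ q, hψ.comp continuous_subtype_val⟩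
  obtain ⟨f, hf⟩ := ContinuousMap.exists_mem_subalgebra_near_continuousMap_of_separatesPoints
    (Algebra.adjoin ℝ (Set.range ex)) hsep Ψ ε hε
  obtain ⟨ψ', hc, hg, he⟩ := hgood f.1 f.2 1
  refine ⟨ψ', hc, hg, fun q hq => ?_⟩
  have h1 := (ContinuousMap.norm_lt_iff _ hε).1 hf ⟨q, hq⟩
  rw [ContinuousMap.sub_apply, Real.norm_eq_abs] at h1
  have h2 := he ⟨q, hq⟩
  rw [one_mul] at h2
  rw [h2]
  exact h1

/-- All continuous functions of two variables are good. -/
theorem good_of_continuous {i j k : Fin 3} (hij : j ≠ i) (hik : k ≠ i) (hjk : k ≠ j)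
    {ψ : ℝ × ℝ → ℝ} (hψ : Continuous ψ) : Good i j k ψ := by
  have hball : ∀ (R : ℝ) (p : E 3), p ∈ closedBall (0 : E 3) R →
      ((p j, p k) : ℝ × ℝ) ∈ closedBall (0 : ℝ × ℝ) R := by
    intro R p hp
    rw [mem_closedBall_zero_iff] at hp ⊢
    rw [Prod.norm_def]
    exact max_le ((abs_coord_le p j).trans hp) ((abs_coord_le p k).trans hp)
  constructor
  · intro g hg h
    refine mem_clos_of_approx (approx_iff.2 fun R ε hε => ?_)
    obtain ⟨ψ', hc, hgood, hq⟩ := good_dense hij hik hjk hψ R hε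
    obtain ⟨g', hg', h'⟩ := exists_addH hij hik hc
    refine ⟨g', hgood.1 g' hg' h', fun p hp => ?_⟩
    rw [dist_coord (i := i) fun l hl => by rw [hg' p l hl, hg p l hl], h', h]
    have := hq _ (hball R p hp)
    rwa [add_sub_add_left_eq_sub]
  · intro a g hg h
    refine mem_clos_of_approx (approx_iff.2 fun R ε hε => ?_)
    obtain ⟨C, hC⟩ := (isCompact_closedBall (0 : ℝ × ℝ) R).exists_bound_of_continuousOn
      (Real.continuous_exp.comp hψ).continuousOn
    set C' : ℝ := max C 1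
    have hC' : 0 < C' := lt_of_lt_of_le one_pos (le_max_right _ _)
    set D : ℝ := max (R + |a|) 1
    have hD : 0 < D := lt_of_lt_of_le one_pos (le_max_right _ _)
    obtain ⟨ψ', hc, hgood, hq⟩ := good_dense hij hik hjk hψ R
      (lt_min (show 0 < ε / (2 * C' * D) by positivity) one_pos)
    obtain ⟨g', hg', h'⟩ := exists_scaleH hij hik hc a
    refine ⟨g', hgood.2 a g' hg' h', fun p hp => ?_⟩
    rw [dist_coord (i := i) fun l hl => by rw [hg' p l hl, hg p l hl], h', h]
    have h1 := hq _ (hball R p hp)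
    have h2 := hC _ (hball R p hp)
    set u := ψ' (p j, p k)
    set v := ψ (p j, p k)
    have h3 : Real.exp v ≤ C' := by
      simp only [Function.comp_apply, Real.norm_eq_abs, Real.abs_exp] at h2
      exact h2.trans (le_max_left _ _)
    have h4 : |Real.exp u - Real.exp v| < C' * (2 * (ε / (2 * C' * D))) := by
      have h5 : Real.exp u - Real.exp v = Real.exp v * (Real.exp (u - v) - 1) := by
        rw [mul_sub, ← Real.exp_add]
        congr 2
        · ring
        · ring
      rw [h5, abs_mul, Real.abs_exp]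
      have h6 := Real.abs_exp_sub_one_le (x := u - v) (h1.le.trans (min_le_right _ _))
      calc Real.exp v * |Real.exp (u - v) - 1| ≤ C' * (2 * |u - v|) :=
            mul_le_mul h3 h6 (abs_nonneg _) hC'.le
        _ < C' * (2 * (ε / (2 * C' * D))) := by
            have := h1.trans_le (min_le_left _ _)
            nlinarith
    have h7 : |max (p i - a) 0| ≤ D := by
      rw [abs_of_nonneg (le_max_right _ _)]
      refine max_le ?_ hD.le
      have h8 := (abs_coord_le p i).trans (mem_closedBall_zero_iff.1 hp)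
      have h9 := le_abs_self (p i)
      have h10 := neg_abs_le a
      exact le_trans (by linarith) (le_max_left _ _)
    have h11 : p i + (Real.exp u - 1) * max (p i - a) 0 -
        (p i + (Real.exp v - 1) * max (p i - a) 0) =
        (Real.exp u - Real.exp v) * max (p i - a) 0 := by ring
    rw [h11, abs_mul]
    calc |Real.exp u - Real.exp v| * |max (p i - a) 0|
        ≤ |Real.exp u - Real.exp v| * D := mul_le_mul_of_nonneg_left h7 (abs_nonneg _)
      _ < C' * (2 * (ε / (2 * C' * D))) * D := mul_lt_mul_of_pos_right h4 hD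
      _ = ε := by field_simp

end Run7.h858.Coord
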