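import Mathlib
import Pool.Agent.Run7.h858.CoordB2
import Pool.Agent.Run7.h858.CoordSmooth

set_option autoImplicit false

namespace Run7.h858.Coord

open Metric

/-- changes the coordinate `i` only, and increasing in this coordinate -/
def IncIn (i : Fin 3) (g : E 3 ≃ₜ E 3) : Prop :=
  (∀ p l, l ≠ i → g p l = p l) ∧ ∀ x s t, s < t → g (upd i x s) i < g (upd i x t) i

theorem IncIn.le {i : Fin 3} {g : E 3 ≃ₜ E 3} (h : IncIn i g) (x : E 3) {s t : ℝ} (hst : s ≤ t) :
    g (upd i x s) i ≤ g (upd i x t) i := by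
  rcases hst.eq_or_lt with rfl | h1
  · exact le_rfl
  · exact (h.2 x s t h1).le

theorem IncIn.inv_coord {i : Fin 3} {g : E 3 ≃ₜ E 3} (h : IncIn i g) (y : E 3) (l : Fin 3)
    (hl : l ≠ i) : g.symm y l = y l := by
  obtain ⟨x, rfl⟩ := g.surjective y
  rw [g.symm_apply_apply, h.1 x l hl]

theorem third_eq {i j k : Fin 3} (hij : j ≠ i) (hik : k ≠ i) (hjk : k ≠ j) :
    ∀ l, l = i ∨ l = j ∨ l = k := by
  revert i j k
  decide

theorem incIn_step {i j k : Fin 3} (hij : j ≠ i) (hik : k ≠ i) (hjk : k ≠ j) {G : E 3 ≃ₜ E 3}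
    (hG : G ∈ clos (Subgroup.closure SB)) (hGi : IncIn i G) {a b : ℝ} (hab : a < b) {h : E 3 → ℝ}
    (hh : Continuous h) (hhi : ∀ p t, h (upd i p t) = h p) (hpos : ∀ p, G (upd i p a) i < h p) :
    ∃ G' ∈ clos (Subgroup.closure SB), IncIn i G' ∧ (∀ p, p i ≤ a → G' p = G p) ∧
      ∀ p, p i = b → G' p i = h p := by
  set lam : E 3 → ℝ := fun p => (G.symm (upd i p (h p)) i - a) / (b - a) with hlam
  have hba : 0 < b - a := by linarith
  have hlamc : Continuous lam :=
    (((continuous_coord i).comp (G.symm.continuous.comp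
      (continuous_upd i continuous_id hh))).sub continuous_const).div_const _
  have hsymm : ∀ p, G.symm (upd i p (h p)) = upd i p (G.symm (upd i p (h p)) i) := by
    intro p
    refine eq_upd fun l hl => ?_
    rw [hGi.inv_coord _ l hl, upd_ne hl]
  have hlampos : ∀ p, 0 < lam p := by
    intro p
    refine div_pos ?_ hba
    by_contra hcon
    push Not at hcon
    have h1 : G.symm (upd i p (h p)) i ≤ a := by linarith
    have h2 := hGi.le p h1
    rw [← hsymm, G.apply_symm_apply, upd_same] at h2
    exact absurd (hpos p) (not_lt.2 h2)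
  have hlami : ∀ p t, lam (upd i p t) = lam p := by
    intro p t
    simp only [hlam, upd_upd, hhi]
  let pt : ℝ × ℝ → E 3 := fun q => WithLp.toLp 2 fun l => if l = j then q.1 else
    if l = k then q.2 else 0
  have hptc : Continuous pt := by
    refine continuous_of_coord fun l => ?_
    show Continuous fun q : ℝ × ℝ => if l = j then q.1 else if l = k then q.2 else 0
    split_ifs
    · exact continuous_fst
    · exact continuous_snd
    · exact continuous_const
  have hpt : ∀ p : E 3, pt (p j, p k) = upd i p 0 := by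
    intro p
    ext l
    rcases third_eq hij hik hjk l with rfl | rfl | rfl
    · simp [pt, hij.symm, hik.symm]
    · simp [pt, upd_apply, hij]
    · simp [pt, upd_apply, hik, hjk]
  set ψ : ℝ × ℝ → ℝ := fun q => Real.log (lam (pt q)) with hψdef
  have hψ : Continuous ψ := (hlamc.comp hptc).log fun q => (hlampos _).ne'
  have hexp : ∀ p : E 3, Real.exp (ψ (p j, p k)) = lam p := by
    intro p
    simp only [hψdef]
    rw [Real.exp_log (hlampos _), hpt, hlami]
  obtain ⟨S, hS, hSi⟩ := exists_scaleH hij hik hψ a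
  have hSmem := (good_of_continuous hij hik hjk hψ).2 a S hS hSi
  have hSi' : ∀ p, S p i = p i + (lam p - 1) * max (p i - a) 0 := fun p => by
    rw [hSi, hexp]
  have hSupd : ∀ p, S p = upd i p (S p i) := fun p => eq_upd fun l hl => hS p l hl
  refine ⟨G * S, Subgroup.mul_mem _ hG hSmem, ⟨fun p l hl => ?_, fun x s t hst => ?_⟩,
    fun p hp => ?_, fun p hp => ?_⟩
  · rw [Homeomorph.mul_apply, hGi.1 _ l hl, hS p l hl]
  · rw [Homeomorph.mul_apply, Homeomorph.mul_apply, hSupd (upd i x s), hSupd (upd i x t), upd_upd,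
      upd_upd]
    refine hGi.2 x _ _ ?_
    rw [hSi', hSi', upd_same, upd_same, hlami, hlami]
    have h1 := hlampos x
    rcases le_or_gt t a with h2 | h2
    · rw [max_eq_right (by linarith : s - a ≤ 0), max_eq_right (by linarith : t - a ≤ 0)]
      linarith
    · rw [max_eq_left (by linarith : 0 ≤ t - a)]
      rcases le_or_gt s a with h3 | h3
      · rw [max_eq_right (by linarith : s - a ≤ 0)]
        nlinarith
      · rw [max_eq_left (by linarith : 0 ≤ s - a)]
        nlinarith
  · rw [Homeomorph.mul_apply]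
    congr 1
    rw [hSupd, hSi', max_eq_right (by linarith : p i - a ≤ 0), mul_zero, add_zero, upd_self]
  · rw [Homeomorph.mul_apply, hSupd, hSi', hp, max_eq_left hba.le]
    have h1 : b + (lam p - 1) * (b - a) = G.symm (upd i p (h p)) i := by
      simp only [hlam]
      field_simp
      ring
    rw [h1, ← hsymm, G.apply_symm_apply, upd_same]

theorem incIn_grid {i j k : Fin 3} (hij : j ≠ i) (hik : k ≠ i) (hjk : k ≠ j) {f : E 3 ≃ₜ E 3}
    (hf : IncIn i f) {z₀ d : ℝ} (hd : 0 < d) (m : ℕ) :
    ∃ G ∈ clos (Subgroup.closure SB), IncIn i G ∧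
      ∀ m' : ℕ, m' ≤ m → ∀ p, p i = z₀ + m' * d → G p i = f p i := by
  induction m with
  | zero =>
    let pt : ℝ × ℝ → E 3 := fun q => WithLp.toLp 2 fun l => if l = j then q.1 else
      if l = k then q.2 else z₀
    have hptc : Continuous pt := by
      refine continuous_of_coord fun l => ?_
      show Continuous fun q : ℝ × ℝ => if l = j then q.1 else if l = k then q.2 else z₀
      split_ifs
      · exact continuous_fst
      · exact continuous_snd
      · exact continuous_const
    have hpt : ∀ p : E 3, pt (p j, p k) = upd i p z₀ := by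
      intro p
      ext l
      rcases third_eq hij hik hjk l with rfl | rfl | rfl
      · simp [pt, hij.symm, hik.symm]
      · simp [pt, upd_apply, hij]
      · simp [pt, upd_apply, hik, hjk]
    have hψ : Continuous fun q => f (pt q) i - z₀ :=
      ((continuous_coord i).comp (f.continuous.comp hptc)).sub continuous_const
    obtain ⟨G, hG, hGi⟩ := exists_addH hij hik hψ
    refine ⟨G, (good_of_continuous hij hik hjk hψ).1 G hG hGi, ⟨hG, fun x s t hst => ?_⟩,
      fun m' hm' p hp => ?_⟩
    · rw [hGi, hGi, hpt, hpt, upd_same, upd_same, upd_upd, upd_upd]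
      linarith
    · have h0 : m' = 0 := by omega
      subst h0
      have hp' : p i = z₀ := by simpa using hp
      rw [hGi, hpt]
      have : upd i p z₀ = p := by
        rw [← hp']
        exact upd_self i p
      rw [this, hp']
      ring
  | succ m ih =>
    obtain ⟨G, hG, hGi, hGf⟩ := ih
    have hc : Continuous fun p : E 3 => f (upd i p (z₀ + (m + 1 : ℕ) * d)) i :=
      (continuous_coord i).comp (f.continuous.comp (continuous_upd i continuous_id
        continuous_const))
    obtain ⟨G', hG', hG'i, h1, h2⟩ := incIn_step hij hik hjk hG hGi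
      (a := z₀ + m * d) (b := z₀ + (m + 1 : ℕ) * d) (by push_cast; nlinarith) hc
      (fun p t => by rw [upd_upd]) (fun p => by
        rw [hGf m le_rfl _ (upd_same i p _)]
        exact hf.2 p _ _ (by push_cast; nlinarith))
    refine ⟨G', hG', hG'i, fun m' hm' p hp => ?_⟩
    rcases Nat.lt_or_ge m m' with h3 | h3
    · have h4 : m' = m + 1 := by omega
      subst h4
      rw [h2 p hp]
      have : upd i p (z₀ + (m + 1 : ℕ) * d) = p := by
        rw [← hp]
        exact upd_self i p
      rw [this]
    · rw [h1 p ?_]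
      · exact hGf m' h3 p hp
      · rw [hp]
        have : (m' : ℝ) ≤ m := by exact_mod_cast h3
        nlinarith

theorem mem_of_incIn {i j k : Fin 3} (hij : j ≠ i) (hik : k ≠ i) (hjk : k ≠ j) {f : E 3 ≃ₜ E 3}
    (hf : IncIn i f) : f ∈ clos (Subgroup.closure SB) := by
  refine mem_clos_of_approx (approx_iff.2 fun R₀ ε hε => ?_)
  set R : ℝ := max R₀ 0 with hRdef
  have hR : 0 ≤ R := le_max_right _ _
  have huc := (isCompact_closedBall (0 : E 3) (3 * R + 1)).uniformContinuousOn_of_continuous
    f.continuous.continuousOn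
  rw [Metric.uniformContinuousOn_iff] at huc
  obtain ⟨δ, hδ, hu⟩ := huc ε hε
  set d : ℝ := min (δ / 2) 1 with hd
  have hd0 : 0 < d := lt_min (by positivity) one_pos
  have hd1 : d ≤ 1 := min_le_right _ _
  have hdδ : d < δ := (min_le_left _ _).trans_lt (by linarith)
  set N : ℕ := ⌊2 * R / d⌋₊ + 1 with hN
  obtain ⟨G, hG, hGi, hGf⟩ := incIn_grid hij hik hjk hf (z₀ := -R) hd0 N
  refine ⟨G, hG, fun p hp => ?_⟩
  rw [mem_closedBall_zero_iff] at hp
  have hpR : ‖p‖ ≤ R := hp.trans (le_max_left _ _)
  have hpi := (abs_coord_le p i).trans hpR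
  rw [abs_le] at hpi
  set m : ℕ := ⌊(p i + R) / d⌋₊ with hm
  have hmN : m + 1 ≤ N := by
    rw [hN, Nat.add_le_add_iff_right]
    exact Nat.floor_le_floor (div_le_div_of_nonneg_right (by linarith) hd0.le)
  have hm1 : -R + m * d ≤ p i := by
    have h1 : (m : ℝ) ≤ (p i + R) / d := Nat.floor_le (div_nonneg (by linarith) hd0.le)
    rw [le_div_iff₀ hd0] at h1
    linarith
  have hm2 : p i ≤ -R + (m + 1 : ℕ) * d := by
    have h1 : (p i + R) / d < m + 1 := Nat.lt_floor_add_one _
    rw [div_lt_iff₀ hd0] at h1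
    push_cast
    linarith
  have h1 : G p i ≤ f (upd i p (-R + (m + 1 : ℕ) * d)) i := by
    have := hGi.le p hm2
    rwa [upd_self, hGf (m + 1) hmN _ (upd_same _ _ _)] at this
  have h2 : f (upd i p (-R + m * d)) i ≤ G p i := by
    have := hGi.le p hm1
    rwa [upd_self, hGf m (by omega) _ (upd_same _ _ _)] at this
  have h3 : f p i ≤ f (upd i p (-R + (m + 1 : ℕ) * d)) i := by
    have := hf.le p hm2
    rwa [upd_self] at this
  have h4 : f (upd i p (-R + m * d)) i ≤ f p i := by
    have := hf.le p hm1
    rwa [upd_self] at this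
  have hnorm : ∀ t : ℝ, |t| ≤ R + 1 → upd i p t ∈ closedBall (0 : E 3) (3 * R + 1) := by
    intro t ht
    rw [mem_closedBall_zero_iff]
    have h5 : dist (upd i p t) 0 ≤ dist (upd i p t) p + dist p 0 := dist_triangle _ _ _
    rw [dist_coord (i := i) fun l hl => upd_ne hl p t, upd_same, dist_zero_right,
      dist_zero_right] at h5
    have h6 : |t - p i| ≤ |t| + |p i| := abs_sub _ _
    have h7 := (abs_coord_le p i).trans hpR
    linarith
  have h5 : dist (f (upd i p (-R + (m + 1 : ℕ) * d))) (f (upd i p (-R + m * d))) < ε := by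
    refine hu _ (hnorm _ ?_) _ (hnorm _ ?_) ?_
    · rw [abs_le]
      push_cast at hm2 ⊢
      constructor
      · linarith
      · linarith
    · rw [abs_le]
      push_cast at hm2
      constructor
      · linarith
      · linarith
    · rw [dist_coord (i := i) fun l hl => by rw [upd_ne hl, upd_ne hl], upd_same, upd_same]
      push_cast
      rw [show -R + ((m : ℝ) + 1) * d - (-R + m * d) = d by ring, abs_of_pos hd0]
      exact hdδ
  rw [dist_coord (i := i) fun l hl => by rw [hGi.1 p l hl, hf.1 p l hl]]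
  have h6 : f (upd i p (-R + (m + 1 : ℕ) * d)) i - f (upd i p (-R + m * d)) i < ε := by
    refine lt_of_le_of_lt ?_ h5
    rw [dist_eq_norm]
    have h7 := abs_coord_le (f (upd i p (-R + (m + 1 : ℕ) * d)) - f (upd i p (-R + m * d))) i
    rw [PiLp.sub_apply] at h7
    exact (le_abs_self _).trans h7
  rw [abs_lt]
  constructor
  · linarith
  · linarith

theorem SA_le_clos_SB : ∀ s ∈ SA 3, s ∈ clos (Subgroup.closure SB) := by
  rintro s ⟨i, f, hf, hs⟩
  obtain ⟨j, k, hij, hik, hjk⟩ : ∃ j k : Fin 3, j ≠ i ∧ k ≠ i ∧ k ≠ j := by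
    clear hs
    revert i
    decide
  have hg : ∀ x l, l ≠ i → s x l = x l := fun x => (hs x).2
  have hei : ∀ (x : E 3) (a b : ℝ), upd i x b = upd i x a + ei i (b - a) := by
    intro x a b
    ext l
    by_cases hl : l = i
    · subst hl
      simp [ei]
    · simp [ei, upd_apply, hl]
  rcases mono_or_anti i s hg with h | h
  · refine mem_of_incIn hij hik hjk ⟨hg, fun x a b hab => ?_⟩
    rw [hei x a b]
    exact h _ _ (by linarith)
  · have h1 : s = (reflH i)⁻¹ * (reflH i * s) := by group
    rw [h1]
    refine Subgroup.mul_mem _ (Subgroup.inv_mem _ (le_clos (two_mem i j hij.symm _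
      (fun p l hl => ?_) fun p q hp _ => ?_))) (mem_of_incIn hij hik hjk
      ⟨fun p l hl => ?_, fun x a b hab => ?_⟩)
    · rw [reflH_apply, if_neg hl, one_mul]
    · rw [reflH_apply, reflH_apply, hp]
    · rw [Homeomorph.mul_apply, reflH_apply, if_neg hl, one_mul, hg p l hl]
    · rw [Homeomorph.mul_apply, Homeomorph.mul_apply, reflH_apply, reflH_apply, if_pos rfl,
        hei x a b]
      have := h (upd i x a) (b - a) (by linarith)
      linarith

/-- Homeomorphisms approximable by type A maps are approximable by type B maps. -/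
theorem clos_SA_le_clos_SB :
    clos (Subgroup.closure (SA 3)) ≤ clos (Subgroup.closure SB) := by
  intro h hh
  refine mem_clos_of_approx (approx_mono (G₁ := Subgroup.closure (SA 3)) ?_ hh)
  exact (Subgroup.closure_le _).2 SA_le_clos_SB

end Run7.h858.Coord
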