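import Mathlib

/-!
A group generated by `a, b` with `a² = b³ = (ab)⁵ = 1` has at most 60 elements
(a complete rewriting system, written out).
-/

set_option autoImplicit false
set_option linter.unusedVariables false
set_option linter.unusedSimpArgs false

namespace Run7.h858.Tri235

variable {Γ : Type*} [Group Γ]

/-- The sixty words. -/
def f (a b B : Γ) : ℕ → Γ
  | 0 => 1
  | 1 => a * 1
  | 2 => b * 1
  | 3 => B * 1
  | 4 => a * (b * 1)
  | 5 => a * (B * 1)
  | 6 => b * (a * 1)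
  | 7 => B * (a * 1)
  | 8 => a * (b * (a * 1))
  | 9 => a * (B * (a * 1))
  | 10 => b * (a * (b * 1))
  | 11 => b * (a * (B * 1))
  | 12 => B * (a * (b * 1))
  | 13 => B * (a * (B * 1))
  | 14 => a * (b * (a * (b * 1)))
  | 15 => a * (b * (a * (B * 1)))
  | 16 => a * (B * (a * (b * 1)))
  | 17 => a * (B * (a * (B * 1)))
  | 18 => b * (a * (b * (a * 1)))
  | 19 => b * (a * (B * (a * 1)))
  | 20 => B * (a * (b * (a * 1)))
  | 21 => B * (a * (B * (a * 1)))
  | 22 => a * (b * (a * (b * (a * 1))))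
  | 23 => a * (b * (a * (B * (a * 1))))
  | 24 => a * (B * (a * (b * (a * 1))))
  | 25 => a * (B * (a * (B * (a * 1))))
  | 26 => b * (a * (b * (a * (B * 1))))
  | 27 => b * (a * (B * (a * (b * 1))))
  | 28 => b * (a * (B * (a * (B * 1))))
  | 29 => B * (a * (b * (a * (b * 1))))
  | 30 => B * (a * (b * (a * (B * 1))))
  | 31 => B * (a * (B * (a * (b * 1))))
  | 32 => a * (b * (a * (B * (a * (b * 1)))))
  | 33 => a * (b * (a * (B * (a * (B * 1)))))
  | 34 => a * (B * (a * (b * (a * (b * 1)))))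
  | 35 => a * (B * (a * (b * (a * (B * 1)))))
  | 36 => b * (a * (b * (a * (B * (a * 1)))))
  | 37 => b * (a * (B * (a * (b * (a * 1)))))
  | 38 => B * (a * (b * (a * (B * (a * 1)))))
  | 39 => B * (a * (B * (a * (b * (a * 1)))))
  | 40 => a * (b * (a * (B * (a * (b * (a * 1))))))
  | 41 => a * (B * (a * (b * (a * (B * (a * 1))))))
  | 42 => b * (a * (b * (a * (B * (a * (b * 1))))))
  | 43 => b * (a * (b * (a * (B * (a * (B * 1))))))
  | 44 => b * (a * (B * (a * (b * (a * (b * 1))))))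
  | 45 => b * (a * (B * (a * (b * (a * (B * 1))))))
  | 46 => B * (a * (b * (a * (B * (a * (b * 1))))))
  | 47 => B * (a * (b * (a * (B * (a * (B * 1))))))
  | 48 => B * (a * (B * (a * (b * (a * (b * 1))))))
  | 49 => B * (a * (B * (a * (b * (a * (B * 1))))))
  | 50 => a * (b * (a * (B * (a * (b * (a * (b * 1)))))))
  | 51 => a * (b * (a * (B * (a * (b * (a * (B * 1)))))))
  | 52 => a * (B * (a * (b * (a * (B * (a * (b * 1)))))))
  | 53 => a * (B * (a * (b * (a * (B * (a * (B * 1)))))))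
  | 54 => b * (a * (B * (a * (b * (a * (B * (a * 1)))))))
  | 55 => B * (a * (b * (a * (B * (a * (b * (a * 1)))))))
  | 56 => a * (b * (a * (B * (a * (b * (a * (B * (a * 1))))))))
  | 57 => a * (B * (a * (b * (a * (B * (a * (b * (a * 1))))))))
  | 58 => b * (a * (B * (a * (b * (a * (B * (a * (b * 1))))))))
  | 59 => a * (b * (a * (B * (a * (b * (a * (B * (a * (b * 1)))))))))
  | _ => 1

section
variable {a b B : Γ}
theorem step_a
    (haa : ∀ z : Γ, a * (a * z) = z)
    (hbB : ∀ z : Γ, b * (B * z) = z)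
    (hBb : ∀ z : Γ, B * (b * z) = z)
    (hbb : ∀ z : Γ, b * (b * z) = B * z)
    (hBB : ∀ z : Γ, B * (B * z) = b * z)
    (R1 : ∀ z : Γ, b * (a * (b * (a * (b * z)))) = a * (B * (a * (B * (a * z)))))
    (R2 : ∀ z : Γ, B * (a * (B * (a * (B * z)))) = a * (b * (a * (b * (a * z)))))
    (R3 : ∀ z : Γ, a * (B * (a * (B * (a * (b * z))))) = b * (a * (b * (a * (B * z)))))
    (R4 : ∀ z : Γ, b * (a * (B * (a * (B * (a * z))))) = B * (a * (b * (a * (b * z)))))
    (R5 : ∀ z : Γ, a * (b * (a * (b * (a * (B * z))))) = B * (a * (B * (a * (b * z)))))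
    (R6 : ∀ z : Γ, B * (a * (b * (a * (b * (a * z))))) = b * (a * (B * (a * (B * z)))))
    (R7 : ∀ z : Γ, B * (a * (B * (a * (b * (a * (B * (a * z))))))) = a * (b * (a * (B * (a * (b * (a * (b * z))))))))
    (R8 : ∀ z : Γ, b * (a * (b * (a * (B * (a * (b * (a * z))))))) = a * (B * (a * (b * (a * (B * (a * (B * z))))))))
    (R9 : ∀ z : Γ, B * (a * (b * (a * (B * (a * (b * (a * (b * z)))))))) = b * (a * (B * (a * (b * (a * (B * (a * z))))))))
    (R10 : ∀ z : Γ, b * (a * (B * (a * (b * (a * (B * (a * (B * z)))))))) = B * (a * (b * (a * (B * (a * (b * (a * z))))))))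
    (R11 : ∀ z : Γ, B * (a * (b * (a * (B * (a * (b * (a * (B * z)))))))) = b * (a * (B * (a * (b * (a * (B * (a * (b * z)))))))))
    (R12 : ∀ z : Γ, b * (a * (B * (a * (b * (a * (B * (a * (b * (a * z))))))))) = a * (b * (a * (B * (a * (b * (a * (B * (a * (b * z)))))))))) :
    ∀ i < 60, ∃ j < 60, a * f a b B i = f a b B j := by
  intro i hi
  interval_cases i
  · exact ⟨1, by norm_num, rfl⟩
  · exact ⟨0, by norm_num, show a * (a * 1) = 1 by simp only [haa, hbB, hBb, hbb, hBB, R1, R2, R3, R4, R5, R6, R7, R8, R9, R10, R11, R12]⟩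
  · exact ⟨4, by norm_num, rfl⟩
  · exact ⟨5, by norm_num, rfl⟩
  · exact ⟨2, by norm_num, show a * (a * (b * 1)) = b * 1 by simp only [haa, hbB, hBb, hbb, hBB, R1, R2, R3, R4, R5, R6, R7, R8, R9, R10, R11, R12]⟩
  · exact ⟨3, by norm_num, show a * (a * (B * 1)) = B * 1 by simp only [haa, hbB, hBb, hbb, hBB, R1, R2, R3, R4, R5, R6, R7, R8, R9, R10, R11, R12]⟩
  · exact ⟨8, by norm_num, rfl⟩
  · exact ⟨9, by norm_num, rfl⟩
  · exact ⟨6, by norm_num, show a * (a * (b * (a * 1))) = b * (a * 1) by simp only [haa, hbB, hBb, hbb, hBB, R1, R2, R3, R4, R5, R6, R7, R8, R9, R10, R11, R12]⟩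
  · exact ⟨7, by norm_num, show a * (a * (B * (a * 1))) = B * (a * 1) by simp only [haa, hbB, hBb, hbb, hBB, R1, R2, R3, R4, R5, R6, R7, R8, R9, R10, R11, R12]⟩
  · exact ⟨14, by norm_num, rfl⟩
  · exact ⟨15, by norm_num, rfl⟩
  · exact ⟨16, by norm_num, rfl⟩
  · exact ⟨17, by norm_num, rfl⟩
  · exact ⟨10, by norm_num, show a * (a * (b * (a * (b * 1)))) = b * (a * (b * 1)) by simp only [haa, hbB, hBb, hbb, hBB, R1, R2, R3, R4, R5, R6, R7, R8, R9, R10, R11, R12]⟩
  · exact ⟨11, by norm_num, show a * (a * (b * (a * (B * 1)))) = b * (a * (B * 1)) by simp only [haa, hbB, hBb, hbb, hBB, R1, R2, R3, R4, R5, R6, R7, R8, R9, R10, R11, R12]⟩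
  · exact ⟨12, by norm_num, show a * (a * (B * (a * (b * 1)))) = B * (a * (b * 1)) by simp only [haa, hbB, hBb, hbb, hBB, R1, R2, R3, R4, R5, R6, R7, R8, R9, R10, R11, R12]⟩
  · exact ⟨13, by norm_num, show a * (a * (B * (a * (B * 1)))) = B * (a * (B * 1)) by simp only [haa, hbB, hBb, hbb, hBB, R1, R2, R3, R4, R5, R6, R7, R8, R9, R10, R11, R12]⟩
  · exact ⟨22, by norm_num, rfl⟩
  · exact ⟨23, by norm_num, rfl⟩
  · exact ⟨24, by norm_num, rfl⟩
  · exact ⟨25, by norm_num, rfl⟩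
  · exact ⟨18, by norm_num, show a * (a * (b * (a * (b * (a * 1))))) = b * (a * (b * (a * 1))) by simp only [haa, hbB, hBb, hbb, hBB, R1, R2, R3, R4, R5, R6, R7, R8, R9, R10, R11, R12]⟩
  · exact ⟨19, by norm_num, show a * (a * (b * (a * (B * (a * 1))))) = b * (a * (B * (a * 1))) by simp only [haa, hbB, hBb, hbb, hBB, R1, R2, R3, R4, R5, R6, R7, R8, R9, R10, R11, R12]⟩
  · exact ⟨20, by norm_num, show a * (a * (B * (a * (b * (a * 1))))) = B * (a * (b * (a * 1))) by simp only [haa, hbB, hBb, hbb, hBB, R1, R2, R3, R4, R5, R6, R7, R8, R9, R10, R11, R12]⟩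
  · exact ⟨21, by norm_num, show a * (a * (B * (a * (B * (a * 1))))) = B * (a * (B * (a * 1))) by simp only [haa, hbB, hBb, hbb, hBB, R1, R2, R3, R4, R5, R6, R7, R8, R9, R10, R11, R12]⟩
  · exact ⟨31, by norm_num, show a * (b * (a * (b * (a * (B * 1))))) = B * (a * (B * (a * (b * 1)))) by simp only [haa, hbB, hBb, hbb, hBB, R1, R2, R3, R4, R5, R6, R7, R8, R9, R10, R11, R12]⟩
  · exact ⟨32, by norm_num, rfl⟩
  · exact ⟨33, by norm_num, rfl⟩
  · exact ⟨34, by norm_num, rfl⟩
  · exact ⟨35, by norm_num, rfl⟩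
  · exact ⟨26, by norm_num, show a * (B * (a * (B * (a * (b * 1))))) = b * (a * (b * (a * (B * 1)))) by simp only [haa, hbB, hBb, hbb, hBB, R1, R2, R3, R4, R5, R6, R7, R8, R9, R10, R11, R12]⟩
  · exact ⟨27, by norm_num, show a * (a * (b * (a * (B * (a * (b * 1)))))) = b * (a * (B * (a * (b * 1)))) by simp only [haa, hbB, hBb, hbb, hBB, R1, R2, R3, R4, R5, R6, R7, R8, R9, R10, R11, R12]⟩
  · exact ⟨28, by norm_num, show a * (a * (b * (a * (B * (a * (B * 1)))))) = b * (a * (B * (a * (B * 1)))) by simp only [haa, hbB, hBb, hbb, hBB, R1, R2, R3, R4, R5, R6, R7, R8, R9, R10, R11, R12]⟩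
  · exact ⟨29, by norm_num, show a * (a * (B * (a * (b * (a * (b * 1)))))) = B * (a * (b * (a * (b * 1)))) by simp only [haa, hbB, hBb, hbb, hBB, R1, R2, R3, R4, R5, R6, R7, R8, R9, R10, R11, R12]⟩
  · exact ⟨30, by norm_num, show a * (a * (B * (a * (b * (a * (B * 1)))))) = B * (a * (b * (a * (B * 1)))) by simp only [haa, hbB, hBb, hbb, hBB, R1, R2, R3, R4, R5, R6, R7, R8, R9, R10, R11, R12]⟩
  · exact ⟨39, by norm_num, show a * (b * (a * (b * (a * (B * (a * 1)))))) = B * (a * (B * (a * (b * (a * 1))))) by simp only [haa, hbB, hBb, hbb, hBB, R1, R2, R3, R4, R5, R6, R7, R8, R9, R10, R11, R12]⟩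
  · exact ⟨40, by norm_num, rfl⟩
  · exact ⟨41, by norm_num, rfl⟩
  · exact ⟨36, by norm_num, show a * (B * (a * (B * (a * (b * (a * 1)))))) = b * (a * (b * (a * (B * (a * 1))))) by simp only [haa, hbB, hBb, hbb, hBB, R1, R2, R3, R4, R5, R6, R7, R8, R9, R10, R11, R12]⟩
  · exact ⟨37, by norm_num, show a * (a * (b * (a * (B * (a * (b * (a * 1))))))) = b * (a * (B * (a * (b * (a * 1))))) by simp only [haa, hbB, hBb, hbb, hBB, R1, R2, R3, R4, R5, R6, R7, R8, R9, R10, R11, R12]⟩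
  · exact ⟨38, by norm_num, show a * (a * (B * (a * (b * (a * (B * (a * 1))))))) = B * (a * (b * (a * (B * (a * 1))))) by simp only [haa, hbB, hBb, hbb, hBB, R1, R2, R3, R4, R5, R6, R7, R8, R9, R10, R11, R12]⟩
  · exact ⟨48, by norm_num, show a * (b * (a * (b * (a * (B * (a * (b * 1))))))) = B * (a * (B * (a * (b * (a * (b * 1)))))) by simp only [haa, hbB, hBb, hbb, hBB, R1, R2, R3, R4, R5, R6, R7, R8, R9, R10, R11, R12]⟩
  · exact ⟨49, by norm_num, show a * (b * (a * (b * (a * (B * (a * (B * 1))))))) = B * (a * (B * (a * (b * (a * (B * 1)))))) by simp only [haa, hbB, hBb, hbb, hBB, R1, R2, R3, R4, R5, R6, R7, R8, R9, R10, R11, R12]⟩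
  · exact ⟨50, by norm_num, rfl⟩
  · exact ⟨51, by norm_num, rfl⟩
  · exact ⟨52, by norm_num, rfl⟩
  · exact ⟨53, by norm_num, rfl⟩
  · exact ⟨42, by norm_num, show a * (B * (a * (B * (a * (b * (a * (b * 1))))))) = b * (a * (b * (a * (B * (a * (b * 1)))))) by simp only [haa, hbB, hBb, hbb, hBB, R1, R2, R3, R4, R5, R6, R7, R8, R9, R10, R11, R12]⟩
  · exact ⟨43, by norm_num, show a * (B * (a * (B * (a * (b * (a * (B * 1))))))) = b * (a * (b * (a * (B * (a * (B * 1)))))) by simp only [haa, hbB, hBb, hbb, hBB, R1, R2, R3, R4, R5, R6, R7, R8, R9, R10, R11, R12]⟩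
  · exact ⟨44, by norm_num, show a * (a * (b * (a * (B * (a * (b * (a * (b * 1)))))))) = b * (a * (B * (a * (b * (a * (b * 1)))))) by simp only [haa, hbB, hBb, hbb, hBB, R1, R2, R3, R4, R5, R6, R7, R8, R9, R10, R11, R12]⟩
  · exact ⟨45, by norm_num, show a * (a * (b * (a * (B * (a * (b * (a * (B * 1)))))))) = b * (a * (B * (a * (b * (a * (B * 1)))))) by simp only [haa, hbB, hBb, hbb, hBB, R1, R2, R3, R4, R5, R6, R7, R8, R9, R10, R11, R12]⟩
  · exact ⟨46, by norm_num, show a * (a * (B * (a * (b * (a * (B * (a * (b * 1)))))))) = B * (a * (b * (a * (B * (a * (b * 1)))))) by simp only [haa, hbB, hBb, hbb, hBB, R1, R2, R3, R4, R5, R6, R7, R8, R9, R10, R11, R12]⟩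
  · exact ⟨47, by norm_num, show a * (a * (B * (a * (b * (a * (B * (a * (B * 1)))))))) = B * (a * (b * (a * (B * (a * (B * 1)))))) by simp only [haa, hbB, hBb, hbb, hBB, R1, R2, R3, R4, R5, R6, R7, R8, R9, R10, R11, R12]⟩
  · exact ⟨56, by norm_num, rfl⟩
  · exact ⟨57, by norm_num, rfl⟩
  · exact ⟨54, by norm_num, show a * (a * (b * (a * (B * (a * (b * (a * (B * (a * 1))))))))) = b * (a * (B * (a * (b * (a * (B * (a * 1))))))) by simp only [haa, hbB, hBb, hbb, hBB, R1, R2, R3, R4, R5, R6, R7, R8, R9, R10, R11, R12]⟩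
  · exact ⟨55, by norm_num, show a * (a * (B * (a * (b * (a * (B * (a * (b * (a * 1))))))))) = B * (a * (b * (a * (B * (a * (b * (a * 1))))))) by simp only [haa, hbB, hBb, hbb, hBB, R1, R2, R3, R4, R5, R6, R7, R8, R9, R10, R11, R12]⟩
  · exact ⟨59, by norm_num, rfl⟩
  · exact ⟨58, by norm_num, show a * (a * (b * (a * (B * (a * (b * (a * (B * (a * (b * 1)))))))))) = b * (a * (B * (a * (b * (a * (B * (a * (b * 1)))))))) by simp only [haa, hbB, hBb, hbb, hBB, R1, R2, R3, R4, R5, R6, R7, R8, R9, R10, R11, R12]⟩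

theorem step_b
    (haa : ∀ z : Γ, a * (a * z) = z)
    (hbB : ∀ z : Γ, b * (B * z) = z)
    (hBb : ∀ z : Γ, B * (b * z) = z)
    (hbb : ∀ z : Γ, b * (b * z) = B * z)
    (hBB : ∀ z : Γ, B * (B * z) = b * z)
    (R1 : ∀ z : Γ, b * (a * (b * (a * (b * z)))) = a * (B * (a * (B * (a * z)))))
    (R2 : ∀ z : Γ, B * (a * (B * (a * (B * z)))) = a * (b * (a * (b * (a * z)))))
    (R3 : ∀ z : Γ, a * (B * (a * (B * (a * (b * z))))) = b * (a * (b * (a * (B * z)))))
    (R4 : ∀ z : Γ, b * (a * (B * (a * (B * (a * z))))) = B * (a * (b * (a * (b * z)))))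
    (R5 : ∀ z : Γ, a * (b * (a * (b * (a * (B * z))))) = B * (a * (B * (a * (b * z)))))
    (R6 : ∀ z : Γ, B * (a * (b * (a * (b * (a * z))))) = b * (a * (B * (a * (B * z)))))
    (R7 : ∀ z : Γ, B * (a * (B * (a * (b * (a * (B * (a * z))))))) = a * (b * (a * (B * (a * (b * (a * (b * z))))))))
    (R8 : ∀ z : Γ, b * (a * (b * (a * (B * (a * (b * (a * z))))))) = a * (B * (a * (b * (a * (B * (a * (B * z))))))))
    (R9 : ∀ z : Γ, B * (a * (b * (a * (B * (a * (b * (a * (b * z)))))))) = b * (a * (B * (a * (b * (a * (B * (a * z))))))))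
    (R10 : ∀ z : Γ, b * (a * (B * (a * (b * (a * (B * (a * (B * z)))))))) = B * (a * (b * (a * (B * (a * (b * (a * z))))))))
    (R11 : ∀ z : Γ, B * (a * (b * (a * (B * (a * (b * (a * (B * z)))))))) = b * (a * (B * (a * (b * (a * (B * (a * (b * z)))))))))
    (R12 : ∀ z : Γ, b * (a * (B * (a * (b * (a * (B * (a * (b * (a * z))))))))) = a * (b * (a * (B * (a * (b * (a * (B * (a * (b * z)))))))))) :
    ∀ i < 60, ∃ j < 60, b * f a b B i = f a b B j := by
  intro i hi
  interval_cases i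
  · exact ⟨2, by norm_num, rfl⟩
  · exact ⟨6, by norm_num, rfl⟩
  · exact ⟨3, by norm_num, show b * (b * 1) = B * 1 by simp only [haa, hbB, hBb, hbb, hBB, R1, R2, R3, R4, R5, R6, R7, R8, R9, R10, R11, R12]⟩
  · exact ⟨0, by norm_num, show b * (B * 1) = 1 by simp only [haa, hbB, hBb, hbb, hBB, R1, R2, R3, R4, R5, R6, R7, R8, R9, R10, R11, R12]⟩
  · exact ⟨10, by norm_num, rfl⟩
  · exact ⟨11, by norm_num, rfl⟩
  · exact ⟨7, by norm_num, show b * (b * (a * 1)) = B * (a * 1) by simp only [haa, hbB, hBb, hbb, hBB, R1, R2, R3, R4, R5, R6, R7, R8, R9, R10, R11, R12]⟩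
  · exact ⟨1, by norm_num, show b * (B * (a * 1)) = a * 1 by simp only [haa, hbB, hBb, hbb, hBB, R1, R2, R3, R4, R5, R6, R7, R8, R9, R10, R11, R12]⟩
  · exact ⟨18, by norm_num, rfl⟩
  · exact ⟨19, by norm_num, rfl⟩
  · exact ⟨12, by norm_num, show b * (b * (a * (b * 1))) = B * (a * (b * 1)) by simp only [haa, hbB, hBb, hbb, hBB, R1, R2, R3, R4, R5, R6, R7, R8, R9, R10, R11, R12]⟩
  · exact ⟨13, by norm_num, show b * (b * (a * (B * 1))) = B * (a * (B * 1)) by simp only [haa, hbB, hBb, hbb, hBB, R1, R2, R3, R4, R5, R6, R7, R8, R9, R10, R11, R12]⟩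
  · exact ⟨4, by norm_num, show b * (B * (a * (b * 1))) = a * (b * 1) by simp only [haa, hbB, hBb, hbb, hBB, R1, R2, R3, R4, R5, R6, R7, R8, R9, R10, R11, R12]⟩
  · exact ⟨5, by norm_num, show b * (B * (a * (B * 1))) = a * (B * 1) by simp only [haa, hbB, hBb, hbb, hBB, R1, R2, R3, R4, R5, R6, R7, R8, R9, R10, R11, R12]⟩
  · exact ⟨25, by norm_num, show b * (a * (b * (a * (b * 1)))) = a * (B * (a * (B * (a * 1)))) by simp only [haa, hbB, hBb, hbb, hBB, R1, R2, R3, R4, R5, R6, R7, R8, R9, R10, R11, R12]⟩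
  · exact ⟨26, by norm_num, rfl⟩
  · exact ⟨27, by norm_num, rfl⟩
  · exact ⟨28, by norm_num, rfl⟩
  · exact ⟨20, by norm_num, show b * (b * (a * (b * (a * 1)))) = B * (a * (b * (a * 1))) by simp only [haa, hbB, hBb, hbb, hBB, R1, R2, R3, R4, R5, R6, R7, R8, R9, R10, R11, R12]⟩
  · exact ⟨21, by norm_num, show b * (b * (a * (B * (a * 1)))) = B * (a * (B * (a * 1))) by simp only [haa, hbB, hBb, hbb, hBB, R1, R2, R3, R4, R5, R6, R7, R8, R9, R10, R11, R12]⟩
  · exact ⟨8, by norm_num, show b * (B * (a * (b * (a * 1)))) = a * (b * (a * 1)) by simp only [haa, hbB, hBb, hbb, hBB, R1, R2, R3, R4, R5, R6, R7, R8, R9, R10, R11, R12]⟩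
  · exact ⟨9, by norm_num, show b * (B * (a * (B * (a * 1)))) = a * (B * (a * 1)) by simp only [haa, hbB, hBb, hbb, hBB, R1, R2, R3, R4, R5, R6, R7, R8, R9, R10, R11, R12]⟩
  · exact ⟨17, by norm_num, show b * (a * (b * (a * (b * (a * 1))))) = a * (B * (a * (B * 1))) by simp only [haa, hbB, hBb, hbb, hBB, R1, R2, R3, R4, R5, R6, R7, R8, R9, R10, R11, R12]⟩
  · exact ⟨36, by norm_num, rfl⟩
  · exact ⟨37, by norm_num, rfl⟩
  · exact ⟨29, by norm_num, show b * (a * (B * (a * (B * (a * 1))))) = B * (a * (b * (a * (b * 1)))) by simp only [haa, hbB, hBb, hbb, hBB, R1, R2, R3, R4, R5, R6, R7, R8, R9, R10, R11, R12]⟩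
  · exact ⟨30, by norm_num, show b * (b * (a * (b * (a * (B * 1))))) = B * (a * (b * (a * (B * 1)))) by simp only [haa, hbB, hBb, hbb, hBB, R1, R2, R3, R4, R5, R6, R7, R8, R9, R10, R11, R12]⟩
  · exact ⟨31, by norm_num, show b * (b * (a * (B * (a * (b * 1))))) = B * (a * (B * (a * (b * 1)))) by simp only [haa, hbB, hBb, hbb, hBB, R1, R2, R3, R4, R5, R6, R7, R8, R9, R10, R11, R12]⟩
  · exact ⟨22, by norm_num, show b * (b * (a * (B * (a * (B * 1))))) = a * (b * (a * (b * (a * 1)))) by simp only [haa, hbB, hBb, hbb, hBB, R1, R2, R3, R4, R5, R6, R7, R8, R9, R10, R11, R12]⟩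
  · exact ⟨14, by norm_num, show b * (B * (a * (b * (a * (b * 1))))) = a * (b * (a * (b * 1))) by simp only [haa, hbB, hBb, hbb, hBB, R1, R2, R3, R4, R5, R6, R7, R8, R9, R10, R11, R12]⟩
  · exact ⟨15, by norm_num, show b * (B * (a * (b * (a * (B * 1))))) = a * (b * (a * (B * 1))) by simp only [haa, hbB, hBb, hbb, hBB, R1, R2, R3, R4, R5, R6, R7, R8, R9, R10, R11, R12]⟩
  · exact ⟨16, by norm_num, show b * (B * (a * (B * (a * (b * 1))))) = a * (B * (a * (b * 1))) by simp only [haa, hbB, hBb, hbb, hBB, R1, R2, R3, R4, R5, R6, R7, R8, R9, R10, R11, R12]⟩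
  · exact ⟨42, by norm_num, rfl⟩
  · exact ⟨43, by norm_num, rfl⟩
  · exact ⟨44, by norm_num, rfl⟩
  · exact ⟨45, by norm_num, rfl⟩
  · exact ⟨38, by norm_num, show b * (b * (a * (b * (a * (B * (a * 1)))))) = B * (a * (b * (a * (B * (a * 1))))) by simp only [haa, hbB, hBb, hbb, hBB, R1, R2, R3, R4, R5, R6, R7, R8, R9, R10, R11, R12]⟩
  · exact ⟨39, by norm_num, show b * (b * (a * (B * (a * (b * (a * 1)))))) = B * (a * (B * (a * (b * (a * 1))))) by simp only [haa, hbB, hBb, hbb, hBB, R1, R2, R3, R4, R5, R6, R7, R8, R9, R10, R11, R12]⟩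
  · exact ⟨23, by norm_num, show b * (B * (a * (b * (a * (B * (a * 1)))))) = a * (b * (a * (B * (a * 1)))) by simp only [haa, hbB, hBb, hbb, hBB, R1, R2, R3, R4, R5, R6, R7, R8, R9, R10, R11, R12]⟩
  · exact ⟨24, by norm_num, show b * (B * (a * (B * (a * (b * (a * 1)))))) = a * (B * (a * (b * (a * 1)))) by simp only [haa, hbB, hBb, hbb, hBB, R1, R2, R3, R4, R5, R6, R7, R8, R9, R10, R11, R12]⟩
  · exact ⟨53, by norm_num, show b * (a * (b * (a * (B * (a * (b * (a * 1))))))) = a * (B * (a * (b * (a * (B * (a * (B * 1))))))) by simp only [haa, hbB, hBb, hbb, hBB, R1, R2, R3, R4, R5, R6, R7, R8, R9, R10, R11, R12]⟩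
  · exact ⟨54, by norm_num, rfl⟩
  · exact ⟨46, by norm_num, show b * (b * (a * (b * (a * (B * (a * (b * 1))))))) = B * (a * (b * (a * (B * (a * (b * 1)))))) by simp only [haa, hbB, hBb, hbb, hBB, R1, R2, R3, R4, R5, R6, R7, R8, R9, R10, R11, R12]⟩
  · exact ⟨47, by norm_num, show b * (b * (a * (b * (a * (B * (a * (B * 1))))))) = B * (a * (b * (a * (B * (a * (B * 1)))))) by simp only [haa, hbB, hBb, hbb, hBB, R1, R2, R3, R4, R5, R6, R7, R8, R9, R10, R11, R12]⟩
  · exact ⟨48, by norm_num, show b * (b * (a * (B * (a * (b * (a * (b * 1))))))) = B * (a * (B * (a * (b * (a * (b * 1)))))) by simp only [haa, hbB, hBb, hbb, hBB, R1, R2, R3, R4, R5, R6, R7, R8, R9, R10, R11, R12]⟩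
  · exact ⟨49, by norm_num, show b * (b * (a * (B * (a * (b * (a * (B * 1))))))) = B * (a * (B * (a * (b * (a * (B * 1)))))) by simp only [haa, hbB, hBb, hbb, hBB, R1, R2, R3, R4, R5, R6, R7, R8, R9, R10, R11, R12]⟩
  · exact ⟨32, by norm_num, show b * (B * (a * (b * (a * (B * (a * (b * 1))))))) = a * (b * (a * (B * (a * (b * 1))))) by simp only [haa, hbB, hBb, hbb, hBB, R1, R2, R3, R4, R5, R6, R7, R8, R9, R10, R11, R12]⟩
  · exact ⟨33, by norm_num, show b * (B * (a * (b * (a * (B * (a * (B * 1))))))) = a * (b * (a * (B * (a * (B * 1))))) by simp only [haa, hbB, hBb, hbb, hBB, R1, R2, R3, R4, R5, R6, R7, R8, R9, R10, R11, R12]⟩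
  · exact ⟨34, by norm_num, show b * (B * (a * (B * (a * (b * (a * (b * 1))))))) = a * (B * (a * (b * (a * (b * 1))))) by simp only [haa, hbB, hBb, hbb, hBB, R1, R2, R3, R4, R5, R6, R7, R8, R9, R10, R11, R12]⟩
  · exact ⟨35, by norm_num, show b * (B * (a * (B * (a * (b * (a * (B * 1))))))) = a * (B * (a * (b * (a * (B * 1))))) by simp only [haa, hbB, hBb, hbb, hBB, R1, R2, R3, R4, R5, R6, R7, R8, R9, R10, R11, R12]⟩
  · exact ⟨41, by norm_num, show b * (a * (b * (a * (B * (a * (b * (a * (b * 1)))))))) = a * (B * (a * (b * (a * (B * (a * 1)))))) by simp only [haa, hbB, hBb, hbb, hBB, R1, R2, R3, R4, R5, R6, R7, R8, R9, R10, R11, R12]⟩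
  · exact ⟨52, by norm_num, show b * (a * (b * (a * (B * (a * (b * (a * (B * 1)))))))) = a * (B * (a * (b * (a * (B * (a * (b * 1))))))) by simp only [haa, hbB, hBb, hbb, hBB, R1, R2, R3, R4, R5, R6, R7, R8, R9, R10, R11, R12]⟩
  · exact ⟨58, by norm_num, rfl⟩
  · exact ⟨55, by norm_num, show b * (a * (B * (a * (b * (a * (B * (a * (B * 1)))))))) = B * (a * (b * (a * (B * (a * (b * (a * 1))))))) by simp only [haa, hbB, hBb, hbb, hBB, R1, R2, R3, R4, R5, R6, R7, R8, R9, R10, R11, R12]⟩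
  · exact ⟨50, by norm_num, show b * (b * (a * (B * (a * (b * (a * (B * (a * 1)))))))) = a * (b * (a * (B * (a * (b * (a * (b * 1))))))) by simp only [haa, hbB, hBb, hbb, hBB, R1, R2, R3, R4, R5, R6, R7, R8, R9, R10, R11, R12]⟩
  · exact ⟨40, by norm_num, show b * (B * (a * (b * (a * (B * (a * (b * (a * 1)))))))) = a * (b * (a * (B * (a * (b * (a * 1)))))) by simp only [haa, hbB, hBb, hbb, hBB, R1, R2, R3, R4, R5, R6, R7, R8, R9, R10, R11, R12]⟩
  · exact ⟨57, by norm_num, show b * (a * (b * (a * (B * (a * (b * (a * (B * (a * 1))))))))) = a * (B * (a * (b * (a * (B * (a * (b * (a * 1)))))))) by simp only [haa, hbB, hBb, hbb, hBB, R1, R2, R3, R4, R5, R6, R7, R8, R9, R10, R11, R12]⟩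
  · exact ⟨59, by norm_num, show b * (a * (B * (a * (b * (a * (B * (a * (b * (a * 1))))))))) = a * (b * (a * (B * (a * (b * (a * (B * (a * (b * 1))))))))) by simp only [haa, hbB, hBb, hbb, hBB, R1, R2, R3, R4, R5, R6, R7, R8, R9, R10, R11, R12]⟩
  · exact ⟨51, by norm_num, show b * (b * (a * (B * (a * (b * (a * (B * (a * (b * 1))))))))) = a * (b * (a * (B * (a * (b * (a * (B * 1))))))) by simp only [haa, hbB, hBb, hbb, hBB, R1, R2, R3, R4, R5, R6, R7, R8, R9, R10, R11, R12]⟩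
  · exact ⟨56, by norm_num, show b * (a * (b * (a * (B * (a * (b * (a * (B * (a * (b * 1)))))))))) = a * (b * (a * (B * (a * (b * (a * (B * (a * 1)))))))) by simp only [haa, hbB, hBb, hbb, hBB, R1, R2, R3, R4, R5, R6, R7, R8, R9, R10, R11, R12]⟩
end

theorem card_le (a b : Γ) (ha : a ^ 2 = 1) (hb : b ^ 3 = 1) (hab : (a * b) ^ 5 = 1)
    (hgen : Subgroup.closure {a, b} = ⊤) : ∃ s : Finset Γ, s.card ≤ 60 ∧ ∀ x : Γ, x ∈ s := by
  classical
  set B : Γ := b⁻¹ with hB
  have haa : ∀ z : Γ, a * (a * z) = z := fun z => by rw [← mul_assoc, ← sq, ha, one_mul]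
  have hainv : a⁻¹ = a := by
    rw [inv_eq_iff_mul_eq_one, ← sq, ha]
  have hbB : ∀ z : Γ, b * (B * z) = z := fun z => by rw [hB, mul_inv_cancel_left]
  have hBb : ∀ z : Γ, B * (b * z) = z := fun z => by rw [hB, inv_mul_cancel_left]
  have hb2 : b * b = B := by
    rw [hB, eq_inv_iff_mul_eq_one, ← hb]; simp only [pow_succ, pow_zero, one_mul]
  have hbb : ∀ z : Γ, b * (b * z) = B * z := fun z => by rw [← mul_assoc, hb2]
  have hB2 : B * B = b := by
    rw [← hb2]
    have : b * b * (b * b) = b ^ 3 * b := by simp only [pow_succ, pow_zero, one_mul, mul_assoc]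
    rw [this, hb, one_mul]
  have hBB : ∀ z : Γ, B * (B * z) = b * z := fun z => by rw [← mul_assoc, hB2]
  have r1 : b * a * b * a * b = a * B * a * B * a := by
    have h1 : (a * b * a * b * a) * (b * a * b * a * b) = 1 := by
      rw [← hab]; simp only [pow_succ, pow_zero, one_mul, mul_assoc]
    have h2 : b * a * b * a * b = (a * b * a * b * a)⁻¹ := (inv_eq_of_mul_eq_one_right h1).symm
    rw [h2]
    simp only [mul_inv_rev, hainv, ← hB, mul_assoc]
  have R1 : ∀ z : Γ, b * (a * (b * (a * (b * z)))) = a * (B * (a * (B * (a * z)))) := fun z => by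
    have := congrArg (· * z) r1
    simpa only [mul_assoc] using this
  have r2 : B * a * B * a * B = a * b * a * b * a := by
    have hBi : B⁻¹ = b := by rw [hB, inv_inv]
    have := congrArg (·⁻¹) r1
    simpa only [mul_inv_rev, hainv, ← hB, mul_assoc, hBi] using this
  have R2 : ∀ z : Γ, B * (a * (B * (a * (B * z)))) = a * (b * (a * (b * (a * z)))) := fun z => by
    have := congrArg (· * z) r2
    simpa only [mul_assoc] using this

  have R3 : ∀ z : Γ, a * (B * (a * (B * (a * (b * z))))) = b * (a * (b * (a * (B * z)))) := fun z => by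
    rw [← R1, hbb]
  have R4 : ∀ z : Γ, b * (a * (B * (a * (B * (a * z))))) = B * (a * (b * (a * (b * z)))) := fun z => by
    rw [← R1, hbb]
  have R5 : ∀ z : Γ, a * (b * (a * (b * (a * (B * z))))) = B * (a * (B * (a * (b * z)))) := fun z => by
    rw [← R2, hBB]
  have R6 : ∀ z : Γ, B * (a * (b * (a * (b * (a * z))))) = b * (a * (B * (a * (B * z)))) := fun z => by
    rw [← R2, hBB]
  have R7 : ∀ z : Γ, B * (a * (B * (a * (b * (a * (B * (a * z))))))) = a * (b * (a * (B * (a * (b * (a * (b * z))))))) := fun z =>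
    calc B * (a * (B * (a * (b * (a * (B * (a * z)))))))
      _ = a * (b * (a * (b * (a * (B * (a * (B * (a * z)))))))) := by rw [← R5]
      _ = a * (b * (a * (B * (a * (b * (a * (b * z))))))) := by rw [R4]
  have R8 : ∀ z : Γ, b * (a * (b * (a * (B * (a * (b * (a * z))))))) = a * (B * (a * (b * (a * (B * (a * (B * z))))))) := fun z =>
    calc b * (a * (b * (a * (B * (a * (b * (a * z)))))))
      _ = a * (B * (a * (B * (a * (b * (a * (b * (a * z)))))))) := by rw [← R3]
      _ = a * (B * (a * (b * (a * (B * (a * (B * z))))))) := by rw [R6]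
  have R9 : ∀ z : Γ, B * (a * (b * (a * (B * (a * (b * (a * (b * z)))))))) = b * (a * (B * (a * (b * (a * (B * (a * z))))))) := fun z =>
    calc B * (a * (b * (a * (B * (a * (b * (a * (b * z))))))))
      _ = B * (B * (a * (B * (a * (b * (a * (B * (a * z)))))))) := by rw [R7]
      _ = b * (a * (B * (a * (b * (a * (B * (a * z))))))) := by rw [hBB]
  have R10 : ∀ z : Γ, b * (a * (B * (a * (b * (a * (B * (a * (B * z)))))))) = B * (a * (b * (a * (B * (a * (b * (a * z))))))) := fun z =>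
    calc b * (a * (B * (a * (b * (a * (B * (a * (B * z))))))))
      _ = b * (b * (a * (b * (a * (B * (a * (b * (a * z)))))))) := by rw [R8]
      _ = B * (a * (b * (a * (B * (a * (b * (a * z))))))) := by rw [hbb]
  have R11 : ∀ z : Γ, B * (a * (b * (a * (B * (a * (b * (a * (B * z)))))))) = b * (a * (B * (a * (b * (a * (B * (a * (b * z)))))))) := fun z =>
    calc B * (a * (b * (a * (B * (a * (b * (a * (B * z))))))))
      _ = B * (a * (b * (a * (B * (a * (b * (a * (b * (b * z))))))))) := by rw [hbb]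
      _ = b * (a * (B * (a * (b * (a * (B * (a * (b * z)))))))) := by rw [R9]

  have R12 : ∀ z : Γ, b * (a * (B * (a * (b * (a * (B * (a * (b * (a * z))))))))) = a * (b * (a * (B * (a * (b * (a * (B * (a * (b * z))))))))) := fun z => by
    have e1 : B * (a * (b * (a * (B * (a * (b * (a * (B * (a * z))))))))) = b * (a * (B * (a * (b * (a * (B * (a * (b * (a * z))))))))) := by rw [R11]
    have e2 : B * (a * (B * (a * (b * (a * (B * (a * (b * (a * (b * z)))))))))) = B * (a * (b * (a * (B * (a * (b * (a * (B * (a * z))))))))) := by rw [R9]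
    have e3 : B * (a * (B * (a * (b * (a * (B * (a * (b * (a * (b * z)))))))))) = a * (b * (a * (B * (a * (b * (a * (B * (a * (b * z))))))))) := by rw [R7, hbb]
    rw [← e1, ← e2, e3]
  have sa := step_a (a := a) (b := b) (B := B) haa hbB hBb hbb hBB R1 R2 R3 R4 R5 R6 R7 R8 R9 R10 R11 R12
  have sb := step_b (a := a) (b := b) (B := B) haa hbB hBb hbb hBB R1 R2 R3 R4 R5 R6 R7 R8 R9 R10 R11 R12
  refine ⟨(Finset.range 60).image (f a b B), (Finset.card_image_le).trans (by simp), ?_⟩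
  have hcl : ∀ x : Γ, ∀ y ∈ (Finset.range 60).image (f a b B),
      x * y ∈ (Finset.range 60).image (f a b B) := by
    intro x
    have hx : x ∈ Subgroup.closure ({a, b} : Set Γ) := hgen ▸ Subgroup.mem_top x
    have ma : ∀ y ∈ (Finset.range 60).image (f a b B),
        a * y ∈ (Finset.range 60).image (f a b B) := by
      intro y hy
      obtain ⟨i, hi, rfl⟩ := Finset.mem_image.1 hy
      obtain ⟨j, hj, h⟩ := sa i (Finset.mem_range.1 hi)
      exact Finset.mem_image.2 ⟨j, Finset.mem_range.2 hj, h.symm⟩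
    have mb : ∀ y ∈ (Finset.range 60).image (f a b B),
        b * y ∈ (Finset.range 60).image (f a b B) := by
      intro y hy
      obtain ⟨i, hi, rfl⟩ := Finset.mem_image.1 hy
      obtain ⟨j, hj, h⟩ := sb i (Finset.mem_range.1 hi)
      exact Finset.mem_image.2 ⟨j, Finset.mem_range.2 hj, h.symm⟩
    refine Subgroup.closure_induction (p := fun x _ => ∀ y ∈ (Finset.range 60).image (f a b B),
      x * y ∈ (Finset.range 60).image (f a b B)) ?_ ?_ ?_ ?_ hx
    · rintro x (rfl | rfl)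
      · exact ma
      · exact mb
    · intro y hy; rwa [one_mul]
    · intro x y _ _ hx hy z hz
      rw [mul_assoc]; exact hx _ (hy _ hz)
    · intro x _ hx y hy
      have hinj : Function.Injective fun z : Γ => x * z := mul_right_injective x
      have himg : ((Finset.range 60).image (f a b B)).image (fun z => x * z) =
          (Finset.range 60).image (f a b B) := by
        refine Finset.eq_of_subset_of_card_le ?_ ?_
        · intro w hw
          obtain ⟨z, hz, rfl⟩ := Finset.mem_image.1 hw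
          exact hx z hz
        · rw [Finset.card_image_of_injective _ hinj]
      rw [← himg] at hy
      obtain ⟨z, hz, rfl⟩ := Finset.mem_image.1 hy
      simpa using hz
  intro x
  have h1 : (1 : Γ) ∈ (Finset.range 60).image (f a b B) :=
    Finset.mem_image.2 ⟨0, Finset.mem_range.2 (by norm_num), rfl⟩
  simpa using hcl x 1 h1

end Run7.h858.Tri235
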